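import Pool.Agent.Lib.MP_ccffa6_gt.K.Htpy

/-! Block EX, formal part: definitions and the interface `XData`. -/

open Set Filter Topology
open scoped ContDiff RealInnerProductSpace

noncomputable section

namespace Pool.Agent.Lib.MP_ccffa6_gt.EX

/-- The complexification of `U`, with the Euclidean norm. -/
abbrev Cx (U : Type) : Type := WithLp 2 (U × U)

/-- `V ⊕ ℝ` with the Euclidean norm. -/
abbrev UU (V : Type) : Type := WithLp 2 (V × ℝ)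

section lin

variable {U : Type} [NormedAddCommGroup U] [InnerProductSpace ℝ U]
  {Z : Type} [NormedAddCommGroup Z] [NormedSpace ℝ Z]

/-- Real part. -/
def re1 : Cx U →L[ℝ] U := WithLp.fstL 2 ℝ U U

/-- Imaginary part. -/
def im1 : Cx U →L[ℝ] U := WithLp.sndL 2 ℝ U U

/-- The map with real part `A` and imaginary part `B`. -/
def pr (A B : Z →L[ℝ] U) : Z →L[ℝ] Cx U :=
  ((WithLp.prodContinuousLinearEquiv 2 ℝ U U).symm : U × U →L[ℝ] Cx U) ∘L A.prod B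

@[simp] theorem re1_pr (A B : Z →L[ℝ] U) (z : Z) : re1 (pr A B z) = A z := rfl

@[simp] theorem im1_pr (A B : Z →L[ℝ] U) (z : Z) : im1 (pr A B z) = B z := rfl

theorem cx_ext {z w : Cx U} (h1 : re1 z = re1 w) (h2 : im1 z = im1 w) : z = w :=
  (WithLp.prodContinuousLinearEquiv 2 ℝ U U).injective (Prod.ext h1 h2)

theorem cx_inner (z w : Cx U) : ⟪z, w⟫ = ⟪re1 z, re1 w⟫ + ⟪im1 z, im1 w⟫ :=
  WithLp.prod_inner_apply z w

/-- Multiplication by `i`. -/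
def II : Cx U →L[ℝ] Cx U := pr (-im1) re1

@[simp] theorem re1_II (z : Cx U) : re1 (II z) = -im1 z := rfl

@[simp] theorem im1_II (z : Cx U) : im1 (II z) = re1 z := rfl

/-- The form `⟪A u, v⟫`. -/
def frm (A : U →L[ℝ] U) : Bil U := (innerSL ℝ : U →L[ℝ] U →L[ℝ] ℝ) ∘L A

@[simp] theorem frm_apply (A : U →L[ℝ] U) (u v : U) : frm A u v = ⟪A u, v⟫ := rfl

/-- The standard symplectic form of the complexification. -/
def eta : Bil (Cx U) := frm II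

theorem eta_apply (z w : Cx U) : eta z w = ⟪II z, w⟫ := rfl

/-- `J` is skew and `J ^ 3 = -J`: an orthogonal complex structure on the range of `-J ^ 2`. -/
structure IsJ (J : U →L[ℝ] U) : Prop where
  skew : ∀ u v, ⟪J u, v⟫ = -⟪u, J v⟫
  cube : ∀ u, J (J (J u)) = -J u

/-- The orthogonal projector `-J ^ 2`. -/
def Pi (J : U →L[ℝ] U) : U →L[ℝ] U := -(J ∘L J)

theorem Pi_apply (J : U →L[ℝ] U) (u : U) : Pi J u = -J (J u) := rfl

/-- Projector onto the complement of the bundle. -/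
def QJ (J : U →L[ℝ] U) : Cx U →L[ℝ] Cx U :=
  pr ((1 / 2 : ℝ) • (Pi J ∘L re1 + J ∘L im1)) ((1 / 2 : ℝ) • (Pi J ∘L im1 - J ∘L re1))

/-- Projector onto the bundle `(ker J) ⊗ ℂ ⊕ {v + i J v}`. -/
def PJ (J : U →L[ℝ] U) : Cx U →L[ℝ] Cx U := 1 - QJ J

/-- The model differential. -/
def LJ (J : U →L[ℝ] U) : Cx U →L[ℝ] Cx U :=
  pr ((1 - Pi J) ∘L re1 + Pi J ∘L im1) ((1 - Pi J) ∘L im1 + J ∘L im1)

/-- Its right inverse. -/
def SJ (J : U →L[ℝ] U) : Cx U →L[ℝ] Cx U :=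
  pr ((1 - Pi J) ∘L re1) ((1 - Pi J) ∘L im1 + (1 / 2 : ℝ) • (Pi J ∘L re1 - J ∘L im1))

end lin

section geo

variable {V : Type} [NormedAddCommGroup V] [InnerProductSpace ℝ V]
  {F : Type} [NormedAddCommGroup F] [NormedSpace ℝ F]

/-- The identification of `V × ℝ` with its Euclidean version. -/
def umk : (V × ℝ) ≃L[ℝ] UU V := (WithLp.prodContinuousLinearEquiv 2 ℝ V ℝ).symm

theorem umk_inner (u v : V × ℝ) : ⟪umk u, umk v⟫ = ⟪u.1, v.1⟫ + u.2 * v.2 := by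
  have := WithLp.prod_inner_apply (𝕜 := ℝ) (umk u) (umk v)
  rw [this, mul_comm]; rfl

/-- The form of `J` on `V × ℝ`. -/
def OmJ (J : V → UU V →L[ℝ] UU V) (x : V) : Bil (V × ℝ) :=
  (frm (J x)).bilinearComp ((umk : (V × ℝ) ≃L[ℝ] UU V) : V × ℝ →L[ℝ] UU V)
    ((umk : (V × ℝ) ≃L[ℝ] UU V) : V × ℝ →L[ℝ] UU V)

theorem OmJ_apply (J : V → UU V →L[ℝ] UU V) (x : V) (u v : V × ℝ) :
    OmJ J x u v = ⟪J x (umk u), umk v⟫ := rfl

/-- A smooth orthogonal complex structure on `TM ⊕ ℝ`, extended by zero. -/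
structure JData (M : Set V) (J : V → UU V →L[ℝ] UU V) : Prop where
  sm : ContDiff ℝ ∞ J
  isJ : ∀ x ∈ M, IsJ (J x)
  rng : ∀ x ∈ M, ∀ u : V × ℝ, Pi (J x) (umk u) = umk u ↔ u.1 ∈ Tan M x

/-- The trivialisation `v ↦ (X v, f v) + i (Y v, a v)`. -/
def Th (X Y : F →L[ℝ] V) (f a : F →L[ℝ] ℝ) : F →L[ℝ] Cx (UU V) :=
  pr (((umk : (V × ℝ) ≃L[ℝ] UU V) : V × ℝ →L[ℝ] UU V) ∘L X.prod f)
    (((umk : (V × ℝ) ≃L[ℝ] UU V) : V × ℝ →L[ℝ] UU V) ∘L Y.prod a)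

@[simp] theorem re1_Th (X Y : F →L[ℝ] V) (f a : F →L[ℝ] ℝ) (v : F) :
    re1 (Th X Y f a v) = umk (X v, f v) := rfl

@[simp] theorem im1_Th (X Y : F →L[ℝ] V) (f a : F →L[ℝ] ℝ) (v : F) :
    im1 (Th X Y f a v) = umk (Y v, a v) := rfl

/-- What the analytic part delivers: the slab `W` is cut out by a section of the bundle
`range (PJ (J (r p)))` with vertical differential `D`; the upper level is `M`, where `D` is the
model differential; on the lower level `D` is almost complex linear on the contact planes. -/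
structure XData (n : ℕ) (M : Set V) (J : V → UU V →L[ℝ] UU V) (W : Set F) (f : F →L[ℝ] ℝ)
    (a b : ℝ) (ν : F) (X Y : F →L[ℝ] V) (α : Form1 F) (r : F → V) (ψ : V → F)
    (D : F → F →L[ℝ] Cx (UU V)) : Prop where
  slab : Slab (2 * n + 2) W f a b (fun _ => ν)
  smα : ContDiff ℝ ∞ α
  dα : ∀ p u v, dF α p u v = ⟪X u, Y v⟫ - ⟪Y u, X v⟫
  Xν : X ν = 0
  Yν : Y ν = 0
  fν : f ν = 1
  αν : ∀ p, α p ν = 0
  bij : ∀ p, Function.Bijective (Th X Y f (α p))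
  diff : Diff (Lev W f b) M X ψ
  cr : ContinuousOn r (W ∩ f ⁻¹' Icc a b)
  mr : MapsTo r (W ∩ f ⁻¹' Icc a b) M
  er : EqOn r X (Lev W f b)
  cD : ContinuousOn D (W ∩ f ⁻¹' Icc a b)
  ker : ∀ p ∈ W ∩ f ⁻¹' Icc a b, ∀ v, v ∈ Tan W p ↔ D p v = 0
  rng : ∀ p ∈ W ∩ f ⁻¹' Icc a b, ∀ v, PJ (J (r p)) (D p v) = D p v
  onto : ∀ p ∈ W ∩ f ⁻¹' Icc a b, ∀ k, ∃ v, D p v = PJ (J (r p)) k
  top : ∀ p ∈ Lev W f b, ∀ v, D p v = LJ (J (r p)) (Th X Y f (α p) v)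
  bot1 : ∀ p ∈ Lev W f a, ∀ k, ∃ v, f v = 0 ∧ α p v = 0 ∧ D p v = PJ (J (r p)) k
  bot2 : ∀ p ∈ Lev W f a, ∀ v v', f v = 0 → α p v = 0 →
    Th X Y f (α p) v' = II (Th X Y f (α p) v) →
    ∃ y, f y = 0 ∧ α p y = 0 ∧ D p y = D p v' - II (D p v) ∧
      4 * ‖Th X Y f (α p) y‖ ≤ ‖Th X Y f (α p) v‖

end geo

end Pool.Agent.Lib.MP_ccffa6_gt.EX
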