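import Pool.Agent.Lib.MP_ccffa6_gt.EX.FP2
import Pool.Agent.Lib.MP_ccffa6_gt.G.Sqrt

/-! Block EX, formal part: smooth inverse square roots and the polar decomposition. -/

open Set Filter Topology
open scoped ContDiff RealInnerProductSpace

noncomputable section

namespace Pool.Agent.Lib.MP_ccffa6_gt.EX

variable {H : Type} [NormedAddCommGroup H] [InnerProductSpace ℝ H]

/-- Symmetric and nonnegative. -/
def Pos (B : H →L[ℝ] H) : Prop := (∀ u v, ⟪B u, v⟫ = ⟪u, B v⟫) ∧ ∀ u, 0 ≤ ⟪B u, u⟫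

theorem Pos.conj {H' : Type} [NormedAddCommGroup H'] [InnerProductSpace ℝ H'] (e : H ≃ₗᵢ[ℝ] H')
    {B : H →L[ℝ] H} (h : Pos B) : Pos (e.toContinuousLinearEquiv.conjContinuousAlgEquiv B) := by
  have : ∀ u v, ⟪e.toContinuousLinearEquiv.conjContinuousAlgEquiv B u, v⟫ =
      ⟪B (e.symm u), e.symm v⟫ := fun u v => by
    rw [← e.symm.inner_map_map]
    exact congrArg (⟪·, e.symm v⟫) (e.symm_apply_apply _)
  exact ⟨fun u v => by rw [this, real_inner_comm _ u, this, h.1, real_inner_comm],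
    fun u => (this u u).symm ▸ h.2 _⟩

variable [FiniteDimensional ℝ H]

theorem exists_sqrt : ∃ S : (H →L[ℝ] H) → (H →L[ℝ] H), ContinuousOn S {B | Pos B} ∧
    ∀ B, Pos B → Pos (S B) ∧ S B * S B = B ∧ ∀ T, Commute T B → Commute T (S B) := by
  obtain ⟨S, cS, hS⟩ := g_sqrt (Module.finrank ℝ H)
  let e := (stdOrthonormalBasis ℝ H).repr
  let c := e.toContinuousLinearEquiv.conjContinuousAlgEquiv
  have hp : ∀ B : Rd (Module.finrank ℝ H) →L[ℝ] Rd (Module.finrank ℝ H), B.IsPositive ↔ Pos B :=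
    fun B => B.isPositive_iff
  refine ⟨fun B => c.symm (S (c B)), c.symm.continuous.comp_continuousOn
    (cS.comp c.continuous.continuousOn fun B hB => (hp _).2 (Pos.conj e hB)), fun B hB => ?_⟩
  obtain ⟨h1, h2, h3⟩ := hS _ ((hp _).2 (hB.conj e))
  refine ⟨((hp _).1 h1).conj e.symm, by rw [← map_mul, h2]; exact c.symm_apply_apply B,
    fun T hT => ?_⟩
  have := (h3 _ (hT.map c)).map c.symm
  rwa [c.symm_apply_apply] at this

theorem Pos.sylvester {C T : H →L[ℝ] H} (h : Pos C) (hi : ∀ u, C u = 0 → u = 0)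
    (h0 : C * T + T * C = 0) : T = 0 := by
  have hs : (C : H →ₗ[ℝ] H).IsSymmetric := h.1
  refine ContinuousLinearMap.coe_injective ((hs.eigenvectorBasis rfl).toBasis.ext fun i => ?_)
  have e : C (hs.eigenvectorBasis rfl i) = hs.eigenvalues rfl i • hs.eigenvectorBasis rfl i :=
    hs.apply_eigenvectorBasis rfl i
  have n : hs.eigenvectorBasis rfl i ≠ 0 := (hs.eigenvectorBasis rfl).toBasis.ne_zero i
  change T (hs.eigenvectorBasis rfl i) = 0
  generalize hs.eigenvectorBasis rfl i = v at *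
  generalize hs.eigenvalues rfl i = μ at *
  have h1 : C (T v) + μ • T v = 0 := by
    rw [← map_smul, ← e]; exact congrArg (fun B : H →L[ℝ] H => B v) h0
  have h2 : 0 < μ := by
    have := h.2 v
    rw [e, real_inner_smul_left] at this
    refine lt_of_le_of_ne (nonneg_of_mul_nonneg_left this (real_inner_self_pos.2 n)) fun h3 => ?_
    exact n (hi v (by rw [e, ← h3, zero_smul]))
  have h3 := congrArg (⟪·, T v⟫) h1
  simp only [inner_add_left, real_inner_smul_left, inner_zero_left] at h3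
  exact inner_self_eq_zero.1 (le_antisymm (by nlinarith [h.2 (T v)]) real_inner_self_nonneg)

variable {E : Type} [NormedAddCommGroup E] [NormedSpace ℝ E] [FiniteDimensional ℝ E] {M : Set E}

theorem exists_smooth_sqrt (hM : IsClosed M) {B : E → H →L[ℝ] H} (hB : ContDiff ℝ ∞ B)
    (hp : ∀ x ∈ M, Pos (B x)) (hi : ∀ x ∈ M, ∀ u, B x u = 0 → u = 0) :
    ∃ R : E → H →L[ℝ] H, ContDiff ℝ ∞ R ∧
      ∀ x ∈ M, Pos (R x) ∧ R x * R x = B x ∧ ∀ T, Commute T (B x) → Commute T (R x) := by
  obtain ⟨S, cS, hS⟩ := exists_sqrt (H := H)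
  obtain ⟨R, U, h1, -, h2, h3, -⟩ := exists_smooth_ext (S := M) hM (f := fun x => S (B x))
    fun x hx => by
      obtain ⟨p1, p2, -⟩ := hS _ (hp x hx)
      obtain ⟨g, g1, g2, -⟩ := (isSub_of_isOpen isOpen_univ).local_inverse
        (isSub_of_isOpen isOpen_univ) (f := fun A : H →L[ℝ] H => A * A) (contDiff_id.mul contDiff_id)
        (mem_univ (S (B x))) (.of_forall fun _ => mem_univ _) fun T _ hT => by
          refine p1.sylvester (fun u hu => hi x hx u ?_) ?_
          · rw [← p2]; exact (congrArg (S (B x)) hu).trans (map_zero _)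
          · have := ((hasFDerivAt_id (𝕜 := ℝ) (S (B x))).mul' (hasFDerivAt_id (S (B x)))).fderiv
            exact (congrArg (fun L => L T) this).symm.trans hT
      rw [nhdsWithin_univ] at g2
      refine ⟨g ∘ B, g1.comp hB, ?_⟩
      have ct : ContinuousWithinAt (fun y => S (B y)) M x :=
        (cS.comp hB.continuous.continuousOn hp) x hx
      filter_upwards [ct.tendsto.eventually g2, self_mem_nhdsWithin] with y h1 h2
      rw [(hS _ (hp y h2)).2.1] at h1
      exact h1.symm
  exact ⟨R, h1, fun x hx => by rw [h3 ⟨hx, h2 hx⟩]; exact hS _ (hp x hx)⟩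

theorem exists_isqrt (hM : IsClosed M) {B : E → H →L[ℝ] H} (hB : ContDiff ℝ ∞ B)
    (hp : ∀ x ∈ M, Pos (B x)) (hi : ∀ x ∈ M, ∀ u, B x u = 0 → u = 0) :
    ∃ C : E → H →L[ℝ] H, ContDiff ℝ ∞ C ∧
      ∀ x ∈ M, Pos (C x) ∧ B x * C x * C x = 1 ∧ ∀ T, Commute T (B x) → Commute T (C x) := by
  have := FiniteDimensional.complete ℝ H
  obtain ⟨R, h1, h2⟩ := exists_smooth_sqrt hM hB hp hi
  have hu : M ⊆ R ⁻¹' {A | IsUnit A} := fun x hx => isUnit_of_ker fun u hu => hi x hx u (by
    rw [← (h2 x hx).2.1]; exact (congrArg (R x) hu).trans (map_zero _))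
  obtain ⟨C, c1, c2, -⟩ := exists_smooth_nhdsSet hM (Units.isOpen.preimage h1.continuous) hu
    (f := fun x => Ring.inverse (R x)) fun x hx => by
      obtain ⟨u, hu⟩ := hx
      have := contDiffAt_ringInverse ℝ (n := ∞) u
      rw [hu] at this
      exact (this.comp x h1.contDiffAt).contDiffWithinAt
  refine ⟨C, c1, fun x hx => ?_⟩
  obtain ⟨p1, p2, p3⟩ := h2 x hx
  have e1 : R x * C x = 1 := by rw [c2.self_of_nhdsSet x hx, Ring.mul_inverse_cancel _ (hu hx)]
  have e2 : C x * R x = 1 := by rw [c2.self_of_nhdsSet x hx, Ring.inverse_mul_cancel _ (hu hx)]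
  have e3 : ∀ u, R x (C x u) = u := fun u => congrArg (fun A : H →L[ℝ] H => A u) e1
  refine ⟨⟨fun u v => ?_, fun u => ?_⟩, by rw [← p2, mul_assoc (R x), e1, mul_one, e1],
    fun T hT => ?_⟩
  · rw [← e3 v, ← p1.1, e3, e3]
  · have := p1.2 (C x u)
    rwa [e3, real_inner_comm] at this
  · calc T * C x = C x * R x * T * C x := by rw [e2, one_mul]
      _ = C x * T * (R x * C x) := by rw [mul_assoc (C x), ← (p3 T hT).eq]; simp only [mul_assoc]
      _ = C x * T := by rw [e1, mul_one]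

omit [FiniteDimensional ℝ H] in
/-- The polar part of a skew operator which is invertible on the range of a projector. -/
theorem polar {P A C : H →L[ℝ] H} (hP : P * P = P) (hA : ∀ u v, ⟪A u, v⟫ = -⟪u, A v⟫)
    (h1 : P * A = A) (h2 : A * P = A) (hC : Pos C) (hB : (1 - P - A * A) * C * C = 1)
    (hc : ∀ T, Commute T (1 - P - A * A) → Commute T C) (hi : ∀ u, P u = u → A u = 0 → u = 0) :
    IsJ (A * C) ∧ Pi (A * C) = P ∧ ∀ t ∈ Icc (0 : ℝ) 1, ∀ u, P u = u →
      (1 - t) • A (C u) + t • A u = 0 → u = 0 := by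
  have cA : A * C = C * A := (hc A (by
    rw [commute_iff_eq, mul_sub, mul_sub, sub_mul, sub_mul, h1, h2]; noncomm_ring)).eq
  have cP : P * C = C * P := (hc P (by
    rw [commute_iff_eq, mul_sub, mul_sub, sub_mul, sub_mul, ← mul_assoc, mul_assoc A, h1, h2]
    noncomm_ring)).eq
  have e1 : Pi (A * C) = P := by
    have : P * ((1 - P - A * A) * C * C) = -(A * C * (A * C)) := by
      rw [← mul_assoc, ← mul_assoc, mul_sub, mul_sub, hP, ← mul_assoc P, h1, mul_assoc A C,
        ← mul_assoc C, ← cA]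
      noncomm_ring
    rw [hB, mul_one] at this
    exact this.symm
  refine ⟨⟨fun u v => ?_, fun u => ?_⟩, e1, fun t ht u hu h0 => ?_⟩
  · exact (hA (C u) v).trans (by rw [hC.1, cA]; rfl)
  · have : P (A (C u)) = A (C u) := congrArg (fun L : H →L[ℝ] H => L (C u)) h1
    rw [← e1, Pi_apply, neg_eq_iff_eq_neg] at this
    exact this
  · have p1 : P (C u) = C u := (congrArg (fun L : H →L[ℝ] H => L u) cP).trans (congrArg C hu)
    have p2 := hi ((1 - t) • C u + t • u) (by rw [map_add, map_smul, map_smul, p1, hu])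
      (by rw [map_add, map_smul, map_smul, h0])
    rcases eq_or_lt_of_le ht.1 with rfl | h3
    · rw [sub_zero, one_smul, zero_smul, add_zero] at p2
      have : ((1 - P - A * A) * C) (C u) = u := congrArg (fun L : H →L[ℝ] H => L u) hB
      rw [← this, p2, map_zero]
    · have p3 := congrArg (⟪·, u⟫) p2
      simp only [inner_add_left, real_inner_smul_left, inner_zero_left] at p3
      have := mul_nonneg (sub_nonneg.2 ht.2) (hC.2 u)
      exact inner_self_eq_zero.1 (le_antisymm (by nlinarith) real_inner_self_nonneg)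

end Pool.Agent.Lib.MP_ccffa6_gt.EX
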