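import Pool.Agent.Lib.MP_ccffa6_gt.EX.FPhi
import Pool.Agent.Lib.MP_ccffa6_gt.EX.FSqrt

/-! Block EX, formal part: a smooth orthogonal complex structure in the given class. -/

open Set Filter Topology
open scoped ContDiff RealInnerProductSpace

noncomputable section

namespace Pool.Agent.Lib.MP_ccffa6_gt.EX

variable {V : Type} [NormedAddCommGroup V] [InnerProductSpace ℝ V] [FiniteDimensional ℝ V]

theorem exists_skew {d : ℕ} {M : Set V} {Ω : V → Bil (V × ℝ)} (hM : Closed d M) (hΩ : Formal M Ω) :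
    ∃ w : V → Bil (V × ℝ), ContDiff ℝ ∞ w ∧ (∀ x u v, w x u v = -w x v u) ∧
      ∀ t ∈ Icc (0 : ℝ) 1, ∀ x ∈ M, ND (T1 M x) ((1 - t) • w x + t • Ω x) := by
  obtain ⟨P, U, cP, -, hU, hP⟩ := hM.sub.exists_proj hM.cpt subset_rfl
  obtain ⟨ε, hε, hs⟩ := NDField.stable hM.cpt hΩ
    (P := fun x => ContinuousLinearMap.inl ℝ V ℝ ∘L P x ∘L ContinuousLinearMap.fst ℝ V ℝ +
      ContinuousLinearMap.inr ℝ V ℝ ∘L ContinuousLinearMap.snd ℝ V ℝ)
    ((continuousOn_const.clm_comp (cP.continuous.continuousOn.clm_comp continuousOn_const)).add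
      continuousOn_const) fun x hx =>
      ⟨fun v => mem_T1.2 (by simpa using (hP x ⟨hx, hU hx⟩).1 _),
        fun v hv => by simp [(hP x ⟨hx, hU hx⟩).2 _ (mem_T1.1 hv)]⟩
  obtain ⟨g, cg, hg, -⟩ := exists_smooth_approx hM.cpt.isClosed isClosed_empty hΩ.cont
    (contDiff_const (c := (0 : Bil (V × ℝ)))) (by simp) hε
  have ev : ∀ x u v, ((1 / 2 : ℝ) • (g x - (g x).flip)) u v = 1 / 2 * (g x u v - g x v u) :=
    fun _ _ _ => rfl
  have c1 : ContDiff ℝ ∞ fun x => (g x).flip := contDiff_clm_apply_iff.2 fun u =>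
    contDiff_clm_apply_iff.2 fun v => (cg.clm_apply contDiff_const).clm_apply contDiff_const
  have c2 : ContDiff ℝ ∞ fun x => (1 / 2 : ℝ) • (g x - (g x).flip) := (cg.sub c1).const_smul _
  refine ⟨fun x => (1 / 2 : ℝ) • (g x - (g x).flip), c2,
    fun x u v => by rw [ev, ev]; ring, fun t ht x hx => hs x hx _ (fun u hu => ?_)
      fun u hu v hv => ?_⟩
  · rw [seg_apply, ev, (hΩ.nd x hx).1 u hu]; ring
  · have b : ∀ u v, |g x u v - Ω x u v| ≤ ε * ‖u‖ * ‖v‖ := fun u v =>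
      ((g x - Ω x).le_opNorm₂ u v).trans (by gcongr; exact (hg x hx).le)
    have b1 := abs_le.1 (b u v)
    have b2 := abs_le.1 (b v u)
    rw [(hΩ.nd x hx).skew hv hu, mul_right_comm] at b2
    rw [seg_apply, ev, show (1 - t) * (1 / 2 * (g x u v - g x v u)) + t * Ω x u v - Ω x u v =
      (1 - t) * (1 / 2 * (g x u v - g x v u) - Ω x u v) by ring, abs_mul,
      abs_of_nonneg (sub_nonneg.2 ht.2)]
    exact (mul_le_of_le_one_left (abs_nonneg _) (sub_le_self _ ht.1)).trans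
      (abs_le.2 ⟨by linarith, by linarith⟩)

theorem exists_Pr {d : ℕ} {M : Set V} (hM : Closed d M) :
    ∃ P : V → UU V →L[ℝ] UU V, ContDiff ℝ ∞ P ∧ ∀ x ∈ M, P x * P x = P x ∧
      (∀ u v, ⟪P x u, v⟫ = ⟪u, P x v⟫) ∧ ∀ u : V × ℝ, P x (umk u) = umk u ↔ u.1 ∈ Tan M x := by
  obtain ⟨P, U, cP, -, hU, hP⟩ := hM.sub.exists_orthProj hM.cpt subset_rfl
  let Q : V → UU V →L[ℝ] UU V := fun x => ((umk : (V × ℝ) ≃L[ℝ] UU V) : V × ℝ →L[ℝ] UU V) ∘L
    (ContinuousLinearMap.inl ℝ V ℝ ∘L P x ∘L ContinuousLinearMap.fst ℝ V ℝ +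
      ContinuousLinearMap.inr ℝ V ℝ ∘L ContinuousLinearMap.snd ℝ V ℝ) ∘L
    ((umk : (V × ℝ) ≃L[ℝ] UU V).symm : UU V →L[ℝ] V × ℝ)
  have ev : ∀ x (u : V × ℝ), Q x (umk u) = umk (P x u.1, u.2) := fun x u =>
    congrArg umk (Prod.ext (add_zero _) (zero_add _))
  refine ⟨Q, contDiff_const.clm_comp (((contDiff_const.clm_comp (cP.clm_comp contDiff_const)).add
    contDiff_const).clm_comp contDiff_const), fun x hx => ⟨?_, fun u v => ?_, fun u => ?_⟩⟩
  · refine ContinuousLinearMap.ext fun u => ?_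
    obtain ⟨u, rfl⟩ := umk.surjective u
    change Q x (Q x (umk u)) = _
    rw [ev, ev, hP x ⟨hx, hU hx⟩,
      Submodule.starProjection_eq_self_iff.2 (Submodule.starProjection_apply_mem _ _)]
  · obtain ⟨u, rfl⟩ := umk.surjective u
    obtain ⟨v, rfl⟩ := umk.surjective v
    rw [ev, ev, umk_inner, umk_inner, hP x ⟨hx, hU hx⟩, Submodule.inner_starProjection_left_eq_right]
  · rw [ev, umk.injective.eq_iff, Prod.ext_iff, hP x ⟨hx, hU hx⟩,
      Submodule.starProjection_eq_self_iff, and_iff_left rfl]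

theorem exists_J {d : ℕ} {M : Set V} {Ω : V → Bil (V × ℝ)} (hM : Closed d M) (hΩ : Formal M Ω) :
    ∃ J : V → UU V →L[ℝ] UU V, JData M J ∧ Htpy M (OmJ J) Ω := by
  have := FiniteDimensional.complete ℝ (UU V)
  obtain ⟨w, cw, sw, hw⟩ := exists_skew hM hΩ
  obtain ⟨P, cP, hP⟩ := exists_Pr hM
  let ι : UU V →L[ℝ] V × ℝ := (umk : (V × ℝ) ≃L[ℝ] UU V).symm
  let dl : (UU V →L[ℝ] ℝ) →L[ℝ] UU V :=
    (InnerProductSpace.toDual ℝ (UU V)).symm.toContinuousLinearEquiv.toContinuousLinearMap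
  let κ : (V × ℝ →L[ℝ] ℝ) →L[ℝ] UU V := dl ∘L (ContinuousLinearMap.compL ℝ (UU V) (V × ℝ) ℝ).flip ι
  have hκ : ∀ φ v, ⟪κ φ, v⟫ = φ (umk.symm v) := fun φ v => InnerProductSpace.toDual_symm_apply
  let A : V → UU V →L[ℝ] UU V := fun x => P x * (κ ∘L w x ∘L ι) * P x
  have cA0 : ContDiff ℝ ∞ fun x => κ ∘L w x ∘L ι :=
    contDiff_const.clm_comp (cw.clm_comp contDiff_const)
  have cA : ContDiff ℝ ∞ A := (cP.clm_comp cA0).clm_comp cP
  have eA : ∀ x ∈ M, ∀ u v, ⟪A x u, v⟫ = w x (umk.symm (P x u)) (umk.symm (P x v)) :=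
    fun x hx u v => ((hP x hx).2.1 _ v).trans (hκ _ _)
  have sA : ∀ x ∈ M, ∀ u v, ⟪A x u, v⟫ = -⟪u, A x v⟫ := fun x hx u v => by
    rw [eA x hx, real_inner_comm, eA x hx, sw]
  have h1 : ∀ x ∈ M, P x * A x = A x := fun x hx => by
    simp only [A, ← mul_assoc, (hP x hx).1]
  have h2 : ∀ x ∈ M, A x * P x = A x := fun x hx => by
    simp only [A, mul_assoc, (hP x hx).1]
  have pp : ∀ x ∈ M, ∀ u, P x (P x u) = P x u := fun x hx u =>
    congrArg (fun L : UU V →L[ℝ] UU V => L u) (hP x hx).1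
  have hi : ∀ x ∈ M, ∀ u, P x u = u → A x u = 0 → u = 0 := fun x hx u hu h0 => by
    obtain ⟨u, rfl⟩ := umk.surjective u
    rw [(hw 0 ⟨le_rfl, zero_le_one⟩ x hx).2 u (mem_T1.2 (((hP x hx).2.2 u).1 hu)) fun v hv => ?_,
      map_zero]
    have := eA x hx (umk u) (umk v)
    rw [h0, inner_zero_left, hu, ((hP x hx).2.2 v).2 (mem_T1.1 hv), umk.symm_apply_apply,
      umk.symm_apply_apply] at this
    rw [seg_apply, ← this]; ring
  have eB : ∀ x ∈ M, ∀ u v, ⟪(1 - P x - A x * A x) u, v⟫ =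
      ⟪u - P x u, v - P x v⟫ + ⟪A x u, A x v⟫ := fun x hx u v => by
    change ⟪u - P x u - A x (A x u), v⟫ = _
    simp only [inner_sub_left, inner_sub_right, sA x hx (A x u), (hP x hx).2.1, pp x hx]
    ring
  obtain ⟨C, cC, hC⟩ := exists_isqrt hM.cpt.isClosed (B := fun x => 1 - P x - A x * A x)
    ((contDiff_const.sub cP).sub (cA.clm_comp cA))
    (fun x hx => ⟨fun u v => by
        rw [eB x hx, real_inner_comm _ u, eB x hx, real_inner_comm, real_inner_comm (A x v)],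
      fun u => by rw [eB x hx]; exact add_nonneg real_inner_self_nonneg real_inner_self_nonneg⟩)
    fun x hx u hu => by
      have h3 := eB x hx u u
      rw [hu, inner_zero_left] at h3
      have n1 := real_inner_self_nonneg (x := u - P x u)
      have n2 := real_inner_self_nonneg (x := A x u)
      exact hi x hx u (sub_eq_zero.1 (inner_self_eq_zero.1 (le_antisymm (by linarith) n1))).symm
        (inner_self_eq_zero.1 (le_antisymm (by linarith) n2))
  have hp := fun x hx => polar (hP x hx).1 (sA x hx) (h1 x hx) (h2 x hx) (hC x hx).1 (hC x hx).2.1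
    (hC x hx).2.2 (hi x hx)
  have hJ : JData M fun x => A x * C x :=
    ⟨cA.clm_comp cC, fun x hx => (hp x hx).1, fun x hx u => by rw [(hp x hx).2.1, (hP x hx).2.2]⟩
  refine ⟨_, hJ, (NDHtpy.segment hJ.formal.cont cw.continuous.continuousOn
    fun t ht x hx => ⟨fun u hu => ?_, fun u hu hr => ?_⟩).trans
      (NDHtpy.segment cw.continuous.continuousOn hΩ.cont hw)⟩
  · have := sw x u u
    rw [seg_apply, (hJ.formal.nd x hx).1 u hu, show w x u u = 0 by linarith]; ring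
  · have pu := ((hP x hx).2.2 u).2 (mem_T1.1 hu)
    refine umk.map_eq_zero_iff.1 ((hp x hx).2.2 t ht _ pu ?_)
    obtain ⟨v, hv⟩ := umk.surjective ((1 - t) • A x (C x (umk u)) + t • A x (umk u))
    have pa : ∀ y, P x (A x y) = A x y := fun y =>
      congrArg (fun L : UU V →L[ℝ] UU V => L y) (h1 x hx)
    have pv : P x (umk v) = umk v := by rw [hv, map_add, map_smul, map_smul, pa, pa]
    have h3 := hr v (mem_T1.2 (((hP x hx).2.2 v).1 pv))
    have h4 := eA x hx (umk u) (umk v)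
    rw [pu, pv, umk.symm_apply_apply, umk.symm_apply_apply] at h4
    rw [← inner_self_eq_zero (𝕜 := ℝ)]
    nth_rewrite 2 [← hv]
    rw [inner_add_left, real_inner_smul_left, real_inner_smul_left, h4]
    exact h3

end Pool.Agent.Lib.MP_ccffa6_gt.EX
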