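import Pool.Agent.Lib.MP_ccffa6_gt.EX.FDefs

/-! Block EX, formal part: linear algebra of the model bundle. -/

open Set Filter Topology
open scoped ContDiff RealInnerProductSpace

noncomputable section

namespace Pool.Agent.Lib.MP_ccffa6_gt.EX

variable {U : Type} [NormedAddCommGroup U] [InnerProductSpace ℝ U]

theorem seg_apply {E : Type} [NormedAddCommGroup E] [NormedSpace ℝ E] (t : ℝ) (w w' : Bil E)
    (u v : E) : ((1 - t) • w + t • w') u v = (1 - t) * w u v + t * w' u v := rfl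

theorem II_II (z : Cx U) : II (II z) = -z := cx_ext (by simp) (by simp)

theorem II_skew (z w : Cx U) : ⟪II z, w⟫ = -⟪z, II w⟫ := by
  simp only [cx_inner, re1_II, im1_II, inner_neg_left, inner_neg_right]; ring

theorem eta_eq (z w : Cx U) : eta z w = ⟪re1 z, im1 w⟫ - ⟪im1 z, re1 w⟫ := by
  simp only [eta_apply, cx_inner, re1_II, im1_II, inner_neg_left]; ring

theorem nd_eta : ND ⊤ (eta : Bil (Cx U)) := by
  refine ⟨fun u _ => by rw [eta_eq, real_inner_comm, sub_self], fun u _ h => ?_⟩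
  have h1 : II u = 0 := inner_self_eq_zero.1 (h (II u) trivial)
  have h2 := II_II u
  rw [h1, map_zero] at h2
  exact neg_eq_zero.1 h2.symm

theorem re1_QJ (J : U →L[ℝ] U) (z : Cx U) :
    re1 (QJ J z) = (1 / 2 : ℝ) • (Pi J (re1 z) + J (im1 z)) := rfl

theorem im1_QJ (J : U →L[ℝ] U) (z : Cx U) :
    im1 (QJ J z) = (1 / 2 : ℝ) • (Pi J (im1 z) - J (re1 z)) := rfl

theorem PJ_apply (J : U →L[ℝ] U) (z : Cx U) : PJ J z = z - QJ J z := rfl

theorem re1_LJ (J : U →L[ℝ] U) (z : Cx U) :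
    re1 (LJ J z) = re1 z - Pi J (re1 z) + Pi J (im1 z) := rfl

theorem im1_LJ (J : U →L[ℝ] U) (z : Cx U) :
    im1 (LJ J z) = im1 z - Pi J (im1 z) + J (im1 z) := rfl

theorem re1_SJ (J : U →L[ℝ] U) (z : Cx U) : re1 (SJ J z) = re1 z - Pi J (re1 z) := rfl

theorem im1_SJ (J : U →L[ℝ] U) (z : Cx U) :
    im1 (SJ J z) = im1 z - Pi J (im1 z) + (1 / 2 : ℝ) • (Pi J (re1 z) - J (im1 z)) := rfl

theorem QJ_II (J : U →L[ℝ] U) (z : Cx U) : QJ J (II z) = II (QJ J z) := by
  refine cx_ext ?_ ?_ <;> simp only [re1_II, im1_II, re1_QJ, im1_QJ, map_neg] <;> module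

theorem PJ_II (J : U →L[ℝ] U) (z : Cx U) : PJ J (II z) = II (PJ J z) := by
  rw [PJ_apply, PJ_apply, QJ_II, map_sub]

theorem PJ_add_QJ (J : U →L[ℝ] U) (z : Cx U) : PJ J z + QJ J z = z := sub_add_cancel _ _

namespace IsJ

variable {J : U →L[ℝ] U} (h : IsJ J)
include h

theorem J_Pi (u : U) : J (Pi J u) = J u := by rw [Pi_apply, map_neg, h.cube, neg_neg]

theorem Pi_J (u : U) : Pi J (J u) = J u := by rw [Pi_apply, h.cube, neg_neg]

theorem Pi_Pi (u : U) : Pi J (Pi J u) = Pi J u := by rw [Pi_apply J (Pi J u), h.J_Pi, Pi_apply]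

omit h in
theorem J_J (u : U) : J (J u) = -Pi J u := by rw [Pi_apply, neg_neg]

theorem Pi_symm (u v : U) : ⟪Pi J u, v⟫ = ⟪u, Pi J v⟫ := by
  rw [Pi_apply, Pi_apply, inner_neg_left, inner_neg_right, h.skew, h.skew, neg_neg]

theorem QJ_QJ (z : Cx U) : QJ J (QJ J z) = QJ J z := by
  refine cx_ext ?_ ?_
  · rw [re1_QJ, re1_QJ, im1_QJ]
    simp only [map_smul, map_add, map_sub, h.J_Pi, h.Pi_J, h.Pi_Pi, J_J]
    module
  · rw [im1_QJ, re1_QJ, im1_QJ]
    simp only [map_smul, map_add, map_sub, h.J_Pi, h.Pi_J, h.Pi_Pi, J_J]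
    module

theorem QJ_PJ (z : Cx U) : QJ J (PJ J z) = 0 := by rw [PJ_apply, map_sub, h.QJ_QJ, sub_self]

theorem PJ_QJ (z : Cx U) : PJ J (QJ J z) = 0 := by rw [PJ_apply, h.QJ_QJ, sub_self]

theorem PJ_PJ (z : Cx U) : PJ J (PJ J z) = PJ J z := by
  rw [PJ_apply J (PJ J z), h.QJ_PJ, sub_zero]

theorem QJ_symm (z w : Cx U) : ⟪QJ J z, w⟫ = ⟪z, QJ J w⟫ := by
  simp only [cx_inner, re1_QJ, im1_QJ, real_inner_smul_left, real_inner_smul_right, inner_add_left,
    inner_add_right, inner_sub_left, inner_sub_right, h.Pi_symm, h.skew]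
  ring

theorem PJ_symm (z w : Cx U) : ⟪PJ J z, w⟫ = ⟪z, PJ J w⟫ := by
  rw [PJ_apply, PJ_apply, inner_sub_left, inner_sub_right, h.QJ_symm]

theorem eta_PQ (z w : Cx U) : eta (PJ J z) (QJ J w) = 0 := by
  rw [eta_apply, ← PJ_II, h.PJ_symm, h.PJ_QJ, inner_zero_right]

theorem eta_QP (z w : Cx U) : eta (QJ J z) (PJ J w) = 0 := by
  rw [eta_apply, ← QJ_II, h.QJ_symm, h.QJ_PJ, inner_zero_right]

theorem eta_split (z w : Cx U) :
    eta z w = eta (PJ J z) (PJ J w) + eta (QJ J z) (QJ J w) := by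
  conv_lhs => rw [← PJ_add_QJ J z, ← PJ_add_QJ J w]
  simp only [map_add, add_apply, h.eta_PQ, h.eta_QP, add_zero, zero_add]

theorem QJ_LJ (z : Cx U) : QJ J (LJ J z) = 0 := by
  refine cx_ext ?_ ?_ <;>
    simp only [re1_QJ, im1_QJ, re1_LJ, im1_LJ, map_zero, map_add, map_sub, h.J_Pi, h.Pi_J, h.Pi_Pi,
      J_J] <;> module

theorem PJ_LJ (z : Cx U) : PJ J (LJ J z) = LJ J z := by rw [PJ_apply, h.QJ_LJ, sub_zero]

theorem LJ_SJ (z : Cx U) : LJ J (SJ J z) = PJ J z := by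
  refine cx_ext ?_ ?_ <;>
    simp only [PJ_apply, re1_QJ, im1_QJ, re1_LJ, im1_LJ, re1_SJ, im1_SJ, map_smul, map_add, map_sub,
      h.J_Pi, h.Pi_J, h.Pi_Pi, J_J] <;> module

theorem Pi_re1_SJ (z : Cx U) : Pi J (re1 (SJ J z)) = 0 := by
  rw [re1_SJ, map_sub, h.Pi_Pi, sub_self]

theorem LJ_eq_zero {z : Cx U} : LJ J z = 0 ↔ Pi J (re1 z) = re1 z ∧ im1 z = 0 := by
  constructor
  · intro h0
    have h1 : re1 z - Pi J (re1 z) + Pi J (im1 z) = 0 := by rw [← re1_LJ, h0, map_zero]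
    have h2 : im1 z - Pi J (im1 z) + J (im1 z) = 0 := by rw [← im1_LJ, h0, map_zero]
    have h3 : Pi J (im1 z) = 0 := by
      simpa only [map_add, map_sub, h.Pi_Pi, sub_self, zero_add, map_zero] using congrArg (Pi J) h1
    have h4 : J (im1 z) = 0 := by rw [← h.J_Pi, h3, map_zero]
    rw [h3, add_zero, sub_eq_zero] at h1
    rw [h3, h4, sub_zero, add_zero] at h2
    exact ⟨h1.symm, h2⟩
  · rintro ⟨h1, h2⟩
    refine cx_ext ?_ ?_ <;> simp only [re1_LJ, im1_LJ, h1, h2, map_zero, sub_self, add_zero]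

theorem eta_LJ (z w : Cx U) : eta (LJ J z) (LJ J w) =
    ⟪re1 z - Pi J (re1 z), im1 w⟫ - ⟪im1 z - Pi J (im1 z), re1 w⟫ - 2 * ⟪J (im1 z), im1 w⟫ := by
  simp only [eta_eq, re1_LJ, im1_LJ, inner_add_left, inner_add_right, inner_sub_left,
    inner_sub_right, h.Pi_symm, h.skew, h.J_Pi, h.Pi_J, h.Pi_Pi]
  ring

end IsJ

/-- The form pulled back from `TM ⊕ ℝ ⊕` (the bundle). -/
def om0 (J : U →L[ℝ] U) : Bil (Cx U) :=
  (frm J).bilinearComp re1 re1 + eta.bilinearComp (LJ J) (LJ J)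

theorem om0_apply (J : U →L[ℝ] U) (z w : Cx U) :
    om0 J z w = ⟪J (re1 z), re1 w⟫ + eta (LJ J z) (LJ J w) := rfl

/-- The segment from the standard form to `om0` consists of nondegenerate forms. -/
theorem IsJ.nd_seg {J : U →L[ℝ] U} (h : IsJ J) (t : ℝ) :
    ND ⊤ ((1 - t) • (eta : Bil (Cx U)) + t • om0 J) := by
  have ev : ∀ z w : Cx U, ((1 - t) • (eta : Bil (Cx U)) + t • om0 J) z w =
      ⟪t • J (re1 z) - (im1 z - t • Pi J (im1 z)), re1 w⟫ +
        ⟪re1 z - t • Pi J (re1 z) - (2 * t) • J (im1 z), im1 w⟫ := fun z w => by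
    simp only [seg_apply, om0_apply, h.eta_LJ, eta_eq z w, inner_sub_left, real_inner_smul_left]
    ring
  refine ⟨fun z _ => ?_, fun z _ hz => ?_⟩
  · have s1 : ∀ u, ⟪J u, u⟫ = 0 := fun u => by
      have := h.skew u u
      rw [real_inner_comm (J u) u] at this
      linarith
    rw [ev]
    simp only [inner_sub_left, real_inner_smul_left, s1, h.Pi_symm (re1 z)]
    rw [real_inner_comm (re1 z) (im1 z), real_inner_comm (re1 z) (Pi J (im1 z))]
    ring
  · set a := re1 z with ha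
    set b := im1 z with hb
    set A := t • J a - (b - t • Pi J b) with hA
    set B := a - t • Pi J a - (2 * t) • J b with hB
    have h0 := hz (WithLp.toLp 2 (A, B)) trivial
    rw [ev] at h0
    change ⟪A, A⟫ + ⟪B, B⟫ = 0 at h0
    have hA0 : A = 0 := inner_self_eq_zero.1
      (le_antisymm (by linarith [real_inner_self_nonneg (x := B)]) real_inner_self_nonneg)
    have hB0 : B = 0 := inner_self_eq_zero.1
      (le_antisymm (by linarith [real_inner_self_nonneg (x := A)]) real_inner_self_nonneg)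
    have p1 := congrArg (Pi J) hA0
    have p2 := congrArg (Pi J) hB0
    have j1 := congrArg J hA0
    have j2 := congrArg J hB0
    simp only [hA, hB, map_sub, map_smul, h.Pi_J, h.Pi_Pi, h.J_Pi, IsJ.J_J, map_zero] at p1 p2 j1 j2
    have e1 : b = Pi J b := by linear_combination (norm := module) p1 - hA0
    have e2 : a = Pi J a := by linear_combination (norm := module) hB0 - p2
    have hc : (1 - t) ^ 2 + 2 * t ^ 2 ≠ 0 := by nlinarith [sq_nonneg (1 - t), sq_nonneg t]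
    rw [← e2] at p2 j1
    rw [← e1] at p1 j2
    have a0 : ((1 - t) ^ 2 + 2 * t ^ 2) • a = 0 := by
      linear_combination (norm := module) (1 - t) • p2 - (2 * t) • j1
    have b0 : ((1 - t) ^ 2 + 2 * t ^ 2) • b = 0 := by
      linear_combination (norm := module) t • j2 - (1 - t) • p1
    exact cx_ext ((smul_eq_zero.1 a0).resolve_left hc) ((smul_eq_zero.1 b0).resolve_left hc)

section smooth

variable {Z X : Type} [NormedAddCommGroup Z] [NormedSpace ℝ Z] [NormedAddCommGroup X]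
  [NormedSpace ℝ X]

theorem pr_eq (A B : Z →L[ℝ] U) :
    pr A B = pr (ContinuousLinearMap.id ℝ U) 0 ∘L A + pr 0 (ContinuousLinearMap.id ℝ U) ∘L B :=
  ContinuousLinearMap.ext fun _ => cx_ext (by simp) (by simp)

theorem contDiff_pr {A B : X → Z →L[ℝ] U} (hA : ContDiff ℝ ∞ A) (hB : ContDiff ℝ ∞ B) :
    ContDiff ℝ ∞ fun x => pr (A x) (B x) := by
  simp only [fun x => pr_eq (A x) (B x)]
  exact (contDiff_const.clm_comp hA).add (contDiff_const.clm_comp hB)

theorem contDiff_Pi : ContDiff ℝ ∞ (Pi : (U →L[ℝ] U) → U →L[ℝ] U) :=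
  (contDiff_id.clm_comp contDiff_id).neg

theorem contDiff_QJ : ContDiff ℝ ∞ (QJ : (U →L[ℝ] U) → Cx U →L[ℝ] Cx U) :=
  contDiff_pr (((contDiff_Pi.clm_comp contDiff_const).add
      (contDiff_id.clm_comp contDiff_const)).const_smul _)
    (((contDiff_Pi.clm_comp contDiff_const).sub (contDiff_id.clm_comp contDiff_const)).const_smul _)

theorem contDiff_PJ : ContDiff ℝ ∞ (PJ : (U →L[ℝ] U) → Cx U →L[ℝ] Cx U) :=
  contDiff_const.sub contDiff_QJ

theorem contDiff_LJ : ContDiff ℝ ∞ (LJ : (U →L[ℝ] U) → Cx U →L[ℝ] Cx U) :=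
  contDiff_pr (((contDiff_const.sub contDiff_Pi).clm_comp contDiff_const).add
      (contDiff_Pi.clm_comp contDiff_const))
    (((contDiff_const.sub contDiff_Pi).clm_comp contDiff_const).add
      (contDiff_id.clm_comp contDiff_const))

theorem contDiff_SJ : ContDiff ℝ ∞ (SJ : (U →L[ℝ] U) → Cx U →L[ℝ] Cx U) :=
  contDiff_pr ((contDiff_const.sub contDiff_Pi).clm_comp contDiff_const)
    (((contDiff_const.sub contDiff_Pi).clm_comp contDiff_const).add
      (((contDiff_Pi.clm_comp contDiff_const).sub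
        (contDiff_id.clm_comp contDiff_const)).const_smul _))

end smooth

end Pool.Agent.Lib.MP_ccffa6_gt.EX
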