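import Pool.Agent.Lib.MP_ccffa6_gt.EX.FNB

/-! Block EX, formal part: from the analytic data to the normal bordism. -/

open Set Filter Topology
open scoped ContDiff RealInnerProductSpace

noncomputable section

namespace Pool.Agent.Lib.MP_ccffa6_gt.EX

variable {V : Type} [NormedAddCommGroup V] [InnerProductSpace ℝ V]
  {F : Type} [NormedAddCommGroup F] [NormedSpace ℝ F]

/-- The unit vector in the direction of the level function. -/
def nn : Cx (UU V) := WithLp.toLp 2 (umk (0, 1), 0)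

theorem re1_nn : re1 (nn : Cx (UU V)) = umk (0, 1) := rfl

theorem im1_nn : im1 (nn : Cx (UU V)) = 0 := rfl

theorem Th_nn (X Y : F →L[ℝ] V) (f a : F →L[ℝ] ℝ) (v : F) : ⟪Th X Y f a v, nn⟫ = f v := by
  simp only [cx_inner, re1_nn, im1_nn, re1_Th, umk_inner, inner_zero_right, mul_one, add_zero,
    zero_add]

theorem Th_II_nn (X Y : F →L[ℝ] V) (f a : F →L[ℝ] ℝ) (v : F) : ⟪Th X Y f a v, II nn⟫ = a v := by
  simp only [cx_inner, re1_nn, im1_nn, im1_Th, re1_II, im1_II, umk_inner, neg_zero,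
    inner_zero_right, mul_one, zero_add]

theorem nn_nn : ⟪(nn : Cx (UU V)), nn⟫ = 1 := by
  simp only [cx_inner, re1_nn, im1_nn, umk_inner, inner_zero_right, mul_one, add_zero, zero_add]

theorem nn_II_nn : ⟪(nn : Cx (UU V)), II nn⟫ = 0 := by
  simp only [cx_inner, im1_nn, re1_II, neg_zero, inner_zero_right, inner_zero_left, add_zero]

theorem II_nn_II_nn : ⟪II (nn : Cx (UU V)), II nn⟫ = 1 := by
  rw [II_skew, II_II, inner_neg_right, neg_neg, nn_nn]

theorem eta_Th (X Y : F →L[ℝ] V) (f a : F →L[ℝ] ℝ) (u v : F) :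
    eta (Th X Y f a u) (Th X Y f a v) = ⟪X u, Y v⟫ - ⟪Y u, X v⟫ + (f u * a v - a u * f v) := by
  simp only [eta_eq, re1_Th, im1_Th, umk_inner]; ring

theorem cont_Th (X Y : F →L[ℝ] V) (f : F →L[ℝ] ℝ) {α : Form1 F} (h : ContDiff ℝ ∞ α) :
    Continuous fun p => Th X Y f (α p) := by
  have e : ∀ a : F →L[ℝ] ℝ, Y.prod a = Y.prod 0 + ContinuousLinearMap.inr ℝ V ℝ ∘L a := fun a =>
    ContinuousLinearMap.ext fun _ => Prod.ext (add_zero _).symm (zero_add _).symm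
  refine (contDiff_pr contDiff_const (contDiff_const.clm_comp ?_)).continuous
  rw [show (fun p => Y.prod (α p)) = _ from funext fun p => e _]
  exact contDiff_const.add (contDiff_const.clm_comp h)

theorem app_incl {G K : Type} [NormedAddCommGroup G] [NormedSpace ℝ G] [NormedAddCommGroup K]
    [NormedSpace ℝ K] (L : F →L[ℝ] G) (ν : F) (w : (F × ℝ) × K) :
    L (incl ν K w).1 = L w.1.1 + w.1.2 • L ν :=
  (L.map_add _ _).trans (congrArg _ (L.map_smul _ _))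

/-- Projection onto the contact plane. -/
def pxi : Cx (UU V) →L[ℝ] Cx (UU V) :=
  1 - (innerSL ℝ nn).smulRight nn - (innerSL ℝ (II nn)).smulRight (II nn)

theorem pxi_apply (z : Cx (UU V)) : pxi z = z - ⟪z, nn⟫ • nn - ⟪z, II nn⟫ • II nn := by
  rw [real_inner_comm, real_inner_comm (II nn)]; rfl

theorem pxi_eq {z : Cx (UU V)} (h1 : ⟪z, nn⟫ = 0) (h2 : ⟪z, II nn⟫ = 0) : pxi z = z := by
  rw [pxi_apply, h1, h2, zero_smul, zero_smul, sub_zero, sub_zero]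

variable [FiniteDimensional ℝ V] [FiniteDimensional ℝ F]
  {n : ℕ} {M : Set V} {J : V → UU V →L[ℝ] UU V} {W : Set F} {f : F →L[ℝ] ℝ} {a b : ℝ} {ν : F}
  {X Y : F →L[ℝ] V} {α : Form1 F} {r : F → V} {ψ : V → F} {D : F → F →L[ℝ] Cx (UU V)}

theorem htpy_S (hJ : JData M J) (h : XData n M J W f a b ν X Y α r ψ D) {c : ℝ}
    (hc : c = a ∨ c = b) {D' S S' : F → Cx (UU V) →L[ℝ] Cx (UU V)}
    (cS : ContinuousOn S (Lev W f c)) (cS' : ContinuousOn S' (Lev W f c))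
    (hS : ∀ p ∈ Lev W f c, Adm (J (r p)) (Tan W p) (Th X Y f (α p)) (D' p) (S p))
    (hS' : ∀ p ∈ Lev W f c, Adm (J (r p)) (Tan W p) (Th X Y f (α p)) (D' p) (S' p)) :
    NDHtpy (Lev W f c) (fun x => pl (T1 (Lev W f c) x) (Cx (UU V)))
      (fun p => (osum (OmJ J (r p)) eta).bilinearComp
        ((Phi (J (r p)) (Th X Y f (α p)) (S p)).comp (incl ν _))
        ((Phi (J (r p)) (Th X Y f (α p)) (S p)).comp (incl ν _)))
      (fun p => (osum (OmJ J (r p)) eta).bilinearComp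
        ((Phi (J (r p)) (Th X Y f (α p)) (S' p)).comp (incl ν _))
        ((Phi (J (r p)) (Th X Y f (α p)) (S' p)).comp (incl ν _))) := by
  have hs := lev_sub h.slab hc
  have c2 : MapsTo (Prod.snd : ℝ × F → F) (Icc 0 1 ×ˢ Lev W f c) (Lev W f c) := fun _ hq => hq.2
  have cr : ContinuousOn (fun q : ℝ × F => r q.2) (Icc 0 1 ×ˢ Lev W f c) :=
    (h.cr.mono hs).comp continuousOn_snd c2
  have := NDField.comp_htpy (T := fun x => pl (T1 (Lev W f c) x) (Cx (UU V)))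
    (NDField.plus hJ.formal nd_eta) cr (fun q hq => h.mr (hs hq.2))
    (Φ := fun q => (Phi (J (r q.2)) (Th X Y f (α q.2)) ((1 - q.1) • S q.2 + q.1 • S' q.2)).comp
      (incl ν _))
    ((cont_Phi (hJ.sm.continuous.comp_continuousOn cr)
      ((cont_Th X Y f h.smα).comp continuous_snd).continuousOn
      (((continuousOn_const.sub continuousOn_fst).smul (cS.comp continuousOn_snd c2)).add
        (continuousOn_fst.smul (cS'.comp continuousOn_snd c2)))).clm_comp continuousOn_const)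
    fun q hq => (((hS _ hq.2).seg (hS' _ hq.2) q.1).bijOn fun u =>
      (hJ.rng _ (h.mr (hs hq.2)) u).trans mem_T1.symm).comp (h.slab.incl_bijOn hc hq.2)
  have e0 : ∀ A B : Cx (UU V) →L[ℝ] Cx (UU V), (1 - (0 : ℝ)) • A + (0 : ℝ) • B = A :=
    fun _ _ => by module
  have e1 : ∀ A B : Cx (UU V) →L[ℝ] Cx (UU V), (1 - (1 : ℝ)) • A + (1 : ℝ) • B = B :=
    fun _ _ => by module
  simpa only [e0, e1] using this

theorem xd_D (h : XData n M J W f a b ν X Y α r ψ D) :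
    ∃ D' : F → Cx (UU V) →L[ℝ] Cx (UU V), ContinuousOn D' (W ∩ f ⁻¹' Icc a b) ∧
      ∀ p ∈ W ∩ f ⁻¹' Icc a b, ∀ v, D' p (Th X Y f (α p) v) = D p v := by
  obtain ⟨Ψ, cΨ, hΨ⟩ := exists_inverse_field (S := W ∩ f ⁻¹' Icc a b) (T := fun _ => ⊤)
    (T' := fun _ => ⊤) (P := fun _ => ContinuousLinearMap.id ℝ F) continuousOn_const
    (fun _ _ => ⟨fun _ => trivial, fun _ _ => rfl⟩)
    (P' := fun _ => ContinuousLinearMap.id ℝ (Cx (UU V))) continuousOn_const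
    (fun _ _ => ⟨fun _ => trivial, fun _ _ => rfl⟩) (cont_Th X Y f h.smα).continuousOn
    fun p _ => bijOn_univ.2 (h.bij p)
  exact ⟨fun p => D p ∘L Ψ p, h.cD.clm_comp cΨ, fun p hp v =>
    congrArg (D p) ((hΨ p hp).2.1 v trivial)⟩

omit [FiniteDimensional ℝ F] in
theorem xd_p2 (hJ : JData M J) (h : XData n M J W f a b ν X Y α r ψ D)
    {D' : F → Cx (UU V) →L[ℝ] Cx (UU V)} (cD' : ContinuousOn D' (W ∩ f ⁻¹' Icc a b))
    (hD : ∀ p ∈ W ∩ f ⁻¹' Icc a b, ∀ v, D' p (Th X Y f (α p) v) = D p v) :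
    ∃ S1 : F → Cx (UU V) →L[ℝ] Cx (UU V), ContinuousOn S1 (Lev W f a) ∧
      ∀ p ∈ Lev W f a, P2 II (PJ (J (r p))) (D' p) (S1 p) nn := by
  have sa := lev_sub h.slab (Or.inl rfl)
  have pd : ∀ p ∈ Lev W f a, ∀ z, PJ (J (r p)) (D' p z) = D' p z := fun p hp z => by
    obtain ⟨v, rfl⟩ := (h.bij p).2 z
    rw [hD p (sa hp), h.rng p (sa hp)]
  obtain ⟨S1, cS1, hS1⟩ := exists_rinv (A := Lev W f a) (D := fun p => D' p ∘L pxi)
    ((cD'.mono sa).clm_comp continuousOn_const)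
    (cont_PJ (hJ.sm.continuous.comp_continuousOn (h.cr.mono sa)))
    (fun p hp => (hJ.isJ _ (h.mr (sa hp))).PJ_PJ) (fun p hp z => pd p hp _) fun p hp k => by
      obtain ⟨v, h1, h2, hv⟩ := h.bot1 p hp k
      refine ⟨Th X Y f (α p) v, ?_⟩
      rw [ContinuousLinearMap.comp_apply, pxi_eq ((Th_nn ..).trans h1) ((Th_II_nn ..).trans h2),
        hD p (sa hp), hv]
      rfl
  refine ⟨S1, cS1, fun p hp => ?_⟩
  have s1 : ∀ k, ⟪S1 p k, nn⟫ = 0 := fun k => (hS1 p hp).2 k _ (by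
    rw [ContinuousLinearMap.comp_apply, pxi_apply, nn_nn, nn_II_nn, one_smul, zero_smul, sub_self,
      sub_zero, map_zero])
  have s2 : ∀ k, ⟪S1 p k, II nn⟫ = 0 := fun k => (hS1 p hp).2 k _ (by
    rw [ContinuousLinearMap.comp_apply, pxi_apply, real_inner_comm, nn_II_nn, II_nn_II_nn,
      one_smul, zero_smul, sub_zero, sub_self, map_zero])
  have e : Th X Y f (α p) ν = nn := cx_ext (by rw [re1_Th, h.Xν, h.fν, re1_nn])
    (by rw [im1_Th, h.Yν, h.αν, im1_nn]; exact map_zero _)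
  refine ⟨II_skew, II_II, PJ_II _, pd p hp, nn_nn, ?_, fun k => ?_, s1, s2,
    fun k z h1 h2 h3 => (hS1 p hp).2 k z ?_, fun z h1 h2 => ?_⟩
  · rw [← e, hD p (sa hp), ← h.ker p (sa hp)]
    exact (h.slab.tν p ⟨hp.1, Or.inl hp.2⟩).1
  · exact (congrArg (D' p) (pxi_eq (s1 k) (s2 k)).symm).trans ((hS1 p hp).1 k)
  · rw [ContinuousLinearMap.comp_apply, pxi_eq h1 h2, h3]
  · obtain ⟨v, rfl⟩ := (h.bij p).2 z
    obtain ⟨v', hv'⟩ := (h.bij p).2 (II (Th X Y f (α p) v))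
    obtain ⟨y, y1, y2, y3, y4⟩ :=
      h.bot2 p hp v v' ((Th_nn ..).symm.trans h1) ((Th_II_nn ..).symm.trans h2) hv'
    exact ⟨_, (Th_nn ..).trans y1, (Th_II_nn ..).trans y2,
      by rw [← hv', hD p (sa hp), hD p (sa hp), hD p (sa hp), y3], y4⟩

theorem xd_bot (hJ : JData M J) (h : XData n M J W f a b ν X Y α r ψ D)
    {D' S : F → Cx (UU V) →L[ℝ] Cx (UU V)} (cS : ContinuousOn S (Lev W f a))
    (ad : ∀ p ∈ Lev W f a, Adm (J (r p)) (Tan W p) (Th X Y f (α p)) (D' p) (S p))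
    (p2 : ∀ p ∈ Lev W f a, P2 II (PJ (J (r p))) (D' p) (S p) nn) :
    CMan n (Lev W f a) α ∧ NDHtpy (Lev W f a) (fun x => pl (T1 (Lev W f a) x) (Cx (UU V)))
      (fun p => osum (symz α p) eta)
      (fun p => (Xi (om0 (J (r p))) (J (r p)) (Th X Y f (α p)) (S p)).bilinearComp
        (incl ν (Cx (UU V))) (incl ν (Cx (UU V)))) := by
  have sa := lev_sub h.slab (Or.inl rfl)
  have cJ : ContinuousOn (fun p => J (r p)) (Lev W f a) :=
    hJ.sm.continuous.comp_continuousOn (h.cr.mono sa)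
  have ga : ∀ p ∈ Lev W f a, BijOn (incl ν (Cx (UU V))) (pl (T1 (Lev W f a) p) (Cx (UU V)))
      (pl (Tan W p) (Cx (UU V))) := fun p hp => h.slab.incl_bijOn (Or.inl rfl) hp
  have e0 : ∀ p ∈ Lev W f a, ∀ u ∈ pl (T1 (Lev W f a) p) (Cx (UU V)),
      ∀ v ∈ pl (T1 (Lev W f a) p) (Cx (UU V)),
        osum ((eta : Bil (Cx (UU V))).bilinearComp (Th X Y f (α p)) (Th X Y f (α p))) eta
          (incl ν (Cx (UU V)) u) (incl ν (Cx (UU V)) v) = osum (symz α p) eta u v :=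
    fun p hp u hu v hv => by
    have h1 := ((h.slab.mem_tan (Or.inl rfl) hp _).1 (mem_T1.1 (mem_pl.1 hu))).2
    have h2 := ((h.slab.mem_tan (Or.inl rfl) hp _).1 (mem_T1.1 (mem_pl.1 hv))).2
    rw [f.fderiv] at h1 h2
    refine (osum_apply _ _ _ _).trans (.trans (congrArg (· + eta u.2 v.2) ?_)
      (osum_apply _ _ _ _).symm)
    rw [symz_apply, h.dα]
    refine (eta_Th ..).trans ?_
    simp only [app_incl X, app_incl Y, app_incl f, app_incl (α p), h.Xν, h.Yν, h.fν, h.αν, h1, h2,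
      smul_zero, add_zero, zero_add, smul_eq_mul, mul_one, mul_zero]
  have seg : ∀ t ∈ Icc (0 : ℝ) 1, ∀ p ∈ Lev W f a, ND (pl (T1 (Lev W f a) p) (Cx (UU V)))
      ((1 - t) • osum (symz α p) eta + t • (Xi eta (J (r p)) (Th X Y f (α p)) (S p)).bilinearComp
        (incl ν (Cx (UU V))) (incl ν (Cx (UU V)))) := fun t ht p hp =>
    (((ad p hp).nd_seg (p2 p hp) ht).comp (ga p hp)).congr fun u hu v hv => by
      simp only [seg_apply, ContinuousLinearMap.bilinearComp_apply, e0 p hp u hu v hv]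
  have hC : CMan n (Lev W f a) α := ⟨h.slab.closed (Or.inl rfl), h.smα, fun p hp =>
    (ND.of_plus (η := (eta : Bil (Cx (UU V)))) ((seg 0 ⟨le_rfl, zero_le_one⟩ p hp).congr
      fun u _ v _ => by rw [seg_apply, sub_zero, one_mul, zero_mul, add_zero])).1⟩
  have cX : ∀ {w : F → Bil (Cx (UU V))}, ContinuousOn w (Lev W f a) → ContinuousOn (fun p =>
      (Xi (w p) (J (r p)) (Th X Y f (α p)) (S p)).bilinearComp (incl ν (Cx (UU V)))
        (incl ν (Cx (UU V)))) (Lev W f a) := fun hw =>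
    cont_bil (cont_Xi hw cJ (cont_Th X Y f h.smα).continuousOn cS) continuousOn_const
  refine ⟨hC, (NDHtpy.segment (NDField.plus hC.formal nd_eta).cont
    (cX (w := fun _ => eta) continuousOn_const) seg).trans (NDHtpy.segment
      (cX (w := fun _ => eta) continuousOn_const) (cX (cont_om0 cJ)) fun t _ p hp =>
        (((ad p hp).nd_Xi ((ad p hp).isJ.nd_seg t)).comp (ga p hp)).congr fun u _ v _ => ?_)⟩
  simp only [seg_apply, ContinuousLinearMap.bilinearComp_apply, Xi_apply]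
  ring

theorem xd_top (hJ : JData M J) (h : XData n M J W f a b ν X Y α r ψ D) {p : F}
    (hp : p ∈ Lev W f b) {u : (F × ℝ) × Cx (UU V)} (hu : u ∈ pl (T1 (Lev W f b) p) (Cx (UU V))) :
    Phi (J (r p)) (Th X Y f (α p)) (SJ (J (r p))) (incl ν (Cx (UU V)) u) =
      ((X u.1.1, u.1.2), u.2) := by
  have hp' := lev_sub h.slab (Or.inr rfl) hp
  have iJ := hJ.isJ _ (h.mr hp')
  have h1 := ((h.slab.mem_tan (Or.inr rfl) hp _).1 (mem_T1.1 (mem_pl.1 hu))).2
  have h2 : (incl ν (Cx (UU V)) u).1 ∈ Tan W p :=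
    mem_pl.1 ((h.slab.incl_bijOn (F := Cx (UU V)) (Or.inr rfl) hp).1 hu)
  rw [f.fderiv] at h1
  rw [h.ker p hp', h.top p hp] at h2
  rw [Phi_apply, map_add re1, map_add (Pi _), map_add (LJ _), h2, iJ.Pi_re1_SJ,
    (iJ.LJ_eq_zero.1 h2).1, iJ.LJ_SJ, add_zero, zero_add, PJ_add_QJ, re1_Th, umk.symm_apply_apply]
  simp only [app_incl X, app_incl f, h.Xν, h.fν, h1, smul_zero, add_zero, zero_add,
    smul_eq_mul, mul_one]
  rfl

theorem xdata_main (hJ : JData M J) (h : XData n M J W f a b ν X Y α r ψ D) :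
    CMan n (Lev W f a) α ∧ NBord n W f a b (symz α) M (OmJ J) := by
  obtain ⟨D', cD', hD⟩ := xd_D h
  obtain ⟨S1, cS1, p2⟩ := xd_p2 hJ h cD' hD
  have sa := lev_sub h.slab (Or.inl rfl)
  have sb := lev_sub h.slab (Or.inr rfl)
  have cJ : ContinuousOn (fun p => J (r p)) (W ∩ f ⁻¹' Icc a b) :=
    hJ.sm.continuous.comp_continuousOn h.cr
  have iJ : ∀ p ∈ W ∩ f ⁻¹' Icc a b, IsJ (J (r p)) := fun p hp => hJ.isJ _ (h.mr hp)
  have pd : ∀ p ∈ W ∩ f ⁻¹' Icc a b, ∀ z, PJ (J (r p)) (D' p z) = D' p z := fun p hp z => by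
    obtain ⟨v, rfl⟩ := (h.bij p).2 z
    rw [hD p hp, h.rng p hp]
  have adm : ∀ p ∈ W ∩ f ⁻¹' Icc a b, ∀ S : Cx (UU V) →L[ℝ] Cx (UU V),
      (∀ k, D' p (S k) = PJ (J (r p)) k) → Adm (J (r p)) (Tan W p) (Th X Y f (α p)) (D' p) S :=
    fun p hp S hS => ⟨iJ p hp, h.bij p, fun v => by rw [hD p hp, h.ker p hp], pd p hp, hS⟩
  obtain ⟨S, cS, hS⟩ := exists_rinv cD' (cont_PJ cJ) (fun p hp => (iJ p hp).PJ_PJ) pd
    fun p hp k => by
      obtain ⟨v, hv⟩ := h.onto p hp k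
      exact ⟨_, (hD p hp v).trans hv⟩
  have ad1 := fun p (hp : p ∈ Lev W f a) => adm p (sa hp) _ (p2 p hp).DS
  obtain ⟨hC, H1⟩ := xd_bot hJ h cS1 ad1 p2
  have H3 := htpy_S hJ h (Or.inl rfl) cS1 (cS.mono sa) ad1 fun p hp =>
    adm p (sa hp) _ (hS p (sa hp)).1
  have hL : ∀ p ∈ Lev W f b, ∀ z, D' p z = LJ (J (r p)) z := fun p hp z => by
    obtain ⟨v, rfl⟩ := (h.bij p).2 z
    rw [hD p (sb hp), h.top p hp]
  have H4 := htpy_S hJ h (Or.inr rfl) (S := fun p => SJ (J (r p))) (cont_SJ (cJ.mono sb))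
    (cS.mono sb) (fun p hp => adm p (sb hp) _ fun k => by rw [hL p hp, (iJ p (sb hp)).LJ_SJ])
    fun p hp => adm p (sb hp) _ (hS p (sb hp)).1
  refine ⟨hC, fun _ => ν, Cx (UU V), _, _, inferInstance, eta, X, ψ, r,
    fun p => Phi (J (r p)) (Th X Y f (α p)) (S p), h.slab, nd_eta, hC.formal, hJ.formal, h.diff,
    h.cr, h.mr, h.er, cont_Phi cJ (cont_Th X Y f h.smα).continuousOn cS,
    fun p hp => (adm p hp _ (hS p hp).1).bijOn fun u => (hJ.rng _ (h.mr hp) u).trans mem_T1.symm,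
    H1.trans (H3.congr (fun p hp u _ v _ => ?_) fun _ _ _ _ _ _ => rfl),
    H4.congr (fun p hp u hu v hv => ?_) fun _ _ _ _ _ _ => rfl⟩
  · simp only [ContinuousLinearMap.bilinearComp_apply, ContinuousLinearMap.comp_apply,
      Phi_pull (iJ p (sa hp))]
  · simp only [ContinuousLinearMap.bilinearComp_apply, ContinuousLinearMap.comp_apply,
      xd_top hJ h hp hu, xd_top hJ h hp hv]
    rw [osum_apply, osum_apply, pb2_apply, X.fderiv, h.er hp]

end Pool.Agent.Lib.MP_ccffa6_gt.EX
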