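import Pool.Agent.Lib.MP_ccffa6_gt.EX.FPhi

/-! Block EX, formal part: changing the target of a normal bordism. -/

open Set Filter Topology
open scoped ContDiff

noncomputable section

namespace Pool.Agent.Lib.MP_ccffa6_gt.EX

variable {E : Type} [NormedAddCommGroup E] [NormedSpace ℝ E] [FiniteDimensional ℝ E]
  {E' : Type} [NormedAddCommGroup E'] [NormedSpace ℝ E'] [FiniteDimensional ℝ E']
  {E'' : Type} [NormedAddCommGroup E''] [NormedSpace ℝ E''] [FiniteDimensional ℝ E'']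

omit [FiniteDimensional ℝ E] in
theorem lev_sub {d : ℕ} {W : Set E} {f : E → ℝ} {a b : ℝ} {ν : E → E} (h : Slab d W f a b ν)
    {c : ℝ} (hc : c = a ∨ c = b) : Lev W f c ⊆ W ∩ f ⁻¹' Icc a b := fun x hx =>
  ⟨hx.1, by
    have : f x = c := hx.2
    rcases hc with rfl | rfl
    exacts [⟨this.ge, this.le.trans h.le.le⟩, ⟨h.le.le.trans this.ge, this.le⟩]⟩

omit [FiniteDimensional ℝ E] in
theorem cont_incl {d : ℕ} {W : Set E} {f : E → ℝ} {a b : ℝ} {ν : E → E} (h : Slab d W f a b ν)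
    {c : ℝ} (hc : c = a ∨ c = b) (K : Type) [NormedAddCommGroup K] [NormedSpace ℝ K] :
    ContinuousOn (fun x => incl (ν x) K) (Lev W f c) := by
  have h1 : ContinuousOn ν (Lev W f c) := h.cν.mono fun x hx => ⟨hx.1, by
    have : f x = c := hx.2
    rcases hc with rfl | rfl
    exacts [Or.inl this, Or.inr this]⟩
  have e : ∀ y : E, incl y K = ContinuousLinearMap.inl ℝ E K ∘L
      (ContinuousLinearMap.fst ℝ E ℝ + ContinuousLinearMap.smulRightL ℝ (E × ℝ) E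
        (ContinuousLinearMap.snd ℝ E ℝ) y) ∘L ContinuousLinearMap.fst ℝ (E × ℝ) K +
      ContinuousLinearMap.inr ℝ E K ∘L ContinuousLinearMap.snd ℝ (E × ℝ) K := fun y =>
    ContinuousLinearMap.ext fun _ => Prod.ext (add_zero _).symm (zero_add _).symm
  simp only [e]
  exact (continuousOn_const.clm_comp ((continuousOn_const.add
    (continuousOn_const.clm_apply h1)).clm_comp continuousOn_const)).add continuousOn_const

theorem nbord_htpy {n : ℕ} {W : Set E} {f : E → ℝ} {a b : ℝ} {Ωa : E → Bil (E × ℝ)} {M : Set E'}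
    {Ω Ω' : E' → Bil (E' × ℝ)} (h : NBord n W f a b Ωa M Ω) (hh : Htpy M Ω Ω') (hf : Formal M Ω') :
    NBord n W f a b Ωa M Ω' := by
  obtain ⟨ν, K, _, _, _, η, φ, ψ, r, Φ, hs, hη, ha, -, hd, cr, mr, er, cΦ, bΦ, h1, h2⟩ := h
  have key : ∀ c, c = a ∨ c = b → NDHtpy (Lev W f c) (fun x => pl (T1 (Lev W f c) x) K)
      (fun x => (osum (Ω (r x)) η).bilinearComp ((Φ x).comp (incl (ν x) K))
        ((Φ x).comp (incl (ν x) K)))
      (fun x => (osum (Ω' (r x)) η).bilinearComp ((Φ x).comp (incl (ν x) K))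
        ((Φ x).comp (incl (ν x) K))) := fun c hc =>
    (NDHtpy.plus hh hη).comp (cr.mono (lev_sub hs hc)) (mr.mono_left (lev_sub hs hc))
      ((cΦ.mono (lev_sub hs hc)).clm_comp (cont_incl hs hc K))
      fun x hx => (bΦ x (lev_sub hs hc hx)).comp (hs.incl_bijOn hc hx)
  exact ⟨ν, K, _, _, inferInstance, η, φ, ψ, r, Φ, hs, hη, ha, hf, hd, cr, mr, er, cΦ, bΦ,
    h1.trans (key a (Or.inl rfl)),
    ((NDHtpy.plus (Htpy.diff hd hh) hη).symm.trans h2).trans (key b (Or.inr rfl))⟩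

/-- The differential, extended by the identity. -/
def ext2 (A : E' →L[ℝ] E'') (K : Type) [NormedAddCommGroup K] [NormedSpace ℝ K] :
    (E' × ℝ) × K →L[ℝ] (E'' × ℝ) × K :=
  (A.prodMap (ContinuousLinearMap.id ℝ ℝ)).prodMap (ContinuousLinearMap.id ℝ K)

theorem nbord_diff {n : ℕ} {W : Set E} {f : E → ℝ} {a b : ℝ} {Ωa : E → Bil (E × ℝ)} {M : Set E'}
    {M' : Set E''} {g : E' → E''} {g' : E'' → E'} (hg : Diff M M' g g')
    {Ω : E'' → Bil (E'' × ℝ)} (hf : Formal M' Ω) (h : NBord n W f a b Ωa M (pb2 g Ω)) :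
    NBord n W f a b Ωa M' Ω := by
  obtain ⟨ν, K, _, _, _, η, φ, ψ, r, Φ, hs, hη, ha, -, hd, cr, mr, er, cΦ, bΦ, h1, h2⟩ := h
  have e : ∀ A : E' →L[ℝ] E'', ext2 A K = ContinuousLinearMap.inl ℝ (E'' × ℝ) K ∘L
      ContinuousLinearMap.inl ℝ E'' ℝ ∘L A ∘L ContinuousLinearMap.fst ℝ E' ℝ ∘L
        ContinuousLinearMap.fst ℝ (E' × ℝ) K + ext2 0 K := fun A =>
    ContinuousLinearMap.ext fun _ =>
      Prod.ext (Prod.ext (add_zero _).symm (zero_add _).symm) (zero_add _).symm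
  have c1 : ContinuousOn (fun p => fderiv ℝ g (r p)) (W ∩ f ⁻¹' Icc a b) :=
    (hg.smφ.continuous_fderiv (by simp)).comp_continuousOn cr
  have c2 : ContinuousOn (fun p => ext2 (fderiv ℝ g (r p)) K) (W ∩ f ⁻¹' Icc a b) := by
    rw [show (fun p => ext2 (fderiv ℝ g (r p)) K) = _ from funext fun p => e _]
    exact (continuousOn_const.clm_comp (continuousOn_const.clm_comp
      (c1.clm_comp continuousOn_const))).add continuousOn_const
  have b1 : ∀ y ∈ M, BijOn (ext2 (fderiv ℝ g y) K) (pl (T1 M y) K) (pl (T1 M' (g y)) K) :=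
    fun y hy => by
      have := hg.tan_bijOn hy
      refine ⟨fun u hu => mem_pl.2 (mem_T1.2 (this.1 (mem_T1.1 (mem_pl.1 hu)))),
        fun u hu v hv he => ?_, fun v hv => ?_⟩
      · exact Prod.ext (Prod.ext (this.2.1 (mem_T1.1 (mem_pl.1 hu)) (mem_T1.1 (mem_pl.1 hv))
          (congrArg (·.1.1) he)) (congrArg (·.1.2) he)) (congrArg (·.2) he)
      · obtain ⟨u, hu, he⟩ := this.2.2 (mem_T1.1 (mem_pl.1 hv))
        exact ⟨((u, v.1.2), v.2), mem_pl.2 (mem_T1.2 hu), Prod.ext (Prod.ext he rfl) rfl⟩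
  refine ⟨ν, K, _, _, inferInstance, η, g ∘ φ, ψ ∘ g', g ∘ r,
    fun p => ext2 (fderiv ℝ g (r p)) K ∘L Φ p, hs, hη, ha, hf, hd.trans hg, hg.smφ.continuous.comp_continuousOn cr, hg.mapφ.comp mr,
    fun x hx => congrArg g (er hx), c2.clm_comp cΦ, fun p hp => (b1 _ (mr hp)).comp (bΦ p hp),
    h1.congr (fun _ _ _ _ _ _ => rfl) (fun _ _ _ _ _ _ => rfl),
    h2.congr (fun x _ u _ v _ => ?_) (fun _ _ _ _ _ _ => rfl)⟩
  simp only [osum_apply, pb2_apply]
  rw [fderiv_comp x (hg.smφ.differentiable (by simp) _) (hd.smφ.differentiable (by simp) _)]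
  rfl

end Pool.Agent.Lib.MP_ccffa6_gt.EX
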