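import Pool.Agent.Lib.MP_ccffa6_gt.EX.FLin

/-! Block EX, formal part: continuous right inverses, and the taming estimate on the lower level. -/

open Set Filter Topology
open scoped ContDiff RealInnerProductSpace

noncomputable section

namespace Pool.Agent.Lib.MP_ccffa6_gt.EX

theorem isUnit_of_ker {H : Type} [NormedAddCommGroup H] [NormedSpace ℝ H] [FiniteDimensional ℝ H]
    {T : H →L[ℝ] H} (h : ∀ k, T k = 0 → k = 0) : IsUnit T := by
  have := FiniteDimensional.complete ℝ H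
  have hi : Function.Injective T := (injective_iff_map_eq_zero _).2 h
  exact ContinuousLinearMap.isUnit_iff_bijective.2
    ⟨hi, (LinearMap.injective_iff_surjective (f := (T : H →ₗ[ℝ] H))).1 hi⟩

/-- Continuous right inverse with image orthogonal to the kernel. -/
theorem exists_rinv {X G H : Type} [TopologicalSpace X] [NormedAddCommGroup G]
    [InnerProductSpace ℝ G] [FiniteDimensional ℝ G] [NormedAddCommGroup H] [InnerProductSpace ℝ H]
    [FiniteDimensional ℝ H] {A : Set X} {D : X → G →L[ℝ] H} {P : X → H →L[ℝ] H}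
    (cD : ContinuousOn D A) (cP : ContinuousOn P A) (hPP : ∀ x ∈ A, ∀ k, P x (P x k) = P x k)
    (hPD : ∀ x ∈ A, ∀ v, P x (D x v) = D x v) (ho : ∀ x ∈ A, ∀ k, ∃ v, D x v = P x k) :
    ∃ S : X → H →L[ℝ] G, ContinuousOn S A ∧ ∀ x ∈ A, (∀ k, D x (S x k) = P x k) ∧
      ∀ k v, D x v = 0 → ⟪S x k, v⟫ = 0 := by
  have := FiniteDimensional.complete ℝ G
  have := FiniteDimensional.complete ℝ H
  let T : X → H →L[ℝ] H := fun x => D x ∘L ContinuousLinearMap.adjoint (D x) + (1 - P x)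
  have cA : ContinuousOn (fun x => ContinuousLinearMap.adjoint (D x)) A :=
    (ContinuousLinearMap.adjoint (𝕜 := ℝ) (E := G) (F := H)).continuous.comp_continuousOn cD
  have cT : ContinuousOn T A := (cD.clm_comp cA).add (continuousOn_const.sub cP)
  have hT : ∀ x k, T x k = D x (ContinuousLinearMap.adjoint (D x) k) + (k - P x k) := fun _ _ => rfl
  have hQ : ∀ x ∈ A, ∀ k, T x k - P x (T x k) = k - P x k := fun x hx k => by
    rw [hT, map_add, map_sub, hPD x hx, hPP x hx]; abel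
  have hu : ∀ x ∈ A, IsUnit (T x) := fun x hx => by
    refine isUnit_of_ker fun k hk => ?_
    have h1 : k - P x k = 0 := by rw [← hQ x hx, hk, map_zero, sub_zero]
    have h2 : ContinuousLinearMap.adjoint (D x) k = 0 := by
      rw [hT, h1, add_zero] at hk
      rw [← inner_self_eq_zero (𝕜 := ℝ), ContinuousLinearMap.adjoint_inner_right, hk,
        inner_zero_left]
    obtain ⟨v, hv⟩ := ho x hx k
    rw [← sub_eq_zero.1 h1] at hv
    rw [← inner_self_eq_zero (𝕜 := ℝ)]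
    nth_rewrite 1 [← hv]
    rw [← ContinuousLinearMap.adjoint_inner_right, h2, inner_zero_right]
  refine ⟨fun x => ContinuousLinearMap.adjoint (D x) ∘L Ring.inverse (T x), cA.clm_comp fun x hx => ?_,
    fun x hx => ⟨fun k => ?_, fun k v hv => ?_⟩⟩
  · obtain ⟨u, hu⟩ := hu x hx
    have := NormedRing.inverse_continuousAt u
    rw [hu] at this
    exact this.comp_continuousWithinAt (cT x hx)
  · have e : T x (Ring.inverse (T x) k) = k :=
      congrArg (fun B : H →L[ℝ] H => B k) (Ring.mul_inverse_cancel _ (hu x hx))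
    have e2 := hQ x hx (Ring.inverse (T x) k)
    rw [e] at e2
    rw [hT, ← e2] at e
    exact (eq_sub_of_add_eq e).trans (sub_sub_cancel _ _)
  · rw [ContinuousLinearMap.comp_apply, ContinuousLinearMap.adjoint_inner_left, hv,
      inner_zero_right]

variable {C : Type} [NormedAddCommGroup C] [InnerProductSpace ℝ C]

/-- Pointwise data on the lower level. -/
structure P2 (I P D S : C →L[ℝ] C) (n0 : C) : Prop where
  skew : ∀ u v, ⟪I u, v⟫ = -⟪u, I v⟫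
  sq : ∀ u, I (I u) = -u
  PI : ∀ u, P (I u) = I (P u)
  PD : ∀ u, P (D u) = D u
  unit : ⟪n0, n0⟫ = 1
  Dn : D n0 = 0
  DS : ∀ k, D (S k) = P k
  S1 : ∀ k, ⟪S k, n0⟫ = 0
  S2 : ∀ k, ⟪S k, I n0⟫ = 0
  S3 : ∀ k z, ⟪z, n0⟫ = 0 → ⟪z, I n0⟫ = 0 → D z = 0 → ⟪S k, z⟫ = 0
  cr : ∀ z, ⟪z, n0⟫ = 0 → ⟪z, I n0⟫ = 0 →
    ∃ y, ⟪y, n0⟫ = 0 ∧ ⟪y, I n0⟫ = 0 ∧ D y = D (I z) - I (D z) ∧ 4 * ‖y‖ ≤ ‖z‖

theorem num_fin {t a b p q x1 x2 x3 x4 : ℝ} (ht : t ∈ Icc (0 : ℝ) 1) (t1 : 3 / 4 * a ^ 2 ≤ x1)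
    (t2 : -(5 / 16 * (a * b)) ≤ x2) (t3 : -(1 / 4 * (a * b)) ≤ x3) (t4 : 7 / 16 * b ^ 2 ≤ x4)
    (hm : (1 - t) * p ^ 2 + x1 + t * (x2 + x3 + x4) + q ^ 2 = 0) :
    a = 0 ∧ q = 0 ∧ (p = 0 ∨ b = 0) := by
  have t5 : 0 ≤ t * (x2 + x3 + x4 + 9 / 32 * a ^ 2 - 5 / 32 * b ^ 2) :=
    mul_nonneg ht.1 (by linarith [sq_nonneg (a - b)])
  have s1 := mul_nonneg (sub_nonneg.2 ht.2) (sq_nonneg p)
  have s2 := mul_nonneg ht.1 (sq_nonneg b)
  have s3 := mul_nonneg (sub_nonneg.2 ht.2) (sq_nonneg a)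
  have s4 := sq_nonneg q
  have s5 := sq_nonneg a
  refine ⟨pow_eq_zero_iff two_ne_zero |>.1 (by linarith), pow_eq_zero_iff two_ne_zero |>.1
    (by linarith), ?_⟩
  rcases eq_or_ne t 1 with rfl | h1
  · exact Or.inr (pow_eq_zero_iff two_ne_zero |>.1 (by linarith))
  · have : (1 - t) * p ^ 2 = 0 := by linarith
    exact Or.inl (pow_eq_zero_iff two_ne_zero |>.1
      ((mul_eq_zero.1 this).resolve_left (sub_ne_zero.2 h1.symm)))

theorem P2.nd {I P D S : C →L[ℝ] C} {n0 : C} (h : P2 I P D S n0) {t : ℝ} (ht : t ∈ Icc (0 : ℝ) 1)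
    {z k : C} (hz : D z = 0)
    (hr : ∀ z' k', D z' = 0 → (1 - t) * (⟪I z, z'⟫ + ⟪I (P k), P k'⟫) +
      t * ⟪I (z + S k), z' + S k'⟫ + ⟪I (k - P k), k' - P k'⟫ = 0) : z = 0 ∧ k = 0 := by
  have hII : ∀ u v, ⟪I u, I v⟫ = ⟪u, v⟫ := fun u v => by
    rw [h.skew, h.sq, inner_neg_right, neg_neg]
  have nI : ∀ u, ‖I u‖ = ‖u‖ := fun u => by
    rw [norm_eq_sqrt_real_inner, hII, ← norm_eq_sqrt_real_inner]
  have i1 : ∀ u, ⟪u, I n0⟫ = 0 → ⟪I u, n0⟫ = 0 := fun u hu => by rw [h.skew, hu, neg_zero]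
  have i2 : ∀ u, ⟪u, n0⟫ = 0 → ⟪I u, I n0⟫ = 0 := fun u hu => by rw [hII, hu]
  have nn : ⟪n0, I n0⟫ = 0 := by
    have := h.skew n0 n0
    rw [real_inner_comm] at this
    linarith
  have h1 : ⟪z, I n0⟫ = 0 := by
    have := hr n0 0 h.Dn
    simp only [map_zero, inner_zero_right, add_zero, sub_zero, map_add, inner_add_left,
      i1 _ (h.S2 k), h.skew z] at this
    linarith
  obtain ⟨c, a, rfl, a1⟩ : ∃ (c : ℝ) (a : C), z = c • n0 + a ∧ ⟪a, n0⟫ = 0 :=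
    ⟨⟪z, n0⟫, z - ⟪z, n0⟫ • n0, by abel, by
      rw [inner_sub_left, real_inner_smul_left, h.unit, mul_one, sub_self]⟩
  have a2 : ⟪a, I n0⟫ = 0 := by
    rwa [inner_add_left, real_inner_smul_left, nn, mul_zero, zero_add] at h1
  have a3 : D a = 0 := by rwa [map_add, map_smul, h.Dn, smul_zero, zero_add] at hz
  obtain ⟨ya, ya1, ya2, ya3, ya4⟩ := h.cr a a1 a2
  obtain ⟨yb, yb1, yb2, yb3, yb4⟩ := h.cr (S k) (h.S1 k) (h.S2 k)
  set b := S k with hb
  set b' := S (I k) with hb'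
  set z' := I a - ya with hz'
  set e := I b - yb - b' with he
  have z1 : ⟪z', n0⟫ = 0 := by rw [hz', inner_sub_left, i1 a a2, ya1, sub_zero]
  have z2 : ⟪z', I n0⟫ = 0 := by rw [hz', inner_sub_left, i2 a a1, ya2, sub_zero]
  have z3 : D z' = 0 := by rw [hz', map_sub, ya3, a3, map_zero, sub_zero, sub_self]
  have e1 : ⟪e, n0⟫ = 0 := by
    rw [he, inner_sub_left, inner_sub_left, i1 b (h.S2 k), yb1, h.S1, sub_zero, sub_zero]
  have e2 : ⟪e, I n0⟫ = 0 := by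
    rw [he, inner_sub_left, inner_sub_left, i2 b (h.S1 k), yb2, h.S2, sub_zero, sub_zero]
  have e3 : D e = 0 := by
    rw [he, map_sub, map_sub, yb3, h.DS, h.DS, h.PI, sub_sub_cancel, sub_self]
  obtain ⟨ye, ye1, ye2, ye3, ye4⟩ := h.cr e e1 e2
  have f3 : D (I e - ye) = 0 := by rw [map_sub, ye3, e3, map_zero, sub_zero, sub_self]
  have o1 : ⟪b, I e - ye⟫ = 0 := h.S3 k _ (by rw [inner_sub_left, i1 e e2, ye1, sub_zero])
    (by rw [inner_sub_left, i2 e e1, ye2, sub_zero]) f3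
  have o2 : ⟪b', e⟫ = 0 := h.S3 _ e e1 e2 e3
  have o3 : ⟪b', z'⟫ = 0 := h.S3 _ z' z1 z2 z3
  have o4 : ⟪b, a⟫ = 0 := h.S3 _ a a1 a2 a3
  have py : ‖b'‖ ^ 2 + ‖e‖ ^ 2 = ‖I b - yb‖ ^ 2 := by
    rw [show I b - yb = b' + e by rw [he]; abel, norm_add_sq_real, o2]; ring
  have nb : ‖I b - yb‖ ≤ 5 / 4 * ‖b‖ := (norm_sub_le _ _).trans (by rw [nI]; linarith)
  have nb1 : ‖b'‖ ≤ 5 / 4 * ‖b‖ :=
    (le_of_sq_le_sq (by linarith only [py, sq_nonneg ‖e‖]) (norm_nonneg _)).trans nb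
  have nb2 : ‖e‖ ≤ 5 / 4 * ‖b‖ :=
    (le_of_sq_le_sq (by linarith only [py, sq_nonneg ‖b'‖]) (norm_nonneg _)).trans nb
  have est : ∀ (u y : C) (c d : ℝ), ‖u‖ ≤ c → 4 * ‖y‖ ≤ d → |⟪u, y⟫| ≤ c * (d / 4) :=
    fun u y c d h1 h2 => (abs_real_inner_le_norm u y).trans
      (mul_le_mul h1 (by linarith only [h2]) (norm_nonneg _) ((norm_nonneg _).trans h1))
  have t1 : 3 / 4 * ‖a‖ ^ 2 ≤ ⟪I a, z'⟫ := by
    rw [hz', inner_sub_right, hII, real_inner_self_eq_norm_sq]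
    linarith only [(abs_le.1 (est (I a) ya _ _ (nI a).le ya4)).2]
  have t2 : -(5 / 16 * (‖a‖ * ‖b‖)) ≤ ⟪I a, b'⟫ := by
    rw [show I a = z' + ya by rw [hz']; abel, real_inner_comm, inner_add_right, o3, zero_add]
    linarith only [(abs_le.1 (est b' ya _ _ nb1 ya4)).1]
  have t3 : -(1 / 4 * (‖a‖ * ‖b‖)) ≤ ⟪I b, z'⟫ := by
    rw [hz', inner_sub_right, hII, o4]
    linarith only [(abs_le.1 (est (I b) ya _ _ (nI b).le ya4)).2]
  have t4 : 7 / 16 * ‖b‖ ^ 2 ≤ ⟪I b, b'⟫ := by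
    rw [inner_sub_right, sub_eq_zero] at o1
    rw [show b' = I b - yb - e by rw [he]; abel, inner_sub_right, inner_sub_right, hII,
      real_inner_self_eq_norm_sq, h.skew b e, o1]
    linarith only [(abs_le.1 (est (I b) yb _ _ (nI b).le yb4)).2,
      (abs_le.1 (est b ye _ _ le_rfl (ye4.trans nb2))).1]
  have n1 : ⟪I n0, z'⟫ = 0 := by rw [real_inner_comm, z2]
  have n2 : ⟪I n0, b'⟫ = 0 := by rw [real_inner_comm, h.S2]
  have hm := hr z' (I k) z3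
  rw [h.PI, ← map_sub, hII, hII, real_inner_self_eq_norm_sq, real_inner_self_eq_norm_sq] at hm
  simp only [map_add, map_smul, inner_add_left, inner_add_right, real_inner_smul_left, n1, ← hb',
    n2, mul_zero, zero_add] at hm
  obtain ⟨a0, q0, p0⟩ := num_fin ht t1 t2 t3 t4 (p := ‖P k‖) (q := ‖k - P k‖)
    (by linear_combination hm)
  rw [norm_eq_zero] at a0 q0
  replace p0 : P k = 0 := p0.elim norm_eq_zero.1 fun h1 => by
    rw [← h.DS, ← hb, norm_eq_zero.1 h1, map_zero]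
  have k0 : k = 0 := by rwa [p0, sub_zero] at q0
  refine ⟨?_, k0⟩
  have := hr (I n0 - S (D (I n0))) 0 (by rw [map_sub, h.DS, h.PD, sub_self])
  simp only [hb, a0, k0, map_zero, add_zero, inner_zero_right, sub_zero, map_smul,
    real_inner_smul_left, inner_sub_right, hII, h.unit, real_inner_comm (S _) (I n0), h.S2] at this
  rw [a0, add_zero, show c = 0 by linarith, zero_smul]

end Pool.Agent.Lib.MP_ccffa6_gt.EX
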