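import Pool.Agent.Lib.MP_ccffa6_gt.EX.FP2

/-! Block EX, formal part: the stable bundle isomorphism and the forms pulled back by it. -/

open Set Filter Topology
open scoped ContDiff RealInnerProductSpace

noncomputable section

namespace Pool.Agent.Lib.MP_ccffa6_gt.EX

theorem cont_bil {X E E' : Type} [TopologicalSpace X] [NormedAddCommGroup E] [NormedSpace ℝ E]
    [NormedAddCommGroup E'] [NormedSpace ℝ E'] {S : Set X} {w : X → Bil E'} {A : X → E →L[ℝ] E'}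
    (hw : ContinuousOn w S) (hA : ContinuousOn A S) :
    ContinuousOn (fun x => (w x).bilinearComp (A x) (A x)) S :=
  (ContinuousLinearMap.flipₗᵢ ℝ E E ℝ).continuous.comp_continuousOn
    (((ContinuousLinearMap.flipₗᵢ ℝ E E' ℝ).continuous.comp_continuousOn
      (hw.clm_comp hA)).clm_comp hA)

section

variable {U : Type} [NormedAddCommGroup U] [InnerProductSpace ℝ U]
  {F : Type} [NormedAddCommGroup F] [NormedSpace ℝ F]

section

variable {X : Type} [TopologicalSpace X] {A : Set X} {J : X → U →L[ℝ] U} (hJ : ContinuousOn J A)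
include hJ

theorem cont_Pi : ContinuousOn (fun x => Pi (J x)) A :=
  (contDiff_Pi (U := U)).continuous.comp_continuousOn hJ

theorem cont_QJ : ContinuousOn (fun x => QJ (J x)) A :=
  (contDiff_QJ (U := U)).continuous.comp_continuousOn hJ

theorem cont_PJ : ContinuousOn (fun x => PJ (J x)) A :=
  (contDiff_PJ (U := U)).continuous.comp_continuousOn hJ

theorem cont_LJ : ContinuousOn (fun x => LJ (J x)) A :=
  (contDiff_LJ (U := U)).continuous.comp_continuousOn hJ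

theorem cont_SJ : ContinuousOn (fun x => SJ (J x)) A :=
  (contDiff_SJ (U := U)).continuous.comp_continuousOn hJ

end

/-- `(v, k) ↦ Θ v + S k`. -/
def Zm (Θ : F →L[ℝ] Cx U) (S : Cx U →L[ℝ] Cx U) : F × Cx U →L[ℝ] Cx U :=
  Θ ∘L ContinuousLinearMap.fst ℝ F (Cx U) + S ∘L ContinuousLinearMap.snd ℝ F (Cx U)

theorem Zm_apply (Θ : F →L[ℝ] Cx U) (S : Cx U →L[ℝ] Cx U) (q : F × Cx U) :
    Zm Θ S q = Θ q.1 + S q.2 := rfl

/-- The form `w (z, z') + eta (Q k, Q k')`. -/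
def Xi (w : Bil (Cx U)) (J : U →L[ℝ] U) (Θ : F →L[ℝ] Cx U) (S : Cx U →L[ℝ] Cx U) :
    Bil (F × Cx U) :=
  w.bilinearComp (Zm Θ S) (Zm Θ S) +
    eta.bilinearComp (QJ J ∘L ContinuousLinearMap.snd ℝ F (Cx U))
      (QJ J ∘L ContinuousLinearMap.snd ℝ F (Cx U))

theorem Xi_apply (w : Bil (Cx U)) (J : U →L[ℝ] U) (Θ : F →L[ℝ] Cx U) (S : Cx U →L[ℝ] Cx U)
    (q q' : F × Cx U) :
    Xi w J Θ S q q' = w (Θ q.1 + S q.2) (Θ q'.1 + S q'.2) + eta (QJ J q.2) (QJ J q'.2) := rfl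

theorem cont_Zm {X : Type} [TopologicalSpace X] {A : Set X} {Θ : X → F →L[ℝ] Cx U}
    {S : X → Cx U →L[ℝ] Cx U} (hΘ : ContinuousOn Θ A) (hS : ContinuousOn S A) :
    ContinuousOn (fun x => Zm (Θ x) (S x)) A :=
  (hΘ.clm_comp continuousOn_const).add (hS.clm_comp continuousOn_const)

theorem cont_Xi {X : Type} [TopologicalSpace X] {A : Set X} {w : X → Bil (Cx U)}
    {J : X → U →L[ℝ] U} {Θ : X → F →L[ℝ] Cx U} {S : X → Cx U →L[ℝ] Cx U} (hw : ContinuousOn w A)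
    (hJ : ContinuousOn J A) (hΘ : ContinuousOn Θ A) (hS : ContinuousOn S A) :
    ContinuousOn (fun x => Xi (w x) (J x) (Θ x) (S x)) A :=
  (cont_bil hw (cont_Zm hΘ hS)).add (cont_bil continuousOn_const
    ((cont_QJ hJ).clm_comp continuousOn_const))

theorem cont_om0 {X : Type} [TopologicalSpace X] {A : Set X} {J : X → U →L[ℝ] U}
    (hJ : ContinuousOn J A) : ContinuousOn (fun x => om0 (J x)) A :=
  (cont_bil (w := fun x => frm (J x)) (continuousOn_const.clm_comp hJ) continuousOn_const).add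
    (cont_bil continuousOn_const (cont_LJ hJ))

/-- `S` is a right inverse of the vertical differential `D`, whose kernel is `Θ T`. -/
structure Adm (J : U →L[ℝ] U) (T : Submodule ℝ F) (Θ : F →L[ℝ] Cx U) (D S : Cx U →L[ℝ] Cx U) :
    Prop where
  isJ : IsJ J
  bij : Function.Bijective Θ
  ker : ∀ v, v ∈ T ↔ D (Θ v) = 0
  PD : ∀ z, PJ J (D z) = D z
  DS : ∀ k, D (S k) = PJ J k

variable {J : U →L[ℝ] U} {T : Submodule ℝ F} {Θ : F →L[ℝ] Cx U} {D S S' : Cx U →L[ℝ] Cx U}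

theorem Adm.seg (h : Adm J T Θ D S) (h' : Adm J T Θ D S') (t : ℝ) :
    Adm J T Θ D ((1 - t) • S + t • S') :=
  ⟨h.isJ, h.bij, h.ker, h.PD, fun k => by
    simp only [add_apply, smul_apply, map_add, map_smul, h.DS, h'.DS]; module⟩

theorem Adm.QD (h : Adm J T Θ D S) (z : Cx U) : QJ J (D z) = 0 := by rw [← h.PD, h.isJ.QJ_PJ]

theorem Adm.onto (h : Adm J T Θ D S) (z c : Cx U) :
    ∃ v ∈ T, ∃ k, Θ v + S k = z ∧ QJ J k = QJ J c := by
  obtain ⟨v, hv⟩ := h.bij.2 (z - S (D z + QJ J c))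
  refine ⟨v, (h.ker v).2 ?_, D z + QJ J c, by rw [hv, sub_add_cancel], ?_⟩
  · rw [hv, map_sub, h.DS, map_add, h.PD, h.isJ.PJ_QJ, add_zero, sub_self]
  · rw [map_add, h.QD, h.isJ.QJ_QJ, zero_add]

theorem Adm.inj (h : Adm J T Θ D S) {v : F} (hv : v ∈ T) {k : Cx U} (h1 : Θ v + S k = 0)
    (h2 : QJ J k = 0) : (v, k) = 0 := by
  have h3 := congrArg D h1
  rw [map_add, (h.ker v).1 hv, h.DS, zero_add, map_zero] at h3
  have h4 : k = 0 := by rw [← PJ_add_QJ J k, h3, h2, add_zero]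
  rw [h4, map_zero, add_zero] at h1
  rw [h4, h.bij.1 (h1.trans (map_zero Θ).symm)]
  rfl

variable [FiniteDimensional ℝ U] [FiniteDimensional ℝ F]

theorem Adm.nd_Xi (h : Adm J T Θ D S) {w : Bil (Cx U)} (hw : ND ⊤ w) :
    ND (pl T (Cx U)) (Xi w J Θ S) := by
  refine ⟨fun q _ => by rw [Xi_apply, hw.1 _ trivial, nd_eta.1 _ trivial, add_zero],
    fun q hq hr => ?_⟩
  have h1 : Θ q.1 + S q.2 = 0 := hw.2 _ trivial fun z _ => by
    obtain ⟨v, hv, k, e1, e2⟩ := h.onto z 0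
    have := hr (v, k) (mem_pl.2 hv)
    rwa [Xi_apply, e1, e2, map_zero (QJ J), map_zero, add_zero] at this
  have h2 : QJ J q.2 = 0 := nd_eta.2 _ trivial fun c _ => by
    obtain ⟨v, hv, k, e1, e2⟩ := h.onto 0 c
    have := hr (v, k) (mem_pl.2 hv)
    rw [Xi_apply, e1, e2, map_zero, zero_add] at this
    rw [← PJ_add_QJ J c, map_add, h.isJ.eta_QP, this, add_zero]
  exact h.inj (mem_pl.1 hq) h1 h2

theorem Adm.nd_seg (h : Adm J T Θ D S) {n0 : Cx U} (h2 : P2 II (PJ J) D S n0) {t : ℝ}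
    (ht : t ∈ Icc (0 : ℝ) 1) :
    ND (pl T (Cx U)) ((1 - t) • osum (eta.bilinearComp Θ Θ) eta + t • Xi eta J Θ S) := by
  have a0 : ∀ z : Cx U, eta z z = 0 := fun z => nd_eta.1 z trivial
  refine ⟨fun q _ => ?_, fun q hq hr => ?_⟩
  · simp only [seg_apply, osum_apply, Xi_apply, ContinuousLinearMap.bilinearComp_apply, a0,
      add_zero, mul_zero]
  · obtain ⟨e1, e2⟩ := h2.nd ht (k := q.2) ((h.ker _).1 (mem_pl.1 hq)) fun z k hz => by
      obtain ⟨v, rfl⟩ := h.bij.2 z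
      have := hr (v, k) (mem_pl.2 ((h.ker v).2 hz))
      simp only [seg_apply, osum_apply, Xi_apply, ContinuousLinearMap.bilinearComp_apply] at this
      rw [h.isJ.eta_split q.2 k] at this
      simp only [eta_apply] at this
      rw [show q.2 - PJ J q.2 = QJ J q.2 from sub_sub_cancel _ _,
        show k - PJ J k = QJ J k from sub_sub_cancel _ _]
      linarith
    exact Prod.ext (h.bij.1 (e1.trans (map_zero Θ).symm)) e2

end

section

variable {V : Type} [NormedAddCommGroup V] [InnerProductSpace ℝ V]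
  {F : Type} [NormedAddCommGroup F] [NormedSpace ℝ F]

/-- The stable isomorphism `TW ⊕ K → TM ⊕ ℝ ⊕ K`. -/
def Phi (J : UU V →L[ℝ] UU V) (Θ : F →L[ℝ] Cx (UU V)) (S : Cx (UU V) →L[ℝ] Cx (UU V)) :
    F × Cx (UU V) →L[ℝ] (V × ℝ) × Cx (UU V) :=
  ContinuousLinearMap.inl ℝ (V × ℝ) (Cx (UU V)) ∘L
      (((umk : (V × ℝ) ≃L[ℝ] UU V).symm : UU V →L[ℝ] V × ℝ) ∘L Pi J ∘L re1 ∘L Zm Θ S) +
    ContinuousLinearMap.inr ℝ (V × ℝ) (Cx (UU V)) ∘L
      (LJ J ∘L Zm Θ S + QJ J ∘L ContinuousLinearMap.snd ℝ F (Cx (UU V)))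

theorem Phi_apply (J : UU V →L[ℝ] UU V) (Θ : F →L[ℝ] Cx (UU V)) (S : Cx (UU V) →L[ℝ] Cx (UU V))
    (q : F × Cx (UU V)) : Phi J Θ S q =
      (umk.symm (Pi J (re1 (Θ q.1 + S q.2))), LJ J (Θ q.1 + S q.2) + QJ J q.2) :=
  Prod.ext (add_zero _) (zero_add _)

theorem cont_Phi {X : Type} [TopologicalSpace X] {A : Set X} {J : X → UU V →L[ℝ] UU V}
    {Θ : X → F →L[ℝ] Cx (UU V)} {S : X → Cx (UU V) →L[ℝ] Cx (UU V)} (hJ : ContinuousOn J A)
    (hΘ : ContinuousOn Θ A) (hS : ContinuousOn S A) :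
    ContinuousOn (fun x => Phi (J x) (Θ x) (S x)) A :=
  (continuousOn_const.clm_comp (continuousOn_const.clm_comp
    ((cont_Pi hJ).clm_comp
      (continuousOn_const.clm_comp (cont_Zm hΘ hS))))).add
    (continuousOn_const.clm_comp
      (((cont_LJ hJ).clm_comp (cont_Zm hΘ hS)).add
        ((cont_QJ hJ).clm_comp continuousOn_const)))

variable [FiniteDimensional ℝ V] [FiniteDimensional ℝ F]

theorem Adm.bijOn {J : UU V →L[ℝ] UU V} {T : Submodule ℝ F} {Θ : F →L[ℝ] Cx (UU V)}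
    {D S : Cx (UU V) →L[ℝ] Cx (UU V)} (h : Adm J T Θ D S) {T' : Submodule ℝ (V × ℝ)}
    (hT : ∀ u, Pi J (umk u) = umk u ↔ u ∈ T') :
    BijOn (Phi J Θ S) (pl T (Cx (UU V))) (pl T' (Cx (UU V))) := by
  refine ⟨fun q _ => mem_pl.2 ((hT _).1 ?_), fun q hq q' hq' he => ?_, fun y hy => ?_⟩
  · rw [Phi_apply, umk.apply_symm_apply, h.isJ.Pi_Pi]
  · rw [← sub_eq_zero] at he ⊢
    rw [← map_sub, Phi_apply, Prod.mk_eq_zero, ContinuousLinearEquiv.map_eq_zero_iff] at he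
    have h2 := congrArg (QJ J) he.2
    rw [map_add, h.isJ.QJ_LJ, h.isJ.QJ_QJ, zero_add, map_zero] at h2
    have h3 := he.2
    rw [h2, add_zero, h.isJ.LJ_eq_zero, he.1] at h3
    exact h.inj (mem_pl.1 (sub_mem hq hq')) (cx_ext h3.1.symm h3.2) h2
  · let z0 : Cx (UU V) := WithLp.toLp 2 (umk y.1, 0)
    have hy' : Pi J (re1 z0) = re1 z0 := (hT _).2 (mem_pl.1 hy)
    obtain ⟨v, hv, k, e1, e2⟩ := h.onto (z0 + SJ J y.2) y.2
    refine ⟨(v, k), mem_pl.2 hv, ?_⟩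
    rw [Phi_apply, e1, e2, map_add, map_add, map_add (LJ J), h.isJ.Pi_re1_SJ, h.isJ.LJ_SJ, hy',
      h.isJ.LJ_eq_zero.2 ⟨hy', rfl⟩, add_zero, zero_add, PJ_add_QJ]
    exact Prod.ext (umk.symm_apply_apply _) rfl

omit [FiniteDimensional ℝ F] in
theorem Phi_pull {J : V → UU V →L[ℝ] UU V} {x : V} (h : IsJ (J x)) (Θ : F →L[ℝ] Cx (UU V))
    (S : Cx (UU V) →L[ℝ] Cx (UU V)) (q q' : F × Cx (UU V)) :
    osum (OmJ J x) eta (Phi (J x) Θ S q) (Phi (J x) Θ S q') = Xi (om0 (J x)) (J x) Θ S q q' := by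
  rw [osum_apply, Phi_apply, Phi_apply, OmJ_apply, Xi_apply, om0_apply, umk.apply_symm_apply,
    umk.apply_symm_apply, h.J_Pi, ← h.Pi_symm, h.Pi_J, add_assoc]
  congr 1
  rw [← h.PJ_LJ, ← h.PJ_LJ (Θ q'.1 + S q'.2)]
  simp only [map_add eta, map_add (eta _), add_apply, h.eta_PQ, h.eta_QP, add_zero, zero_add]

theorem JData.formal {M : Set V} {J : V → UU V →L[ℝ] UU V} (h : JData M J) : Formal M (OmJ J) := by
  refine ⟨cont_bil (w := fun x => frm (J x))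
    (continuousOn_const.clm_comp h.sm.continuous.continuousOn) continuousOn_const,
    fun x hx => ⟨fun u _ => ?_, fun u hu hr => ?_⟩⟩
  · have := (h.isJ x hx).skew (umk u) (umk u)
    rw [real_inner_comm (J x (umk u)) (umk u)] at this
    rw [OmJ_apply]
    linarith
  · have h1 := hr (umk.symm (J x (umk u))) (mem_T1.2 ((h.rng x hx _).1
      (by rw [umk.apply_symm_apply, (h.isJ x hx).Pi_J])))
    rw [OmJ_apply, umk.apply_symm_apply, inner_self_eq_zero] at h1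
    have h2 := (h.rng x hx u).2 (mem_T1.1 hu)
    rw [Pi_apply, h1, map_zero, neg_zero] at h2
    exact umk.map_eq_zero_iff.1 h2.symm

end

end Pool.Agent.Lib.MP_ccffa6_gt.EX
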