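import Pool.Agent.Lib.MP_ccffa6_gt.EX.XBot

open Set Module Filter Topology
open scoped ContDiff RealInnerProductSpace

noncomputable section

namespace Pool.Agent.Lib.MP_ccffa6_gt.EX

variable {N : ℕ}

/-- Transversality in terms of `LJ`: `w - DΓ v` is tangent iff `LJ (jj (w - DΓ v)) = 0`
(`closed_prod_zero`, `xa_LJ_jj_eq_zero`); `LJ (jj w)` is fixed by `PJ`, and
`PJ k = LJ (jj (kk (SJ k)))`. -/
theorem tv_iff {F : Type} [NormedAddCommGroup F] [NormedSpace ℝ F] {d : ℕ} {M : Set (Rd N)}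
    (hM : Closed d M) {J : Rd N → UU (Rd N) →L[ℝ] UU (Rd N)} (hJ : JData M J)
    {Γ : F → Rd N × UU (Rd N)} {z : F} (hz : Γ z ∈ M ×ˢ ({0} : Set (UU (Rd N)))) :
    Tv Γ (M ×ˢ ({0} : Set (UU (Rd N)))) z ↔
      ∀ k, ∃ v, LJ (J (Γ z).1) (jj (fderiv ℝ Γ z v)) = PJ (J (Γ z).1) k := by
  have hT := (closed_prod_zero (V' := UU (Rd N)) hM).2 _ hz
  refine ⟨fun h k => (h (kk (SJ (J (Γ z).1) k))).imp fun v hv => ?_,
    fun h w => (h (LJ (J (Γ z).1) (jj w))).imp fun v hv => ?_⟩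
  · have := (xa_LJ_jj_eq_zero hJ hz.1 _).2 ((hT _).1 hv)
    rw [map_sub, map_sub, sub_eq_zero, xa_LJ_jj hJ hz.1, xa_LJ_SJ (hJ.isJ _ hz.1)] at this
    exact this.symm
  · refine (hT _).2 ((xa_LJ_jj_eq_zero hJ hz.1 _).1 ?_)
    rw [map_sub, map_sub, hv, xa_PJ_LJ (hJ.isJ _ hz.1), sub_self]

/-- The analytic part of block EX. -/
theorem exists_xdata {n : ℕ} (M : Set (Rd N)) (hM : Closed (2 * n + 1) M)
    {J : Rd N → UU (Rd N) →L[ℝ] UU (Rd N)} (hJ : JData M J) :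
    ∃ (F : Type) (_ : NormedAddCommGroup F) (_ : NormedSpace ℝ F) (_ : FiniteDimensional ℝ F)
      (W : Set F) (f : F →L[ℝ] ℝ) (a b : ℝ) (ν : F) (X Y : F →L[ℝ] Rd N) (α : Form1 F)
      (r : F → Rd N) (ψ : Rd N → F) (D : F → F →L[ℝ] Cx (UU (Rd N))),
      XData n M J W f a b ν X Y α r ψ D := by
  obtain ⟨Γ₀, C, s0, hC, hz, hb⟩ := exists_bot hM hJ
  obtain ⟨hA, hT⟩ := closed_prod_zero (V' := UU (Rd N)) hM
  obtain ⟨Γ, sΓ, e0, e1, tv, cpt⟩ := exists_interp hA s0 contDiff_G0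
    (fun p hp => (tv_iff hM hJ hp).2 fun k => ((hb p hp).1 k).elim fun v hv => ⟨_, hv⟩)
    (fun p _ w => (fderiv_G0_surj p w).imp fun v hv => by
      rw [hv, sub_self]
      exact zero_mem _) hC hz
  obtain ⟨hW, tW⟩ := pre_sub (e := 2 * n + 2) hA.sub sΓ (by
    rw [finrank_prod, finrank_Hz, finrank_prod, ← (umk (V := Rd N)).toLinearEquiv.finrank_eq,
      finrank_prod, finrank_euclideanSpace_fin, finrank_self]
    omega) tv
  have d0 : ∀ z : Hz N × ℝ, z.2 = -1 → ∀ v, fderiv ℝ Γ z v = fderiv ℝ Γ₀ z.1 v.1 := fun z h =>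
    fderiv_of_eventually (s0.differentiable (by simp) _) ((continuous_snd.continuousAt.eventually_lt
      continuousAt_const (show z.2 < 0 by linarith)).mono fun y hy => e0 y hy.le)
  have d1 : ∀ z : Hz N × ℝ, z.2 = 2 → ∀ v, fderiv ℝ Γ z v = fderiv ℝ G0 z.1 v.1 := fun z h =>
    fderiv_of_eventually (contDiff_G0.differentiable (by simp) _)
      ((continuousAt_const.eventually_lt continuous_snd.continuousAt
        (show 1 < z.2 by linarith)).mono fun y hy => e1 y hy.le)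
  have t0 : ∀ z : Hz N × ℝ, z.2 = -1 → Γ z = Γ₀ z.1 := fun z h => e0 z (by linarith)
  have t1 : ∀ z : Hz N × ℝ, z.2 = 2 → Γ z = G0 z.1 := fun z h => e1 z (by linarith)
  have c1 : Continuous fun z => (Γ z).1 := sΓ.continuous.fst
  refine ⟨Hz N × ℝ, inferInstance, inferInstance, inferInstance, Γ ⁻¹' (M ×ˢ {0}),
    ContinuousLinearMap.snd ℝ (Hz N) ℝ, -1, 2, (0, 1), XF, YF, alF, fun z => (Γ z).1, psiF,
    fun z => LJ (J (Γ z).1) ∘L jj ∘L fderiv ℝ Γ z,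
    ⟨hW, (ContinuousLinearMap.contDiff _), by norm_num, cpt, continuousOn_const, fun z h => ?_⟩,
    contDiff_alF, dF_alF, XH.map_zero, YH.map_zero, rfl, fun p => (alH p.1).map_zero, Th_bij,
    ⟨XF.contDiff, contDiff_psiF, fun z h => ?_, fun x hx => ⟨?_, rfl⟩, fun z h => ?_,
      fun x _ => XF_psiF x⟩, c1.continuousOn, fun z h => h.1.1,
    fun z h => congrArg Prod.fst (t1 z h.2), Continuous.continuousOn ?_,
    fun z h v => (tW z h.1 v).trans ((hT _ h.1 _).trans (xa_LJ_jj_eq_zero hJ h.1.1 _).symm),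
    fun z h v => xa_PJ_LJ (hJ.isJ _ h.1.1) _, fun z h => (tv_iff hM hJ h.1).1 (tv z h.1),
    fun z h v => ?_, fun z h k => ?_, fun z h v v' h1 h2 h3 => ?_⟩
  · refine ⟨(tW z h.1 _).2 ?_, by rw [ContinuousLinearMap.fderiv]; rfl⟩
    rcases h.2 with h2 | h2
    · rw [d0 z h2, map_zero]
      exact zero_mem _
    · rw [d1 z h2, map_zero]
      exact zero_mem _
  · exact (show G0 z.1 ∈ M ×ˢ {0} from t1 z h.2 ▸ h.1).1
  · rw [mem_preimage, t1 _ rfl, G0_psiF]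
    exact ⟨hx, rfl⟩
  · exact psiF_XF (show G0 z.1 ∈ M ×ˢ {0} from t1 z h.2 ▸ h.1).2 h.2
  · exact ((xa_contDiff_LJ (U := UU (Rd N))).continuous.comp (hJ.sm.continuous.comp c1)).clm_comp
      (continuous_const.clm_comp (sΓ.continuous_fderiv (by simp)))
  · change LJ _ (jj (fderiv ℝ Γ z v)) = _
    rw [d1 z h.2, fderiv_G0_top (show G0 z.1 ∈ M ×ˢ {0} from t1 z h.2 ▸ h.1).2,
      xa_LJ_jj hJ h.1.1]
  · obtain ⟨v, hv⟩ := (hb z.1 (t0 z h.2 ▸ h.1)).1 k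
    refine ⟨(hat z.1 v, 0), rfl, alH_hat _ _, ?_⟩
    change LJ _ (jj (fderiv ℝ Γ z _)) = _
    rw [d0 z h.2, t0 z h.2, hv]
  · obtain ⟨u, rfl⟩ : ∃ u, v = (hat z.1 u, 0) := ⟨v.1.1, Prod.ext (eq_hat h2) h1⟩
    obtain rfl := (Th_bij z).1 (h3.trans (Th_hat_I z u).symm)
    obtain ⟨y, hy, hn⟩ := (hb z.1 (t0 z h.2 ▸ h.1)).2 u
    refine ⟨(hat z.1 y, 0), rfl, alH_hat _ _, ?_, ?_⟩
    · change LJ _ (jj (fderiv ℝ Γ z _)) = LJ _ (jj (fderiv ℝ Γ z _)) - II (LJ _ (jj (fderiv ℝ Γ z _)))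
      rw [d0 z h.2, d0 z h.2, d0 z h.2, t0 z h.2, hy]
    · linarith [(norm_Th_hat z y).2, (norm_Th_hat z u).1]

end Pool.Agent.Lib.MP_ccffa6_gt.EX
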