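import Pool.Agent.Lib.MP_ccffa6_gt.Iface
import Pool.Agent.Lib.MP_ccffa6_gt.EX.FMain
import Pool.Agent.Lib.MP_ccffa6_gt.EX.FJ
import Pool.Agent.Lib.MP_ccffa6_gt.EX.XMain

/-! Block EX: every almost contact manifold is normally bordant to a contact manifold. -/

open Set Filter Topology
open scoped ContDiff

noncomputable section

namespace Pool.Agent.Lib.MP_ccffa6_gt

theorem EX_main (n : ℕ) : EXStmt n := by
  intro E _ _ _ M Ω hM hΩ
  have hd := Diff.of_equiv M (toEuclidean (E := E))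
  have hM' := hd.closed hM
  have hΩ' := hΩ.diff hd.symm
  obtain ⟨J, hJ, hh⟩ := EX.exists_J hM' hΩ'
  obtain ⟨F, _, _, _, W, f, a, b, ν, X, Y, α, r, ψ, D, h⟩ := EX.exists_xdata _ hM' hJ
  obtain ⟨h1, h2⟩ := EX.xdata_main hJ h
  exact ⟨F, _, _, inferInstance, W, f, a, b, α, h1,
    EX.nbord_diff hd.symm hΩ (EX.nbord_htpy h2 hh hΩ')⟩

end Pool.Agent.Lib.MP_ccffa6_gt
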