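import Pool.Agent.Lib.MP_ccffa6_gt.EX.FDefs

open Set Module
open scoped ContDiff RealInnerProductSpace

noncomputable section

namespace Pool.Agent.Lib.MP_ccffa6_gt.EX

section
variable {U : Type} [NormedAddCommGroup U] [InnerProductSpace ℝ U] {J : U →L[ℝ] U}

theorem xa_J_Pi (h : IsJ J) (u : U) : J (Pi J u) = J u := by
  rw [Pi_apply, map_neg, h.cube, neg_neg]

theorem xa_Pi_J (h : IsJ J) (u : U) : Pi J (J u) = J u := by
  rw [Pi_apply, h.cube, neg_neg]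

theorem xa_Pi_Pi (h : IsJ J) (u : U) : Pi J (Pi J u) = Pi J u := by
  rw [Pi_apply J (Pi J u), xa_J_Pi h, Pi_apply]

theorem xa_Pi_symm (h : IsJ J) (u v : U) : ⟪Pi J u, v⟫ = ⟪u, Pi J v⟫ := by
  rw [Pi_apply, Pi_apply, inner_neg_left, inner_neg_right, h.skew, h.skew, neg_neg]

theorem xalg_JJ (u : U) : J (J u) = -Pi J u := by
  rw [Pi_apply, neg_neg]

theorem xalg_re_PJ (k : Cx U) :
    re1 (PJ J k) = re1 k - (1 / 2 : ℝ) • (Pi J (re1 k) + J (im1 k)) := rfl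

theorem xalg_im_PJ (k : Cx U) :
    im1 (PJ J k) = im1 k - (1 / 2 : ℝ) • (Pi J (im1 k) - J (re1 k)) := rfl

theorem xalg_re_LJ (k : Cx U) :
    re1 (LJ J k) = (re1 k - Pi J (re1 k)) + Pi J (im1 k) := rfl

theorem xalg_im_LJ (k : Cx U) :
    im1 (LJ J k) = (im1 k - Pi J (im1 k)) + J (im1 k) := rfl

theorem xalg_re_SJ (k : Cx U) : re1 (SJ J k) = re1 k - Pi J (re1 k) := rfl

theorem xalg_im_SJ (k : Cx U) :
    im1 (SJ J k) = (im1 k - Pi J (im1 k)) + (1 / 2 : ℝ) • (Pi J (re1 k) - J (im1 k)) := rfl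

theorem xa_PJ_PJ (h : IsJ J) (k : Cx U) : PJ J (PJ J k) = PJ J k := by
  apply cx_ext
  · rw [xalg_re_PJ (PJ J k), xalg_re_PJ k, xalg_im_PJ k]
    simp only [map_sub, map_add, map_smul, xa_J_Pi h, xa_Pi_J h, xa_Pi_Pi h, xalg_JJ]
    module
  · rw [xalg_im_PJ (PJ J k), xalg_re_PJ k, xalg_im_PJ k]
    simp only [map_sub, map_add, map_smul, xa_J_Pi h, xa_Pi_J h, xa_Pi_Pi h, xalg_JJ]
    module

theorem xa_PJ_II (k : Cx U) : PJ J (II k) = II (PJ J k) := by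
  apply cx_ext
  · simp only [xalg_re_PJ, xalg_im_PJ, re1_II, im1_II, map_neg]
    module
  · simp only [xalg_re_PJ, xalg_im_PJ, re1_II, im1_II, map_neg]
    module

theorem xa_LJ_SJ (h : IsJ J) (k : Cx U) : LJ J (SJ J k) = PJ J k := by
  apply cx_ext
  · simp only [xalg_re_PJ, xalg_re_LJ, xalg_re_SJ, xalg_im_SJ, map_sub, map_add, map_smul,
      xa_Pi_J h, xa_Pi_Pi h]
    module
  · simp only [xalg_im_PJ, xalg_im_LJ, xalg_im_SJ, map_sub, map_add, map_smul,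
      xa_J_Pi h, xa_Pi_J h, xa_Pi_Pi h, xalg_JJ]
    module

theorem xa_PJ_LJ (h : IsJ J) (k : Cx U) : PJ J (LJ J k) = LJ J k := by
  apply cx_ext
  · simp only [xalg_re_PJ, xalg_re_LJ, xalg_im_LJ, map_sub, map_add,
      xa_J_Pi h, xa_Pi_Pi h, xalg_JJ]
    module
  · simp only [xalg_im_PJ, xalg_re_LJ, xalg_im_LJ, map_sub, map_add,
      xa_J_Pi h, xa_Pi_J h, xa_Pi_Pi h]
    module

theorem xa_LJ_eq_zero (h : IsJ J) (k : Cx U) :
    LJ J k = 0 ↔ Pi J (re1 k) = re1 k ∧ im1 k = 0 := by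
  constructor
  · intro h0
    have h1 : (re1 k - Pi J (re1 k)) + Pi J (im1 k) = 0 := by
      rw [← xalg_re_LJ, h0, map_zero]
    have h2 : (im1 k - Pi J (im1 k)) + J (im1 k) = 0 := by
      rw [← xalg_im_LJ, h0, map_zero]
    have h3 : Pi J (im1 k) = 0 := by
      have := congrArg (Pi J) h1
      simpa only [map_add, map_sub, xa_Pi_Pi h, sub_self, zero_add, map_zero] using this
    have h4 : J (im1 k) = 0 := by rw [← xa_J_Pi h, h3, map_zero]
    rw [h3, add_zero, sub_eq_zero] at h1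
    rw [h3, h4, add_zero, sub_zero] at h2
    exact ⟨h1.symm, h2⟩
  · rintro ⟨h1, h2⟩
    apply cx_ext
    · rw [xalg_re_LJ, h1, h2, map_zero, map_zero, sub_self, add_zero]
    · rw [xalg_im_LJ, h2, map_zero, map_zero, map_zero, sub_self, add_zero]

theorem xa_norm_II (k : Cx U) : ‖II k‖ = ‖k‖ := by
  have h1 : ‖II k‖ ^ 2 = ‖k‖ ^ 2 := by
    rw [← real_inner_self_eq_norm_sq, ← real_inner_self_eq_norm_sq, cx_inner, cx_inner,
      re1_II, im1_II, inner_neg_neg, add_comm]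
  exact (pow_left_inj₀ (norm_nonneg _) (norm_nonneg _) two_ne_zero).1 h1

theorem xalg_pr_eq {Z : Type} [NormedAddCommGroup Z] [NormedSpace ℝ Z] (A B : Z →L[ℝ] U) :
    pr A B = pr (ContinuousLinearMap.id ℝ U) 0 ∘L A + pr 0 (ContinuousLinearMap.id ℝ U) ∘L B := by
  ext1 z
  apply cx_ext <;> simp

theorem xalg_contDiff_pr {E Z : Type} [NormedAddCommGroup E] [NormedSpace ℝ E]
    [NormedAddCommGroup Z] [NormedSpace ℝ Z] {A B : E → Z →L[ℝ] U}
    (hA : ContDiff ℝ ∞ A) (hB : ContDiff ℝ ∞ B) : ContDiff ℝ ∞ (fun e => pr (A e) (B e)) := by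
  simp only [xalg_pr_eq (A _) (B _)]
  exact (contDiff_const.clm_comp hA).add (contDiff_const.clm_comp hB)

theorem xalg_contDiff_Pi : ContDiff ℝ ∞ (fun J : U →L[ℝ] U => Pi J) :=
  (contDiff_id.clm_comp contDiff_id).neg

theorem xalg_contDiff_Pi' : ContDiff ℝ ∞ (fun J : U →L[ℝ] U => 1 - Pi J) :=
  contDiff_const.sub xalg_contDiff_Pi

theorem xa_contDiff_PJ : ContDiff ℝ ∞ (fun J : U →L[ℝ] U => PJ J) := by
  refine contDiff_const.sub (xalg_contDiff_pr ?_ ?_)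
  · exact ((xalg_contDiff_Pi.clm_comp contDiff_const).add
      (contDiff_id.clm_comp contDiff_const)).const_smul _
  · exact ((xalg_contDiff_Pi.clm_comp contDiff_const).sub
      (contDiff_id.clm_comp contDiff_const)).const_smul _

theorem xa_contDiff_LJ : ContDiff ℝ ∞ (fun J : U →L[ℝ] U => LJ J) := by
  refine xalg_contDiff_pr ?_ ?_
  · exact (xalg_contDiff_Pi'.clm_comp contDiff_const).add
      (xalg_contDiff_Pi.clm_comp contDiff_const)
  · exact (xalg_contDiff_Pi'.clm_comp contDiff_const).add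
      (contDiff_id.clm_comp contDiff_const)

theorem xa_contDiff_SJ : ContDiff ℝ ∞ (fun J : U →L[ℝ] U => SJ J) := by
  refine xalg_contDiff_pr ?_ ?_
  · exact xalg_contDiff_Pi'.clm_comp contDiff_const
  · exact (xalg_contDiff_Pi'.clm_comp contDiff_const).add
      (((xalg_contDiff_Pi.clm_comp contDiff_const).sub
        (contDiff_id.clm_comp contDiff_const)).const_smul _)

theorem xalg_PJ_eq_zero (h : IsJ J) (k : Cx U) :
    PJ J k = 0 ↔ Pi J (re1 k) = re1 k ∧ im1 k = -J (re1 k) := by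
  constructor
  · intro h0
    have h1 : re1 k = (1 / 2 : ℝ) • (Pi J (re1 k) + J (im1 k)) := by
      rw [← sub_eq_zero, ← xalg_re_PJ, h0, map_zero]
    have h2 : im1 k = (1 / 2 : ℝ) • (Pi J (im1 k) - J (re1 k)) := by
      rw [← sub_eq_zero, ← xalg_im_PJ, h0, map_zero]
    have h3 : Pi J (re1 k) = re1 k := by
      have := congrArg (Pi J) h1
      simp only [map_smul, map_add, xa_Pi_Pi h, xa_Pi_J h] at this
      rw [this, ← h1]
    have h4 : Pi J (im1 k) = im1 k := by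
      have := congrArg (Pi J) h2
      simp only [map_smul, map_sub, xa_Pi_Pi h, xa_Pi_J h] at this
      rw [this, ← h2]
    refine ⟨h3, ?_⟩
    rw [h4] at h2
    linear_combination (norm := module) (2 : ℝ) • h2
  · rintro ⟨h1, h2⟩
    apply cx_ext
    · rw [xalg_re_PJ, h2, map_neg, xalg_JJ, h1, map_zero]
      module
    · rw [xalg_im_PJ, h2, map_neg, xa_Pi_J h, map_zero]
      module

/-- The kernel of `PJ J` is `{(a, -J a) | Pi J a = a}`, isomorphic to the range of `Pi J` by `re1`;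
rank-nullity. -/
theorem xa_finrank [FiniteDimensional ℝ U] (h : IsJ J) :
    finrank ℝ (LinearMap.range (PJ J : Cx U →ₗ[ℝ] Cx U))
      + finrank ℝ (LinearMap.range (Pi J : U →ₗ[ℝ] U)) = 2 * finrank ℝ U := by
  have hmap : (LinearMap.ker (PJ J : Cx U →ₗ[ℝ] Cx U)).map ((re1 : Cx U →L[ℝ] U) : Cx U →ₗ[ℝ] U)
      = LinearMap.range (Pi J : U →ₗ[ℝ] U) := by
    ext a
    constructor
    · rintro ⟨k, hk, rfl⟩
      exact ⟨re1 k, ((xalg_PJ_eq_zero h k).1 hk).1⟩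
    · rintro ⟨u, rfl⟩
      refine ⟨pr (Pi J) (-J) u, (xalg_PJ_eq_zero h _).2 ⟨?_, ?_⟩, rfl⟩
      · rw [re1_pr, xa_Pi_Pi h]
      · rw [re1_pr, im1_pr, xa_J_Pi h]
        rfl
  have hinj : Function.Injective (((re1 : Cx U →L[ℝ] U) : Cx U →ₗ[ℝ] U).domRestrict
      (LinearMap.ker (PJ J : Cx U →ₗ[ℝ] Cx U))) := by
    rintro ⟨k, hk⟩ ⟨k', hk'⟩ e
    have e' : re1 k = re1 k' := e
    refine Subtype.ext (cx_ext e' ?_)
    rw [((xalg_PJ_eq_zero h k).1 hk).2, ((xalg_PJ_eq_zero h k').1 hk').2, e']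
  have h1 := LinearMap.finrank_range_of_inj hinj
  rw [LinearMap.range_domRestrict, hmap] at h1
  have h2 := LinearMap.finrank_range_add_finrank_ker (PJ J : Cx U →ₗ[ℝ] Cx U)
  have h3 : finrank ℝ (Cx U) = 2 * finrank ℝ U := by
    rw [(WithLp.prodContinuousLinearEquiv 2 ℝ U U).toLinearEquiv.finrank_eq, finrank_prod, two_mul]
  omega

end

section
variable {V : Type} [NormedAddCommGroup V] [InnerProductSpace ℝ V] [FiniteDimensional ℝ V]
  {M : Set V} {J : V → UU V →L[ℝ] UU V}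

/-- `(a, b) ↦ (a, 0) + i b`. -/
def jj : V × UU V →L[ℝ] Cx (UU V) :=
  pr (((umk : (V × ℝ) ≃L[ℝ] UU V) : V × ℝ →L[ℝ] UU V) ∘L ContinuousLinearMap.inl ℝ V ℝ
    ∘L ContinuousLinearMap.fst ℝ V (UU V)) (ContinuousLinearMap.snd ℝ V (UU V))

/-- Its left inverse. -/
def kk : Cx (UU V) →L[ℝ] V × UU V :=
  (ContinuousLinearMap.fst ℝ V ℝ ∘L
    (((umk : (V × ℝ) ≃L[ℝ] UU V).symm : UU V ≃L[ℝ] V × ℝ) : UU V →L[ℝ] V × ℝ) ∘L re1).prod im1

omit [FiniteDimensional ℝ V] in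
@[simp] theorem re1_jj (y : V × UU V) : re1 (jj y) = umk (y.1, 0) := rfl

omit [FiniteDimensional ℝ V] in
@[simp] theorem im1_jj (y : V × UU V) : im1 (jj y) = y.2 := rfl

omit [FiniteDimensional ℝ V] in
theorem kk_apply (k : Cx (UU V)) : kk k = ((umk.symm (re1 k)).1, im1 k) := rfl

/-- `u - Pi u` is orthogonal to the range `Tan M x ⊕ ℝ` of `Pi`. -/
theorem xa_perp (h : JData M J) {x : V} (hx : x ∈ M) (u : UU V) :
    (umk.symm (u - Pi (J x) u)).2 = 0 ∧ (umk.symm (u - Pi (J x) u)).1 ∈ (Tan M x)ᗮ := by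
  have hJ := h.isJ x hx
  have key : ∀ w : V × ℝ, w.1 ∈ Tan M x →
      ⟪w.1, (umk.symm (u - Pi (J x) u)).1⟫ + w.2 * (umk.symm (u - Pi (J x) u)).2 = 0 := by
    intro w hw
    rw [← umk_inner, ContinuousLinearEquiv.apply_symm_apply, ← (h.rng x hx w).2 hw,
      xa_Pi_symm hJ, map_sub, xa_Pi_Pi hJ, sub_self, inner_zero_right]
  constructor
  · simpa using key (0, 1) (Submodule.zero_mem _)
  · rw [Submodule.mem_orthogonal]
    intro w hw
    simpa using key (w, 0) hw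

theorem xa_jj_kk_SJ (h : JData M J) {x : V} (hx : x ∈ M) (k : Cx (UU V)) :
    jj (kk (SJ (J x) k)) = SJ (J x) k := by
  apply cx_ext
  · rw [re1_jj, kk_apply, xalg_re_SJ, ← (xa_perp h hx (re1 k)).1]
    exact umk.apply_symm_apply _
  · rfl

theorem xa_kk_SJ_perp (h : JData M J) {x : V} (hx : x ∈ M) (k : Cx (UU V)) :
    (kk (SJ (J x) k)).1 ∈ (Tan M x)ᗮ := by
  exact (xa_perp h hx (re1 k)).2

theorem xa_LJ_jj_eq_zero (h : JData M J) {x : V} (hx : x ∈ M) (y : V × UU V) :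
    LJ (J x) (jj y) = 0 ↔ y.1 ∈ Tan M x ∧ y.2 = 0 := by
  rw [xa_LJ_eq_zero (h.isJ x hx), re1_jj, im1_jj, h.rng x hx]

/-- The real coordinate of the real part is invisible to `LJ`. -/
theorem xa_LJ_jj (h : JData M J) {x : V} (hx : x ∈ M) (k : Cx (UU V)) :
    LJ (J x) (jj (kk k)) = LJ (J x) k := by
  rw [← sub_eq_zero, ← map_sub, xa_LJ_eq_zero (h.isJ x hx)]
  refine ⟨?_, ?_⟩
  · have e : re1 (jj (kk k) - k) = umk (0, -(umk.symm (re1 k)).2) := by
      rw [map_sub, re1_jj, kk_apply]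
      apply umk.symm.injective
      rw [map_sub, ContinuousLinearEquiv.symm_apply_apply, ContinuousLinearEquiv.symm_apply_apply]
      ext <;> simp
    rw [e, h.rng x hx]
    exact Submodule.zero_mem _
  · rw [map_sub, im1_jj, kk_apply, sub_self]

theorem xalg_finrank_prod (T : Submodule ℝ V) :
    finrank ℝ (T.prod (⊤ : Submodule ℝ ℝ)) = finrank ℝ T + 1 := by
  have e : (T × ℝ) ≃ₗ[ℝ] (T.prod (⊤ : Submodule ℝ ℝ)) :=
    { toFun := fun y => ⟨(y.1.1, y.2), ⟨y.1.2, trivial⟩⟩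
      invFun := fun y => (⟨y.1.1, y.2.1⟩, y.1.2)
      map_add' := fun _ _ => rfl
      map_smul' := fun _ _ => rfl
      left_inv := fun _ => rfl
      right_inv := fun _ => rfl }
  rw [← e.finrank_eq, finrank_prod, finrank_self]

theorem xa_rank (h : JData M J) {d : ℕ} (hM : IsSub d M) {x : V} (hx : x ∈ M) :
    finrank ℝ (LinearMap.range (PJ (J x) : Cx (UU V) →ₗ[ℝ] Cx (UU V)))
      = 2 * (finrank ℝ V + 1) - (d + 1) := by
  have hJ := h.isJ x hx
  have h1 := xa_finrank hJ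
  have h2 : finrank ℝ (UU V) = finrank ℝ V + 1 := by
    rw [← (umk (V := V)).toLinearEquiv.finrank_eq, finrank_prod, finrank_self]
  have h3 : LinearMap.range (Pi (J x) : UU V →ₗ[ℝ] UU V)
      = ((Tan M x).prod (⊤ : Submodule ℝ ℝ)).map
        ((umk (V := V)).toLinearEquiv : V × ℝ →ₗ[ℝ] UU V) := by
    ext u
    constructor
    · rintro ⟨w, rfl⟩
      refine ⟨umk.symm (Pi (J x) w), ⟨?_, trivial⟩, umk.apply_symm_apply _⟩
      refine (h.rng x hx _).1 ?_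
      rw [ContinuousLinearEquiv.apply_symm_apply, xa_Pi_Pi hJ]
    · rintro ⟨w, hw, rfl⟩
      exact ⟨umk w, (h.rng x hx w).2 hw.1⟩
  have h4 : finrank ℝ (LinearMap.range (Pi (J x) : UU V →ₗ[ℝ] UU V)) = d + 1 := by
    rw [h3, LinearEquiv.finrank_map_eq, xalg_finrank_prod, hM.finrank hx]
  omega

end

end Pool.Agent.Lib.MP_ccffa6_gt.EX
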