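import Pool.Agent.Lib.MP_f8e628_co.LLL

noncomputable section

namespace Pool.Agent.Lib.MP_ccffa6_gt.EX

theorem xlll_swap {ι G : Type} [Fintype ι] [DecidableEq ι] [Fintype G] (p : ι)
    (F : (ι → G) → ℝ) :
    (Fintype.card G : ℝ) * ∑ c, F c = ∑ c, ∑ g, F (Function.update c p g) := by
  have h := Equiv.sum_comp (Function.Involutive.toPerm
    (fun x : (ι → G) × G => (Function.update x.1 p x.2, x.1 p)) fun x => by simp) fun x => F x.1
  rw [Fintype.sum_prod_type, Fintype.sum_prod_type] at h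
  simpa [Finset.mul_sum] using h.symm

open Pool.Agent.Lib.MP_f8e628_co in
/-- Local lemma on a product of finite sets. -/
theorem lll_prod {ι G : Type} [Fintype ι] [DecidableEq ι] [Fintype G] [Nonempty G]
    (near : ι → ι → Prop) (A : ι → (ι → G) → Prop) (d π : ℝ) (hd1 : 1 ≤ d) (hπ : 0 ≤ π)
    (h4 : 4 * π * d ≤ 1)
    (hd : ∀ p, (Nat.card {p' // near p' p} : ℝ) ≤ d)
    (hdep : ∀ p c c', (∀ q, near p q → c q = c' q) → A p c → A p c')
    (hp : ∀ p c, (Nat.card {g : G // A p (Function.update c p g)} : ℝ) ≤ π * Fintype.card G) :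
    ∃ c, ∀ p, ¬ A p c := by
  classical
  have hΩ : (0 : ℝ) < Fintype.card (ι → G) := Nat.cast_pos.2 Fintype.card_pos
  have hG : (0 : ℝ) < Fintype.card G := Nat.cast_pos.2 Fintype.card_pos
  obtain ⟨c, -, hc⟩ := lll (fun _ : ι → G => (Fintype.card (ι → G) : ℝ)⁻¹)
    (fun _ => (inv_pos.2 hΩ).le)
    (by rw [Finset.sum_const, Finset.card_univ, nsmul_eq_mul, mul_inv_cancel₀ hΩ.ne']) A
    (fun p => Finset.univ.filter fun p' => near p' p) d π
    (fun p => by rw [← Fintype.card_subtype, ← Nat.card_eq_fintype_card]; exact hd p) hd1 hπ h4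
    fun p S hS => by
      unfold mass
      rw [← Finset.mul_sum, ← Finset.mul_sum, mul_left_comm]
      refine mul_le_mul_of_nonneg_left (le_of_mul_le_mul_left ?_ hG) (inv_pos.2 hΩ).le
      rw [xlll_swap p, ← mul_assoc, Finset.mul_sum]
      refine Finset.sum_le_sum fun c _ => ?_
      have hB : ∀ g, (∀ i ∈ S, ¬A i (Function.update c p g)) ↔ ∀ i ∈ S, ¬A i c := fun g =>
        forall₂_congr fun i hi => by
          have e : ∀ q, near i q → Function.update c p g q = c q := fun q hq =>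
            Function.update_of_ne (fun h => hS i hi (by simpa [h] using hq)) _ _
          exact not_congr ⟨hdep i _ _ e, hdep i _ _ fun q hq => (e q hq).symm⟩
      simp only [ind_and, hB]
      rw [← Finset.sum_mul, sum_ind_eq_card, ← Fintype.card_subtype, ← Nat.card_eq_fintype_card,
        mul_comm _ π]
      exact mul_le_mul_of_nonneg_right (hp p c) (ind_nonneg _)
  exact ⟨c, hc⟩

/-- A set of grid points whose fibres over the coordinates outside `T` have diameter at most
`b`. -/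
theorem card_le_of_diam {J : Type} [Fintype J] [DecidableEq J] (n b : ℕ) (T : Finset J)
    (S : Set (J → Fin n))
    (h : ∀ g ∈ S, ∀ g' ∈ S, (∀ i, i ∉ T → g i = g' i) → ∀ i ∈ T,
      |((g i : ℕ) : ℤ) - ((g' i : ℕ) : ℤ)| ≤ b) :
    S.ncard ≤ (2 * b + 1) ^ T.card * n ^ (Fintype.card J - T.card) := by
  classical
  rw [Set.ncard_eq_toFinset_card' S]
  refine (Finset.card_le_mul_card_image (f := fun g (i : {i // i ∉ T}) => g i) _
    ((2 * b + 1) ^ T.card) fun a ha => ?_).trans (Nat.mul_le_mul_left _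
      ((Finset.card_le_univ _).trans (by simp [Fintype.card_subtype_compl])))
  obtain ⟨g0, h0, rfl⟩ := Finset.mem_image.1 ha
  refine (Finset.card_le_card_of_injOn (t := Fintype.piFinset fun i : T =>
    Finset.Icc (((g0 i : ℕ) : ℤ) - b) (((g0 i : ℕ) : ℤ) + b)) (fun g i => ((g i : ℕ) : ℤ))
    (fun g hg => ?_) fun g hg g' hg' e => ?_).trans ?_
  · obtain ⟨h1, h2⟩ := Finset.mem_filter.1 (Finset.mem_coe.1 hg)
    refine Finset.mem_coe.2 (Fintype.mem_piFinset.2 fun i => ?_)
    have := abs_le.1 (h g (Set.mem_toFinset.1 h1) g0 (Set.mem_toFinset.1 h0)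
      (fun j hj => congrFun h2 ⟨j, hj⟩) i i.2)
    exact Finset.mem_Icc.2 ⟨by dsimp only; omega, by dsimp only; omega⟩
  · funext i
    by_cases hi : i ∈ T
    · exact Fin.ext (Nat.cast_injective (R := ℤ) (congrFun e ⟨i, hi⟩))
    · exact congrFun ((Finset.mem_filter.1 (Finset.mem_coe.1 hg)).2.trans
        (Finset.mem_filter.1 (Finset.mem_coe.1 hg')).2.symm) ⟨i, hi⟩
  · rw [Fintype.card_piFinset, Finset.prod_congr rfl fun i _ => (by
      rw [Int.card_Icc]; omega : _ = 2 * b + 1)]
    simp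

end Pool.Agent.Lib.MP_ccffa6_gt.EX
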