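import Pool.Agent.Lib.MP_ccffa6_gt.EX.XJet
import Pool.Agent.Lib.MP_ccffa6_gt.EX.XLll

noncomputable section

namespace Pool.Agent.Lib.MP_ccffa6_gt.EX

theorem xbad_coord {N r n : ℕ} {h : ℝ} (hh : 0 < h) (g g' : Grid N r n)
    (x : Option (Fin N) × Fin r × Bool) {b : ℕ}
    (hb : ‖gridVec h g x.1 x.2.1 - gridVec h g' x.1 x.2.1‖ ≤ b * h) :
    |((g x : ℕ) : ℤ) - ((g' x : ℕ) : ℤ)| ≤ b := by
  obtain ⟨j, i, s⟩ := x
  have h1 : |h * (((g (j, i, s) : ℕ) : ℝ) - ((g' (j, i, s) : ℕ) : ℝ))| ≤ b * h := by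
    refine le_trans ?_ hb
    cases s
    · refine le_of_eq_of_le ?_ (Complex.abs_re_le_norm _)
      simp [gridVec, mul_sub]
    · refine le_of_eq_of_le ?_ (Complex.abs_im_le_norm _)
      simp [gridVec, mul_sub]
  rw [abs_mul, abs_of_pos hh, mul_comm] at h1
  exact_mod_cast le_of_mul_le_mul_right h1 hh



/-- Number of bad grid points for one test.
Sketch: `card_le_of_diam` with `T = {(none, i, s)} ∪ {(some j, k0, s)}` (cardinality
`2 r + 2 N`). Let `g, g'` be bad and agree off `T`, `δ j = gridVec h g j - gridVec h g' j`,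
`z j = y ⬝ᵥ δ j`. Then `∑ j, a0 k j * z j = y ⬝ᵥ (F g k - F g' k)` has norm `≤ (4 r + 2) β`
(`norm_dot_le`), so `‖z‖ ≤ C (4 r + 2) β`. For `j = some j'`, `δ j` is supported at `k0`, and
`δ j k0 = z j`. Then `a0 none none • δ none = F g none - F g' none - ∑ j', a0 none (some j') • δ (some j')`
gives `‖δ none‖ ≤ C (2 β + N C C (4 r + 2) β)`. Real and imaginary parts of `δ j i` are
`h * (g (j,i,s) - g' (j,i,s))`. -/
theorem bad_count {N r n : ℕ} {C h β : ℝ} (hC : 1 ≤ C) (hh : 0 < h) (hβ : 0 ≤ β)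
    (a0 : Option (Fin N) → Option (Fin N) → ℂ) (hbd : ∀ k j, ‖a0 k j‖ ≤ C)
    (hnd : ∀ z : Option (Fin N) → ℂ, ‖z‖ ≤ C * ‖fun k => ∑ j, a0 k j * z j‖)
    (hnd0 : 1 ≤ C * ‖a0 none none‖) (k0 : Fin r) (y : Fin r → ℂ) (hy : y k0 = 1) (hy2 : ‖y‖ ≤ 2)
    (F : Grid N r n → Option (Fin N) → Fin r → ℂ)
    (hF : ∀ g g' k, F g k - F g' k = ∑ j, a0 k j • (gridVec h g j - gridVec h g' j))
    (b : ℕ) (hb : C ^ 3 * (N + 1) * (4 * r + 2) * β ≤ b * h) :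
    {g | ‖F g none‖ ≤ β ∧ ∀ k, ‖y ⬝ᵥ F g (some k)‖ ≤ β}.ncard
      ≤ (2 * b + 1) ^ (2 * r + 2 * N) * n ^ ((N + 1) * (r * 2) - (2 * r + 2 * N)) := by
  classical
  let T : Finset (Option (Fin N) × Fin r × Bool) :=
    Finset.univ.filter fun x => x.1 = none ∨ x.2.1 = k0
  have hT : T.card = 2 * r + 2 * N := by
    rw [Finset.card_filter]
    simp only [Fintype.sum_prod_type, Fintype.sum_option]
    simp [Finset.sum_ite_eq']
    ring
  have hJ : Fintype.card (Option (Fin N) × Fin r × Bool) = (N + 1) * (r * 2) := by simp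
  rw [← hJ, ← hT]
  refine card_le_of_diam n b T _ fun g hg g' hg' he x _ => xbad_coord hh g g' x (le_trans ?_ hb)
  set δ : Option (Fin N) → Fin r → ℂ := fun j => gridVec h g j - gridVec h g' j with hδ
  set B : ℝ := (4 * r + 2) * β with hB
  have hr : (0 : ℝ) ≤ r := Nat.cast_nonneg r
  have hN : (0 : ℝ) ≤ N := Nat.cast_nonneg N
  have hC0 : 0 ≤ C := by linarith
  have hB2 : 2 * β ≤ B := by nlinarith [mul_nonneg hr hβ]
  have hB0 : 0 ≤ B := by linarith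
  have h0 : ‖F g none - F g' none‖ ≤ 2 * β :=
    (norm_sub_le _ _).trans (by linarith [hg.1, hg'.1])
  have h1 : ‖fun j => y ⬝ᵥ δ j‖ ≤ C * B := by
    refine (hnd _).trans (mul_le_mul_of_nonneg_left ((pi_norm_le_iff_of_nonneg hB0).2 fun k => ?_) hC0)
    have e : ∑ j, a0 k j * y ⬝ᵥ δ j = y ⬝ᵥ (F g k - F g' k) := by
      rw [hF, dotProduct_sum]
      exact Finset.sum_congr rfl fun j _ => by rw [dotProduct_smul, smul_eq_mul]
    rw [e]
    cases k with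
    | none =>
      refine (norm_dot_le _ _).trans ?_
      have : (r : ℝ) * ‖y‖ * ‖F g none - F g' none‖ ≤ r * 2 * (2 * β) := by gcongr
      nlinarith
    | some k =>
      rw [dotProduct_sub]
      exact (norm_sub_le _ _).trans (by linarith [hg.2 k, hg'.2 k])
  have h2 : ∀ j i, i ≠ k0 → δ (some j) i = 0 := fun j i hi => by
    have e : ∀ s, g (some j, i, s) = g' (some j, i, s) := fun s => he _ (by simp [T, hi])
    simp [hδ, gridVec, e]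
  have h3 : ∀ j i, ‖δ (some j) i‖ ≤ C * B := fun j i => by
    by_cases hi : i = k0
    · have e : y ⬝ᵥ δ (some j) = δ (some j) k0 := by
        rw [dotProduct, Finset.sum_eq_single k0, hy, one_mul]
        · intro i _ hi
          rw [h2 j i hi, mul_zero]
        · exact fun h => absurd (Finset.mem_univ _) h
      rw [hi, ← e]
      exact (norm_le_pi_norm (fun j => y ⬝ᵥ δ j) (some j)).trans h1
    · rw [h2 j i hi, norm_zero]
      positivity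
  have hC3 : C ≤ C ^ 3 := by nlinarith [mul_nonneg hC0 (by nlinarith : 0 ≤ C ^ 2 - 1)]
  have hCB : C * B ≤ C ^ 3 * B := mul_le_mul_of_nonneg_right hC3 hB0
  have hNB : 0 ≤ C ^ 3 * N * B := by positivity
  have e3 : C ^ 3 * (N + 1) * (4 * r + 2) * β = C ^ 3 * N * B + C ^ 3 * B := by rw [hB]; ring
  obtain ⟨j, i, s⟩ := x
  change ‖δ j i‖ ≤ _
  rw [e3]
  cases j with
  | some j => linarith [h3 j i]
  | none =>
    have e : a0 none none * δ none i =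
        (F g none - F g' none) i - ∑ j, a0 none (some j) * δ (some j) i := by
      rw [hF, Finset.sum_apply, Fintype.sum_option, eq_sub_iff_add_eq]
      rfl
    have h4 : ‖∑ j, a0 none (some j) * δ (some j) i‖ ≤ N * (C * (C * B)) := by
      refine (norm_sum_le _ _).trans ((Finset.sum_le_card_nsmul _ _ (C * (C * B)) fun j _ => ?_).trans ?_)
      · rw [norm_mul]
        exact mul_le_mul (hbd _ _) (h3 j i) (norm_nonneg _) hC0
      · simp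
    have h5 : ‖a0 none none‖ * ‖δ none i‖ ≤ B + N * (C * (C * B)) := by
      rw [← norm_mul, e]
      exact (norm_sub_le _ _).trans (by linarith [norm_le_pi_norm (F g none - F g' none) i])
    calc ‖δ none i‖ ≤ C * ‖a0 none none‖ * ‖δ none i‖ := le_mul_of_one_le_left (norm_nonneg _) hnd0
      _ ≤ C * (B + N * (C * (C * B))) := by
        rw [mul_assoc]
        exact mul_le_mul_of_nonneg_left h5 hC0
      _ = C ^ 3 * N * B + C * B := by ring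
      _ ≤ _ := by linarith

/-- From the finitely many tests to all points.
Sketch: for `y ≠ 0` take `k0` with `‖y k0‖ = ‖y‖`, `y' = (y k0)⁻¹ • y`; if the claim fails,
`‖y' ⬝ᵥ F (some k) u‖ < 1 / n` for all `k`; take `t ∈ T` near `u`, `y'' ∈ Y k0` near `y'` and write
`y'' ⬝ᵥ G t = y' ⬝ᵥ F u + (y'' - y') ⬝ᵥ F u + y'' ⬝ᵥ (G t - F u)`. -/
theorem good_of_tests {I : Type} [Fintype I] {N r n : ℕ} (hn : 0 < n) {L β : ℝ} (hL : 0 ≤ L)
    (F G : Option (Fin N) → (I → ℝ) → Fin r → ℂ)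
    (hbd : ∀ k u, ‖u‖ ≤ 1 → ‖F (some k) u‖ ≤ L)
    (hlip : ∀ k u u', ‖u‖ ≤ 1 → ‖u'‖ ≤ 1 → ‖F k u - F k u'‖ ≤ L * ‖u - u'‖)
    (htail : ∀ k u, ‖u‖ ≤ 1 → ‖F k u - G k u‖ ≤ 1 / n)
    (T : Finset (I → ℝ)) (hT1 : ∀ t ∈ T, ‖t‖ ≤ 1)
    (hT : ∀ u : I → ℝ, ‖u‖ ≤ 1 → ∃ t ∈ T, ‖u - t‖ ≤ 1 / n)
    (Y : Fin r → Finset (Fin r → ℂ)) (hY1 : ∀ k0, ∀ t ∈ Y k0, ‖t‖ ≤ 2)
    (hY : ∀ k0, ∀ y : Fin r → ℂ, y k0 = 1 → ‖y‖ ≤ 1 → ∃ t ∈ Y k0, ‖y - t‖ ≤ 2 / n)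
    (hβ : 2 + L + r * (4 * L + 2) ≤ β)
    (hgood : ∀ t ∈ T, ∀ k0, ∀ y ∈ Y k0,
      ¬ (‖G none t‖ ≤ β / n ∧ ∀ k, ‖y ⬝ᵥ G (some k) t‖ ≤ β / n))
    (u : I → ℝ) (hu : ‖u‖ ≤ 1) (h0 : ‖F none u‖ ≤ 1 / n) (y : Fin r → ℂ) :
    1 / n * ‖y‖ ≤ ‖fun k : Fin N => y ⬝ᵥ F (some k) u‖ := by
  by_contra hlt
  rw [not_le] at hlt
  have hn' : (0 : ℝ) < n := Nat.cast_pos.2 hn
  have hr : (0 : ℝ) ≤ r := Nat.cast_nonneg r
  have hy0 : y ≠ 0 := fun e => by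
    rw [e, norm_zero, mul_zero] at hlt
    exact absurd hlt (not_lt.2 (norm_nonneg _))
  obtain ⟨i0, -⟩ := Function.ne_iff.1 hy0
  obtain ⟨k0, -, hk0⟩ := Finset.exists_max_image Finset.univ (fun i => ‖y i‖) ⟨i0, Finset.mem_univ _⟩
  have e0 : ‖y k0‖ = ‖y‖ := le_antisymm (norm_le_pi_norm y k0)
    ((pi_norm_le_iff_of_nonneg (norm_nonneg _)).2 fun i => hk0 i (Finset.mem_univ i))
  have hp : 0 < ‖y‖ := norm_pos_iff.2 hy0
  have hk : y k0 ≠ 0 := norm_pos_iff.1 (e0 ▸ hp)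
  obtain ⟨t, ht, hut⟩ := hT u hu
  obtain ⟨z, hz, hyz⟩ := hY k0 ((y k0)⁻¹ • y) (inv_mul_cancel₀ hk)
    (by rw [norm_smul, norm_inv, e0, inv_mul_cancel₀ hp.ne'])
  have h1 : ∀ k, ‖G k t - F k u‖ ≤ (L + 1) / n := fun k => by
    have e : G k t - F k u = -((F k u - F k t) + (F k t - G k t)) := by abel
    have h2 := (hlip k u t hu (hT1 t ht)).trans (mul_le_mul_of_nonneg_left hut hL)
    rw [e, norm_neg, add_div]
    refine (norm_add_le _ _).trans (add_le_add ?_ (htail k t (hT1 t ht)))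
    rwa [mul_one_div] at h2
  have hrL : 0 ≤ (r : ℝ) * (4 * L + 2) := by positivity
  refine hgood t ht k0 z hz ⟨?_, fun k => ?_⟩
  · calc ‖G none t‖ = ‖F none u + (G none t - F none u)‖ := by rw [add_sub_cancel]
      _ ≤ 1 / n + (L + 1) / n := (norm_add_le _ _).trans (add_le_add h0 (h1 none))
      _ = (2 + L) / n := by ring
      _ ≤ β / n := by gcongr; linarith
  · have e : z ⬝ᵥ G (some k) t = ((y k0)⁻¹ • y) ⬝ᵥ F (some k) u -
        ((y k0)⁻¹ • y - z) ⬝ᵥ F (some k) u + z ⬝ᵥ (G (some k) t - F (some k) u) := by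
      rw [sub_dotProduct, dotProduct_sub]
      ring
    have h2 : ‖((y k0)⁻¹ • y) ⬝ᵥ F (some k) u‖ ≤ 1 / n := by
      rw [smul_dotProduct, norm_smul, norm_inv, e0, inv_mul_le_iff₀ hp, mul_comm]
      exact (norm_le_pi_norm (fun k : Fin N => y ⬝ᵥ F (some k) u) k).trans hlt.le
    have h3 : ‖((y k0)⁻¹ • y - z) ⬝ᵥ F (some k) u‖ ≤ r * (2 / n) * L :=
      (norm_dot_le _ _).trans (by have := hbd k u hu; gcongr)
    have h4 : ‖z ⬝ᵥ (G (some k) t - F (some k) u)‖ ≤ r * 2 * ((L + 1) / n) :=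
      (norm_dot_le _ _).trans (by have := hY1 k0 z hz; have := h1 (some k); gcongr)
    calc ‖z ⬝ᵥ G (some k) t‖ ≤ 1 / n + r * (2 / n) * L + r * 2 * ((L + 1) / n) := by
          rw [e]
          exact (norm_add_le _ _).trans (add_le_add ((norm_sub_le _ _).trans (add_le_add h2 h3)) h4)
      _ = (1 + r * (4 * L + 2)) / n := by ring
      _ ≤ β / n := by gcongr; linarith

/-- Choice of the truncation radius and of the mesh: `n = ⌈4 C1⌉₊ (2 R + 1) ^ m + 1`,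
`n ≤ (⌈4 C1⌉₊ 2 ^ m + 1) (1 + R) ^ m`, `R` large. -/
theorem exists_R_n (m : ℕ) (C1 L : ℝ) (hC1 : 0 ≤ C1) (hL : 0 ≤ L) :
    ∃ R n : ℕ, 0 < n ∧ 4 * (C1 / n) * (2 * R + 1) ^ m ≤ 1 ∧ L / (1 + R) ^ (m + 1) ≤ 1 / n := by
  set A : ℕ := ⌈4 * C1⌉₊ with hA
  set R : ℕ := ⌈L * (A * 2 ^ m + 1)⌉₊ with hR
  have h1 : 4 * C1 ≤ A := Nat.le_ceil _
  have h2 : L * (A * 2 ^ m + 1) ≤ R := Nat.le_ceil _
  have hR0 : (0 : ℝ) ≤ R := Nat.cast_nonneg R
  have hA0 : (0 : ℝ) ≤ A := Nat.cast_nonneg A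
  refine ⟨R, A * (2 * R + 1) ^ m + 1, Nat.succ_pos _, ?_, ?_⟩ <;> push_cast
  · have h3 : (0 : ℝ) < (2 * R + 1) ^ m := by positivity
    rw [← mul_div_assoc, div_mul_eq_mul_div, div_le_one (by positivity)]
    nlinarith
  · rw [div_le_div_iff₀ (by positivity) (by positivity), one_mul]
    have h3 : (2 * R + 1 : ℝ) ^ m ≤ 2 ^ m * (1 + R) ^ m := by
      rw [← mul_pow]
      gcongr
      linarith
    have h4 : (1 : ℝ) ≤ (1 + R) ^ m := one_le_pow₀ (by linarith)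
    calc L * (A * (2 * R + 1) ^ m + 1) ≤ L * (A * (2 ^ m * (1 + R) ^ m) + (1 + R) ^ m) := by gcongr
      _ = L * (A * 2 ^ m + 1) * (1 + R) ^ m := by ring
      _ ≤ (1 + R) * (1 + R) ^ m := by gcongr; linarith
      _ = (1 + R) ^ (m + 1) := by ring

/-- The union bound over the tests, numerically. -/
theorem count_le {m N r n b : ℕ} (hm : m ≤ 2 * N + 1) (hr : 0 < r) (hn : 0 < n) :
    (((2 * n + 1) ^ m * (r * ((2 * n + 1) ^ (2 * r - 2) *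
        ((2 * b + 1) ^ (2 * r + 2 * N) * n ^ ((N + 1) * (r * 2) - (2 * r + 2 * N))))) : ℕ) : ℝ)
      ≤ (r * 3 ^ (2 * r + 2 * N) * (2 * b + 1) ^ (2 * r + 2 * N) : ℝ) / n
        * (n : ℝ) ^ ((N + 1) * (r * 2)) := by
  have hn' : (0 : ℝ) < n := Nat.cast_pos.2 hn
  obtain ⟨r, rfl⟩ : ∃ s, r = s + 1 := ⟨r - 1, by omega⟩
  have e1 : 2 * (r + 1) - 2 = 2 * r := by omega
  have e2 : (N + 1) * ((r + 1) * 2) = 2 * (r + 1) + 2 * N + 2 * (N * r) := by ring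
  rw [e1, e2, Nat.add_sub_cancel_left, div_mul_eq_mul_div, le_div_iff₀ hn']
  have h1 : (2 * n + 1) ^ m ≤ (3 * n) ^ (2 * N + 1) :=
    (Nat.pow_le_pow_left (by omega) m).trans (Nat.pow_le_pow_right (by omega) hm)
  have h2 : (2 * n + 1) ^ (2 * r) ≤ (3 * n) ^ (2 * r) := Nat.pow_le_pow_left (by omega) _
  have h3 : (2 * n + 1) ^ m * ((r + 1) * ((2 * n + 1) ^ (2 * r) *
      ((2 * b + 1) ^ (2 * (r + 1) + 2 * N) * n ^ (2 * (N * r))))) * n ≤
      (r + 1) * 3 ^ (2 * (r + 1) + 2 * N) * (2 * b + 1) ^ (2 * (r + 1) + 2 * N) *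
        n ^ (2 * (r + 1) + 2 * N + 2 * (N * r)) :=
    calc _ ≤ (3 * n) ^ (2 * N + 1) * ((r + 1) * ((3 * n) ^ (2 * r) *
          ((2 * b + 1) ^ (2 * (r + 1) + 2 * N) * n ^ (2 * (N * r))))) * (3 * n) := by gcongr; omega
      _ = _ := by ring
  exact_mod_cast h3

end Pool.Agent.Lib.MP_ccffa6_gt.EX
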