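import Pool.Agent.Lib.MP_ccffa6_gt.EX.XCore
import Pool.Agent.Lib.MP_ccffa6_gt.EX.FDefs

open Set Module
open scoped ContDiff

noncomputable section

namespace Pool.Agent.Lib.MP_ccffa6_gt.EX

/-- Complex coordinates: for a linear equivalence `b : U ≃L[ℝ] (Fin D → ℝ)` put
`e k j = b (re1 k) j + b (im1 k) j * I`. -/
theorem exists_cx_coord (U : Type) [NormedAddCommGroup U] [InnerProductSpace ℝ U]
    [FiniteDimensional ℝ U] :
    ∃ (D : ℕ) (e : Cx U ≃L[ℝ] (Fin D → ℂ)), ∀ k, e (II k) = Complex.I • e k := by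
  obtain ⟨b⟩ : Nonempty (U ≃ₗ[ℝ] (Fin (finrank ℝ U) → ℝ)) := ⟨(finBasis ℝ U).equivFun⟩
  refine ⟨finrank ℝ U, LinearEquiv.toContinuousLinearEquiv
    { toFun := fun k j => (b (re1 k) j : ℂ) + (b (im1 k) j : ℂ) * Complex.I
      map_add' := fun k k' => funext fun j => by
        simp only [map_add, Pi.add_apply, Complex.ofReal_add]
        ring
      map_smul' := fun c k => funext fun j => by
        simp only [map_smul, Pi.smul_apply, smul_eq_mul, Complex.ofReal_mul, RingHom.id_apply,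
          Complex.real_smul]
        ring
      invFun := fun z => WithLp.toLp 2 (b.symm fun j => (z j).re, b.symm fun j => (z j).im)
      left_inv := fun k => cx_ext (b.symm_apply_eq.2 (funext fun j => by simp))
        (b.symm_apply_eq.2 (funext fun j => by simp))
      right_inv := fun z => funext fun j => by
        change ((b (b.symm fun j => (z j).re) j : ℝ) : ℂ) +
          ((b (b.symm fun j => (z j).im) j : ℝ) : ℂ) * Complex.I = z j
        rw [b.apply_symm_apply, b.apply_symm_apply, Complex.re_add_im] }, fun k => funext fun j => ?_⟩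
  change ((b (-im1 k) j : ℝ) : ℂ) + ((b (re1 k) j : ℝ) : ℂ) * Complex.I =
    Complex.I * ((b (re1 k) j : ℂ) + (b (im1 k) j : ℂ) * Complex.I)
  rw [map_neg, Pi.neg_apply, Complex.ofReal_neg]
  linear_combination (-(b (im1 k) j : ℂ)) * Complex.I_mul_I

section
variable {E C : Type} [NormedAddCommGroup E] [NormedSpace ℝ E] [NormedAddCommGroup C]
  [NormedSpace ℝ C] [FiniteDimensional ℝ C]

/-- `k ↦ T (R k)` maps the subspace `{k | P k = k}` to itself, `‖T (R k)‖ ≥ ‖k‖ / 2` there, so it is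
injective, hence onto. -/
theorem solve_of_approx (T : E →L[ℝ] C) (P : C →L[ℝ] C) (R : C →L[ℝ] E)
    (hT : ∀ v, P (T v) = T v) (h : ∀ k, ‖T (R k) - P k‖ ≤ 1 / 2 * ‖k‖) (k : C) (hk : P k = k) :
    ∃ v, T v = k ∧ ‖v‖ ≤ 2 * ‖R‖ * ‖k‖ := by
  have low : ∀ u, P u = u → ‖u‖ ≤ 2 * ‖T (R u)‖ := fun u hu => by
    have h1 := h u
    have h2 := norm_sub_norm_le u (T (R u))
    rw [hu, norm_sub_rev] at h1
    linarith
  have mem : ∀ u, u ∈ LinearMap.eqLocus (P : C →ₗ[ℝ] C) LinearMap.id ↔ P u = u := fun u => Iff.rfl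
  have inj : Function.Injective (((T ∘L R : C →L[ℝ] C) : C →ₗ[ℝ] C).restrict
      (p := LinearMap.eqLocus (P : C →ₗ[ℝ] C) LinearMap.id)
      (q := LinearMap.eqLocus (P : C →ₗ[ℝ] C) LinearMap.id) fun u _ => (mem _).2 (hT (R u))) := by
    refine (injective_iff_map_eq_zero _).2 fun u hu => Subtype.ext ?_
    have h1 : T (R u) = 0 := congrArg Subtype.val hu
    have h2 := low u ((mem _).1 u.2)
    rw [h1, norm_zero, mul_zero] at h2
    exact norm_le_zero_iff.1 h2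
  obtain ⟨u, hu⟩ := LinearMap.injective_iff_surjective.1 inj ⟨k, (mem _).2 hk⟩
  have h1 : T (R u) = k := congrArg Subtype.val hu
  have h2 := low u ((mem _).1 u.2)
  rw [h1] at h2
  refine ⟨R u, h1, (R.le_opNorm _).trans ?_⟩
  nlinarith [mul_le_mul_of_nonneg_left h2 (norm_nonneg R)]

/-- A real operator which commutes with `I`, as a complex operator. -/
theorem exists_cx_op {X : Type} [TopologicalSpace X] {D : ℕ} (I : C →L[ℝ] C)
    (e : C ≃L[ℝ] (Fin D → ℂ)) (he : ∀ k, e (I k) = Complex.I • e k) {K : Set X}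
    (P : X → C →L[ℝ] C) (hP : ContinuousOn P K) (hPI : ∀ x ∈ K, ∀ k, P x (I k) = I (P x k)) :
    ∃ P' : X → (Fin D → ℂ) →L[ℂ] (Fin D → ℂ), ContinuousOn P' K ∧
      ∀ x ∈ K, (∀ k, P' x (e k) = e (P x k)) ∧
        2 * finrank ℂ (LinearMap.range (P' x : (Fin D → ℂ) →ₗ[ℂ] (Fin D → ℂ)))
          = finrank ℝ (LinearMap.range (P x : C →ₗ[ℝ] C)) := by
  classical
  refine ⟨fun x => cols fun j => e (P x (e.symm (Pi.single j 1))), ?_, fun x hx => ?_⟩
  · refine continuousOn_finsetSum _ fun j _ => ?_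
    exact (ContinuousLinearMap.smulRightL ℂ (Fin D → ℂ) (Fin D → ℂ)
      (ContinuousLinearMap.proj j)).continuous.comp_continuousOn
        (e.continuous.comp_continuousOn (hP.clm_apply continuousOn_const))
  have hI : ∀ w, e.symm (Complex.I • w) = I (e.symm w) := fun w => by
    rw [e.symm_apply_eq, he, e.apply_symm_apply]
  have hc : ∀ (c : ℂ) w, e (P x (e.symm (c • w))) = c • e (P x (e.symm w)) := fun c w => by
    rw [← Complex.re_add_im c, add_smul, add_smul, mul_smul, mul_smul, Complex.coe_smul,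
      Complex.coe_smul, Complex.coe_smul, Complex.coe_smul]
    simp only [map_add, map_smul, hI, hPI x hx, he]
  have h1 : ∀ w, cols (fun j => e (P x (e.symm (Pi.single j 1)))) w = e (P x (e.symm w)) := fun w => by
    conv_rhs => rw [pi_eq_sum_univ' w]
    simp only [cols, ContinuousLinearMap.sum_apply, ContinuousLinearMap.smulRight_apply,
      ContinuousLinearMap.proj_apply, map_sum, hc]
  refine ⟨fun k => by rw [h1, e.symm_apply_apply], ?_⟩
  rw [← Complex.finrank_real_complex, finrank_mul_finrank,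
    ← e.toLinearEquiv.finrank_map_eq (LinearMap.range (P x : C →ₗ[ℝ] C))]
  have h2 : (LinearMap.range (P x : C →ₗ[ℝ] C)).map (e.toLinearEquiv : C →ₗ[ℝ] (Fin D → ℂ)) =
      (LinearMap.range ((cols fun j => e (P x (e.symm (Pi.single j 1))) :
        (Fin D → ℂ) →L[ℂ] (Fin D → ℂ)) : (Fin D → ℂ) →ₗ[ℂ] (Fin D → ℂ))).restrictScalars ℝ := by
    ext w
    constructor
    · rintro ⟨_, ⟨k, rfl⟩, rfl⟩
      exact ⟨e k, (h1 _).trans (by rw [e.symm_apply_apply]; rfl)⟩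
    · rintro ⟨u, rfl⟩
      exact ⟨_, ⟨e.symm u, rfl⟩, (h1 u).symm⟩
  rw [h2]
  rfl

/-- `exCore` in real terms. Sketch: apply `exCore` to `e ∘ s0`, `P'` of `exists_cx_op`, `r = q / 2`,
`ε / (‖e.symm‖ + 1)` and `L' = 4 ‖e‖ |C1| + 2 |L| ‖e‖ + 1`; `σ = e.symm ∘ σ'`,
`A x = e.symm ∘ A' x`; use `solve_of_approx` in `Fin D → ℂ` (scalars restricted to `ℝ`) with
`T = P' A' + e ∘ B`. -/
theorem exReal {N D : ℕ} (I : C →L[ℝ] C) (e : C ≃L[ℝ] (Fin D → ℂ))
    (he : ∀ k, e (I k) = Complex.I • e k) {K : Set (Hz N)} (hK : IsCompact K) (s0 : Hz N → C)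
    (P : Hz N → C →L[ℝ] C) (hs : ContinuousOn s0 K) (hP : ContinuousOn P K)
    (hPP : ∀ x ∈ K, ∀ k, P x (P x k) = P x k) (hPI : ∀ x ∈ K, ∀ k, P x (I k) = I (P x k))
    (q : ℕ) (hq : ∀ x ∈ K, finrank ℝ (LinearMap.range (P x : C →ₗ[ℝ] C)) = q)
    {ε : ℝ} (hε : 0 < ε) (C1 L : ℝ) :
    ∃ (σ : Hz N → C) (A : Hz N → (Fin N → ℂ) →L[ℝ] C), ContDiff ℝ ∞ σ ∧ (∀ x, ‖σ x‖ ≤ ε) ∧
      (∀ x v, fderiv ℝ σ x (hat x v) = A x v) ∧ (∀ x v, A x (Complex.I • v) = I (A x v)) ∧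
      ∀ x ∈ K, s0 x + P x (σ x) = 0 → ∀ B : (Fin N → ℂ) →L[ℝ] C, (∀ v, ‖B v‖ ≤ C1 * ‖v‖) →
        (∀ v, P x (B v) = B v) → ∀ k, P x k = k →
          ∃ v, P x (A x v) + B v = k ∧ L * ‖v‖ ≤ ‖k‖ := by
  obtain ⟨P', hP', h'⟩ := exists_cx_op I e he P hP hPI
  obtain ⟨a, ha0, ha⟩ : ∃ a : ℝ, 0 ≤ a ∧ ∀ k, ‖e k‖ ≤ a * ‖k‖ :=
    ⟨‖(e : C →L[ℝ] (Fin D → ℂ))‖, norm_nonneg _, (e : C →L[ℝ] (Fin D → ℂ)).le_opNorm⟩
  obtain ⟨b, hb0, hb⟩ : ∃ b : ℝ, 0 ≤ b ∧ ∀ w, ‖e.symm w‖ ≤ b * ‖w‖ :=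
    ⟨‖(e.symm : (Fin D → ℂ) →L[ℝ] C)‖, norm_nonneg _, (e.symm : (Fin D → ℂ) →L[ℝ] C).le_opNorm⟩
  have hPP' : ∀ x ∈ K, ∀ w, P' x (P' x w) = P' x w := fun x hx w => by
    obtain ⟨k, rfl⟩ := e.surjective w
    rw [(h' x hx).1, (h' x hx).1, hPP x hx]
  obtain ⟨θ, κ, hθ, -, H⟩ := exCore (q / 2) hK (fun x => e (s0 x)) P'
    (e.continuous.comp_continuousOn hs) hP' (fun x hx => ContinuousLinearMap.ext (hPP' x hx))
    (fun x hx => by have := (h' x hx).2.trans (hq x hx); omega)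
    (ε := ε / (b + 1)) (by positivity)
  obtain ⟨σ, A, hσ, hε', hA, H⟩ := H (4 * (a * |C1|) + 2 * (|L| * a))
  refine ⟨fun x => e.symm (σ x), fun x => (e.symm : (Fin D → ℂ) →L[ℝ] C) ∘L (A x).restrictScalars ℝ,
    e.symm.contDiff.comp hσ, fun x => (hb _).trans ?_, fun x v => ?_, fun x v => ?_,
    fun x hx h0 B hB hPB k hk => ?_⟩
  · calc b * ‖σ x‖ ≤ (b + 1) * (ε / (b + 1)) :=
          mul_le_mul (le_add_of_nonneg_right zero_le_one) (hε' x) (norm_nonneg _) (by positivity)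
      _ = ε := mul_div_cancel₀ _ (by positivity)
  · have := e.symm.comp_fderiv (f := σ) (x := x)
    exact (congrArg (fun T : Hz N →L[ℝ] C => T (hat x v)) this).trans (congrArg e.symm (hA x v))
  · change e.symm (A x (Complex.I • v)) = I (e.symm (A x v))
    rw [e.symm_apply_eq, he, e.apply_symm_apply, map_smul]
  have hz : e (s0 x) + P' x (σ x) = 0 := by
    have := congrArg e h0
    rwa [map_add, ← (h' x hx).1, e.apply_symm_apply, map_zero] at this
  obtain ⟨R, h1, h2, -⟩ := H x hx (by rw [hz, norm_zero]; exact hθ.le)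
  have hR := norm_nonneg R
  have p1 : 0 ≤ a * |C1| * ‖R‖ := by positivity
  have p2 : 0 ≤ |L| * a * ‖R‖ := by positivity
  obtain ⟨v, hv, hv'⟩ := solve_of_approx
    ((P' x ∘L A x).restrictScalars ℝ + (e : C →L[ℝ] (Fin D → ℂ)) ∘L B)
    ((P' x).restrictScalars ℝ) (R.restrictScalars ℝ)
    (fun v => by
      change P' x (P' x (A x v) + e (B v)) = P' x (A x v) + e (B v)
      rw [map_add, hPP' x hx, (h' x hx).1, hPB])
    (fun w => by
      change ‖P' x (A x (R w)) + e (B (R w)) - P' x w‖ ≤ _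
      have e1 : ‖P' x (A x (R w)) - P' x w‖ ≤ 1 / 4 * ‖w‖ :=
        ((P' x ∘L A x ∘L R - P' x).le_opNorm w).trans
          (mul_le_mul_of_nonneg_right h1 (norm_nonneg _))
      have e2 : ‖e (B (R w))‖ ≤ a * |C1| * ‖R‖ * ‖w‖ := by
        rw [mul_assoc, mul_assoc]
        exact (ha _).trans (mul_le_mul_of_nonneg_left ((hB _).trans (mul_le_mul (le_abs_self _)
          (R.le_opNorm w) (norm_nonneg _) (abs_nonneg _))) ha0)
      have e3 : a * |C1| * ‖R‖ * ‖w‖ ≤ 1 / 4 * ‖w‖ :=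
        mul_le_mul_of_nonneg_right (by linarith) (norm_nonneg _)
      rw [add_sub_right_comm]
      linarith [norm_add_le (P' x (A x (R w)) - P' x w) (e (B (R w)))])
    (e k) (by change P' x (e k) = e k; rw [(h' x hx).1, hk])
  refine ⟨v, e.injective ?_, ?_⟩
  · rw [← hv, map_add, ← (h' x hx).1]
    change P' x (e (e.symm (A x v))) + e (B v) = P' x (A x v) + e (B v)
    rw [e.apply_symm_apply]
  · rw [ContinuousLinearMap.norm_restrictScalars] at hv'
    calc L * ‖v‖ ≤ |L| * (2 * ‖R‖ * (a * ‖k‖)) :=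
          mul_le_mul (le_abs_self _) (hv'.trans (mul_le_mul_of_nonneg_left (ha k) (by positivity)))
            (norm_nonneg _) (abs_nonneg _)
      _ = 2 * (|L| * a * ‖R‖) * ‖k‖ := by ring
      _ ≤ 1 * ‖k‖ := mul_le_mul_of_nonneg_right (by linarith) (norm_nonneg _)
      _ = ‖k‖ := one_mul _

end

end Pool.Agent.Lib.MP_ccffa6_gt.EX
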