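import Pool.Agent.Lib.MP_ccffa6_gt.EX.XTrans
import Pool.Agent.Lib.MP_ccffa6_gt.K.Proj

open Set Filter Topology Module
open scoped ContDiff

noncomputable section

namespace Pool.Agent.Lib.MP_ccffa6_gt.EX

variable {H : Type} [NormedAddCommGroup H] [NormedSpace ℝ H] [FiniteDimensional ℝ H]
  {V : Type} [NormedAddCommGroup V] [NormedSpace ℝ V] [FiniteDimensional ℝ V]

theorem xreg_tv {A : Set V} {Γ : H × ℝ → V} {g : H → V} {z : H × ℝ}
    (hΓ : DifferentiableAt ℝ Γ z) (h : ∀ p, Γ (p, z.2) = g p) (ht : Tv g A z.1) : Tv Γ A z := by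
  intro w
  obtain ⟨v, hv⟩ := ht w
  have h1 : HasFDerivAt (Γ ∘ fun p : H => (p, z.2))
      ((fderiv ℝ Γ z).comp (ContinuousLinearMap.inl ℝ H ℝ)) z.1 :=
    HasFDerivAt.comp z.1 (f := fun p : H => (p, z.2)) hΓ.hasFDerivAt
      (hasFDerivAt_prodMk_left z.1 z.2)
  have h2 : (Γ ∘ fun p : H => (p, z.2)) = g := funext h
  rw [h2] at h1
  rw [h1.fderiv, ← h z.1] at hv
  exact ⟨(v, 0), hv⟩

/-- A transverse homotopy. Sketch: `κ τ = Real.smoothTransition (1 - τ)`,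
`Γ' (p, τ) = Γ₁ p + κ τ • (Γ₀ p - Γ₁ p)`, `β (p, τ) = expNegInvGlue τ * expNegInvGlue (1 - τ) * χ p`
with `χ` from `exists_cutoff` (equal to `1` on `C`, compact support), `Γ = Γ' + β • (e + L ·)` from
`exists_transverse`. If `β z = 0` and `Γ z ∈ A` then `z.1 ∈ C`, so `z.2 ≤ 0` or `1 ≤ z.2`, and
`fderiv Γ z (v, 0) = fderiv Γ₀ z.1 v` (chain rule with `p ↦ (p, z.2)`). The last set is closed and
contained in `(C ∪ tsupport χ) ×ˢ Icc (-1) 2`. -/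
theorem exists_interp {d : ℕ} {A : Set V} (hA : Closed d A) {Γ₀ Γ₁ : H → V}
    (s0 : ContDiff ℝ ∞ Γ₀) (s1 : ContDiff ℝ ∞ Γ₁) (h0 : ∀ p, Γ₀ p ∈ A → Tv Γ₀ A p)
    (h1 : ∀ p, Γ₁ p ∈ A → Tv Γ₁ A p) {C : Set H} (hC : IsCompact C)
    (hz : ∀ p, ∀ u ∈ Icc (0 : ℝ) 1, Γ₁ p + u • (Γ₀ p - Γ₁ p) ∈ A → p ∈ C) :
    ∃ Γ : H × ℝ → V, ContDiff ℝ ∞ Γ ∧ (∀ z : H × ℝ, z.2 ≤ 0 → Γ z = Γ₀ z.1) ∧
      (∀ z : H × ℝ, 1 ≤ z.2 → Γ z = Γ₁ z.1) ∧ (∀ z, Γ z ∈ A → Tv Γ A z) ∧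
      IsCompact (Γ ⁻¹' A ∩ Prod.snd ⁻¹' Icc (-1 : ℝ) 2) := by
  obtain ⟨χ, sχ, -, hχ1, -, hχc⟩ := exists_cutoff hC.isClosed isOpen_univ (subset_univ C)
  let Γ' : H × ℝ → V := fun z => Γ₁ z.1 + Real.smoothTransition (1 - z.2) • (Γ₀ z.1 - Γ₁ z.1)
  let β : H × ℝ → ℝ := fun z => expNegInvGlue z.2 * expNegInvGlue (1 - z.2) * χ z.1
  have sΓ' : ContDiff ℝ ∞ Γ' :=
    (s1.comp contDiff_fst).add
      ((Real.smoothTransition.contDiff.comp (contDiff_const.sub contDiff_snd)).smul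
        ((s0.comp contDiff_fst).sub (s1.comp contDiff_fst)))
  have sβ : ContDiff ℝ ∞ β :=
    ((expNegInvGlue.contDiff.comp contDiff_snd).mul
      (expNegInvGlue.contDiff.comp (contDiff_const.sub contDiff_snd))).mul (sχ.comp contDiff_fst)
  obtain ⟨e, L, hT⟩ := exists_transverse hA.sub sΓ' sβ
  have sΓ : ContDiff ℝ ∞ fun z => Γ' z + β z • (e + L z) :=
    sΓ'.add (sβ.smul (contDiff_const.add L.contDiff))
  have e0 : ∀ z : H × ℝ, z.2 ≤ 0 → Γ' z + β z • (e + L z) = Γ₀ z.1 := fun z hz0 => by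
    simp [Γ', β, expNegInvGlue.zero_of_nonpos hz0,
      Real.smoothTransition.one_of_one_le (show 1 ≤ 1 - z.2 by linarith)]
  have e1 : ∀ z : H × ℝ, 1 ≤ z.2 → Γ' z + β z • (e + L z) = Γ₁ z.1 := fun z hz1 => by
    simp [Γ', β, expNegInvGlue.zero_of_nonpos (show 1 - z.2 ≤ 0 by linarith),
      Real.smoothTransition.zero_of_nonpos (show 1 - z.2 ≤ 0 by linarith)]
  have hC' : ∀ z : H × ℝ, β z = 0 → Γ' z + β z • (e + L z) ∈ A → z.1 ∈ C := fun z hb hm => by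
    rw [hb, zero_smul, add_zero] at hm
    exact hz z.1 _ ⟨Real.smoothTransition.nonneg _, Real.smoothTransition.le_one _⟩ hm
  refine ⟨fun z => Γ' z + β z • (e + L z), sΓ, e0, e1, fun z hm => ?_, ?_⟩
  · by_cases hb : β z = 0
    · have h2 : χ z.1 = 1 := hχ1.self_of_nhdsSet _ (hC' z hb hm)
      have h3 : expNegInvGlue z.2 * expNegInvGlue (1 - z.2) * χ z.1 = 0 := hb
      rw [h2, mul_one, mul_eq_zero, expNegInvGlue.zero_iff_nonpos,
        expNegInvGlue.zero_iff_nonpos] at h3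
      have hd := (sΓ.differentiable (by simp)).differentiableAt (x := z)
      rcases h3 with h3 | h3
      · exact xreg_tv hd (fun p => e0 (p, z.2) h3) (h0 _ (e0 z h3 ▸ hm))
      · have h4 : 1 ≤ z.2 := by linarith
        exact xreg_tv hd (fun p => e1 (p, z.2) h4) (h1 _ (e1 z h4 ▸ hm))
    · exact hT z hb hm
  · refine ((hC.union (hχc hC)).prod (isCompact_Icc (a := (-1 : ℝ)) (b := 2))).of_isClosed_subset
      ((hA.cpt.isClosed.preimage sΓ.continuous).inter (isClosed_Icc.preimage continuous_snd))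
      fun z hz' => ⟨?_, hz'.2⟩
    by_cases h2 : χ z.1 = 0
    · exact Or.inl (hC' z (by simp [β, h2]) hz'.1)
    · exact Or.inr (subset_tsupport _ h2)

/-- Where `Γ` does not depend on the last variable. -/
theorem fderiv_of_eventually {Γ : H × ℝ → V} {g : H → V} {z : H × ℝ}
    (hg : DifferentiableAt ℝ g z.1) (h : ∀ᶠ y in 𝓝 z, Γ y = g y.1) (v : H × ℝ) :
    fderiv ℝ Γ z v = fderiv ℝ g z.1 v.1 := by
  have h1 : HasFDerivAt (fun y : H × ℝ => g y.1)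
      ((fderiv ℝ g z.1).comp (ContinuousLinearMap.fst ℝ H ℝ)) z :=
    hg.hasFDerivAt.comp z hasFDerivAt_fst
  rw [(h1.congr_of_eventuallyEq h).fderiv]
  rfl

section
variable {E : Type} [NormedAddCommGroup E] [InnerProductSpace ℝ E] [FiniteDimensional ℝ E]

/-- The foot point is unique. Sketch: `ρ, U` from `IsSub.exists_orthRetr`, `P` from
`IsSub.exists_orthProj`, `C` from `Closed.quad_bound`. If
`x - m ⊥ Tan M (ρ x)` then `m - ρ x = (x - ρ x) - (x - m)` is killed by `P (ρ x)`, so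
`‖m - ρ x‖ ≤ C ‖m - ρ x‖ ^ 2`; and `‖ρ m - ρ x‖ < 1 / (|C| + 1)` by uniform continuity of `ρ` on the
compact `cthickening`. -/
theorem exists_foot {d : ℕ} {M : Set E} (hM : Closed d M) :
    ∃ (ρ : E → E) (ε : ℝ), ContDiff ℝ ∞ ρ ∧ 0 < ε ∧ ∀ x ∈ Metric.cthickening ε M,
      ρ x ∈ M ∧ x - ρ x ∈ (Tan M (ρ x))ᗮ ∧
        ∀ m ∈ M, ‖x - m‖ ≤ ε → x - m ∈ (Tan M (ρ x))ᗮ → m = ρ x := by
  obtain ⟨ρ, U, sρ, hU, hMU, hρ, hfix, hperp⟩ := hM.sub.exists_orthRetr hM.cpt subset_rfl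
  obtain ⟨P, U', sP, -, hMU', hP⟩ := hM.sub.exists_orthProj hM.cpt subset_rfl
  obtain ⟨C, hC⟩ := hM.quad_bound sP.continuous.continuousOn fun x hx v hv => by
    rw [hP x ⟨hx, hMU' hx⟩]
    exact Submodule.starProjection_eq_self_iff.2 hv
  obtain ⟨δ, hδ, hδU⟩ := hM.cpt.exists_cthickening_subset_open hU hMU
  have hK : IsCompact (Metric.cthickening δ M) := hM.cpt.cthickening
  obtain ⟨δ', hδ', hu⟩ := Metric.uniformContinuousOn_iff.1
    (hK.uniformContinuousOn_of_continuous sρ.continuous.continuousOn) (1 / (|C| + 1))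
    (by positivity)
  refine ⟨ρ, min δ (δ' / 2), sρ, lt_min hδ (half_pos hδ'), fun x hx => ?_⟩
  have hxK : x ∈ Metric.cthickening δ M := Metric.cthickening_mono (min_le_left _ _) M hx
  have hxU := hδU hxK
  refine ⟨hρ hxU, hperp x hxU, fun m hm hd hp => ?_⟩
  have h1 : m - ρ x ∈ (Tan M (ρ x))ᗮ := by
    have := Submodule.sub_mem _ (hperp x hxU) hp
    rwa [sub_sub_sub_cancel_left] at this
  have h2 := hC (ρ x) (hρ hxU) m hm
  rw [hP _ ⟨hρ hxU, hMU' (hρ hxU)⟩, (Submodule.starProjection_apply_eq_zero_iff _).2 h1,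
    sub_zero] at h2
  have h3 := hu m (Metric.self_subset_cthickening M hm) x hxK (by
    rw [dist_comm, dist_eq_norm]
    linarith [min_le_right δ (δ' / 2)])
  rw [hfix m ⟨hm, hMU hm⟩, dist_eq_norm, lt_div_iff₀ (by positivity)] at h3
  by_contra hne
  have h4 : 0 < ‖m - ρ x‖ := norm_pos_iff.2 (sub_ne_zero.2 hne)
  nlinarith [le_abs_self C, mul_pos h4 h4]

end

end Pool.Agent.Lib.MP_ccffa6_gt.EX
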