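import Pool.Agent.Lib.MP_ccffa6_gt.EX.XGeo
import Pool.Agent.Lib.MP_ccffa6_gt.EX.XReal
import Pool.Agent.Lib.MP_ccffa6_gt.EX.XReg

open Set Module Filter Topology
open scoped ContDiff RealInnerProductSpace

noncomputable section

namespace Pool.Agent.Lib.MP_ccffa6_gt.EX

variable {N : ℕ} {V : Type} [NormedAddCommGroup V] [InnerProductSpace ℝ V]
  [FiniteDimensional ℝ V]

/-- Cutting off a smooth map outside a compact set. -/
theorem xbot_cut {G : Type*} [NormedAddCommGroup G] [NormedSpace ℝ G] {K : Set V}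
    (hK : IsCompact K) {g : V → G} (hg : ContDiff ℝ ∞ g) :
    ∃ (B : ℝ) (S : V → G), 0 < B ∧ ContDiff ℝ ∞ S ∧ (∀ x, ‖S x‖ ≤ B) ∧
      (∀ x, ‖fderiv ℝ S x‖ ≤ B) ∧ ∀ x ∈ K, S x = g x := by
  obtain ⟨χ, hχ, -, h1, -, hc⟩ := exists_cutoff hK.isClosed isOpen_univ (subset_univ _)
  have hS : ContDiff ℝ ∞ fun x => χ x • g x := hχ.fun_smul hg
  have hcs : HasCompactSupport fun x => χ x • g x := (hc hK).smul_right
  obtain ⟨B1, hB1⟩ := hS.continuous.bounded_above_of_compact_support hcs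
  obtain ⟨B2, hB2⟩ := (hS.continuous_fderiv (by simp)).bounded_above_of_compact_support
    (hcs.fderiv ℝ)
  refine ⟨max 1 (max B1 B2), fun x => χ x • g x, lt_max_of_lt_left one_pos, hS,
    fun x => (hB1 x).trans (le_max_of_le_right (le_max_left _ _)),
    fun x => (hB2 x).trans (le_max_of_le_right (le_max_right _ _)), fun x hx => ?_⟩
  change χ x • g x = g x
  rw [h1.self_of_nhdsSet x hx, one_smul]

theorem xbot_cut2 {F U W : Type*} [NormedAddCommGroup F] [NormedSpace ℝ F]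
    [NormedAddCommGroup U] [NormedSpace ℝ U] [NormedAddCommGroup W] [NormedSpace ℝ W]
    {K : Set V} (hK : IsCompact K) {g : V → U →L[ℝ] W} (hg : ContDiff ℝ ∞ g)
    (X : F →L[ℝ] V) :
    ∃ (B : ℝ) (S : V → U →L[ℝ] W), 0 < B ∧ (∀ x k, ‖S x k‖ ≤ B * ‖k‖) ∧
      (∀ x ∈ K, S x = g x) ∧ ∀ σ : F → U, ContDiff ℝ ∞ σ →
        ContDiff ℝ ∞ (fun p => S (X p) (σ p)) ∧ ∀ p, ∃ R : F →L[ℝ] W,
          (∀ w, ‖R w‖ ≤ B * (‖X‖ * ‖w‖) * ‖σ p‖) ∧
          ∀ w, fderiv ℝ (fun p => S (X p) (σ p)) p w = R w + S (X p) (fderiv ℝ σ p w) := by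
  obtain ⟨B, S, hB, hS, h1, h2, h3⟩ := xbot_cut hK hg
  refine ⟨B, S, hB, fun x k => (S x).le_of_opNorm_le (h1 x) k, h3, fun σ hσ =>
    ⟨(hS.comp X.contDiff).clm_apply hσ, fun p =>
      ⟨(fderiv ℝ S (X p)).flip (σ p) ∘L X, fun w => ?_, fun w => ?_⟩⟩⟩
  · refine ((fderiv ℝ S (X p)).le_opNorm₂ (X w) (σ p)).trans ?_
    gcongr
    · exact h2 _
    · exact X.le_opNorm _
  · have d2 := (hS.differentiable (by simp) (X p)).hasFDerivAt.comp p X.hasFDerivAt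
    have d3 := (hσ.differentiable (by simp) p).hasFDerivAt
    refine (congrArg (fun L : F →L[ℝ] W => L w) (d2.clm_apply d3).fderiv).trans ?_
    simp only [add_apply, ContinuousLinearMap.comp_apply,
      ContinuousLinearMap.flip_apply, Function.comp_apply]
    exact add_comm _ _

/-- A bounded smooth field of right inverses. -/
theorem exists_field {d : ℕ} {M : Set V} (hM : Closed d M)
    {J : V → UU V →L[ℝ] UU V} (hJ : JData M J) (X : Hz N →L[ℝ] V) :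
    ∃ (ρ : V → V) (ε B : ℝ) (S : V → Cx (UU V) →L[ℝ] V × UU V),
      ContDiff ℝ ∞ ρ ∧ 0 < ε ∧ 0 < B ∧ (∀ x k, ‖S x k‖ ≤ B * ‖k‖) ∧
      (∀ x ∈ Metric.cthickening ε M, ρ x ∈ M ∧ (∀ k, S x k = kk (V := V) (SJ (J (ρ x)) k)) ∧
          ∀ m ∈ M, ‖x - m‖ ≤ ε → x - m ∈ (Tan M (ρ x))ᗮ → m = ρ x) ∧
      ∀ σ : Hz N → Cx (UU V), ContDiff ℝ ∞ σ →
        ContDiff ℝ ∞ (fun p => S (X p) (σ p)) ∧ ∀ p, ∃ R : Hz N →L[ℝ] V × UU V,
          (∀ w, ‖R w‖ ≤ B * (‖X‖ * ‖w‖) * ‖σ p‖) ∧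
          ∀ w, fderiv ℝ (fun p => S (X p) (σ p)) p w = R w + S (X p) (fderiv ℝ σ p w) := by
  obtain ⟨ρ, ε, hρ, hε, h⟩ := exists_foot hM
  have hK : IsCompact (Metric.cthickening ε M) := hM.cpt.cthickening
  have hS0 : ContDiff ℝ ∞ fun x => SJ (J (ρ x)) := xa_contDiff_SJ.comp (hJ.sm.comp hρ)
  have hS1 : ContDiff ℝ ∞ fun x =>
      (kk : Cx (UU V) →L[ℝ] V × UU V) ∘L SJ (J (ρ x)) := contDiff_const.clm_comp hS0
  obtain ⟨B, S, hB, h1, h2, h3⟩ := xbot_cut2 hK hS1 X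
  exact ⟨ρ, ε, B, S, hρ, hε, hB, h1, fun x hx =>
    ⟨(h x hx).1, fun k => by rw [h2 x hx]; rfl, (h x hx).2.2⟩, h3⟩

theorem xbot_hat (p : Hz N) (v : Fin N → ℂ) : ‖hat p v‖ ≤ (1 + 2 * N * ‖p‖) * ‖v‖ := by
  have h1 : |(herm p.1 v).im| ≤ N * ‖p‖ * ‖v‖ :=
    (Complex.abs_im_le_norm _).trans ((norm_herm_le _ _).trans (by gcongr; exact norm_fst_le p))
  have h2 : (0 : ℝ) ≤ N * ‖p‖ * ‖v‖ := by positivity
  rw [Prod.norm_def]
  refine max_le (by change ‖v‖ ≤ _; nlinarith) ?_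
  change ‖-2 * (herm p.1 v).im‖ ≤ _
  rw [Real.norm_eq_abs, abs_mul, abs_neg, abs_two]
  nlinarith [norm_nonneg v]

/-- `hat p` as a linear map. -/
def xbotHat (p : Hz N) : (Fin N → ℂ) →L[ℝ] Hz N :=
  LinearMap.toContinuousLinearMap
    { toFun := hat p
      map_add' := fun v w => by
        simp only [hat, herm_add_right, Complex.add_im, Prod.mk_add_mk, mul_add]
      map_smul' := fun c v => by
        have : herm p.1 (c • v) = c * herm p.1 v := by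
          simp only [herm, Finset.mul_sum, Pi.smul_apply, Complex.real_smul]
          exact Finset.sum_congr rfl fun j _ => by ring
        simp only [hat, this, Complex.im_ofReal_mul, RingHom.id_apply,
          Prod.smul_mk, smul_eq_mul]
        congr 1
        ring }

theorem xbotHat_apply (p : Hz N) (v : Fin N → ℂ) : xbotHat p v = hat p v := rfl

omit [InnerProductSpace ℝ V] [FiniteDimensional ℝ V] in
theorem xbot_mem {M : Set V} (hM : IsCompact M) {ε : ℝ} (hε : 0 ≤ ε)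
    {y : V × UU V} (hy : y ∈ Metric.cthickening ε (M ×ˢ ({0} : Set (UU V)))) :
    y.1 ∈ Metric.cthickening ε M := by
  rw [(hM.prod isCompact_singleton).cthickening_eq_biUnion_closedBall hε] at hy
  obtain ⟨a, ha, hy⟩ := mem_iUnion₂.1 hy
  refine Metric.mem_cthickening_of_dist_le _ a.1 _ _ ha.1 (le_trans ?_ hy)
  rw [Prod.dist_eq]
  exact le_max_left _ _

theorem xbot_real {U : Type} [NormedAddCommGroup U] [InnerProductSpace ℝ U]
    [FiniteDimensional ℝ U] {K : Set (Hz N)} (hK : IsCompact K) {s0 : Hz N → Cx U}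
    {J : Hz N → U →L[ℝ] U} (hs : Continuous s0) (hJ : Continuous J) (hI : ∀ x ∈ K, IsJ (J x))
    {q : ℕ} (hq : ∀ x ∈ K, finrank ℝ (LinearMap.range (PJ (J x) : Cx U →ₗ[ℝ] Cx U)) = q)
    {ε : ℝ} (hε : 0 < ε) (C1 L : ℝ) :
    ∃ (σ : Hz N → Cx U) (A : Hz N → (Fin N → ℂ) →L[ℝ] Cx U), ContDiff ℝ ∞ σ ∧
      (∀ x, ‖σ x‖ ≤ ε) ∧ (∀ x v, fderiv ℝ σ x (hat x v) = A x v) ∧
      (∀ x v, A x (Complex.I • v) = II (A x v)) ∧
      ∀ x ∈ K, s0 x + PJ (J x) (σ x) = 0 → ∀ B : (Fin N → ℂ) →L[ℝ] Cx U,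
        (∀ v, ‖B v‖ ≤ C1 * ‖v‖) → (∀ v, PJ (J x) (B v) = B v) → ∀ k, PJ (J x) k = k →
          ∃ v, PJ (J x) (A x v) + B v = k ∧ L * ‖v‖ ≤ ‖k‖ := by
  obtain ⟨D, e, he⟩ := exists_cx_coord U
  have hP : Continuous fun x => PJ (J x) := (xa_contDiff_PJ (U := U)).continuous.comp hJ
  exact exReal (C := Cx U) II e he hK s0 (fun x => PJ (J x)) hs.continuousOn hP.continuousOn
    (fun x hx k => xa_PJ_PJ (hI x hx) k) (fun x _ k => xa_PJ_II k) q hq hε C1 L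

/-- The lower end, abstract version. -/
theorem xbot_main {d : ℕ} {M : Set V} (hM : Closed d M)
    {J : V → UU V →L[ℝ] UU V} (hJ : JData M J) (X : Hz N →L[ℝ] V) {G : Hz N → V × UU V}
    (hG : ContDiff ℝ ∞ G) (hX : ∀ p, (G p).1 = X p)
    (hpr : ∀ C : Set (V × UU V), IsCompact C → IsCompact (G ⁻¹' C)) :
    ∃ (Γ₀ : Hz N → V × UU V) (C : Set (Hz N)), ContDiff ℝ ∞ Γ₀ ∧ IsCompact C ∧
      (∀ p, ∀ u ∈ Icc (0 : ℝ) 1,
        G p + u • (Γ₀ p - G p) ∈ M ×ˢ ({0} : Set (UU V)) → p ∈ C) ∧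
      ∀ p, Γ₀ p ∈ M ×ˢ ({0} : Set (UU V)) →
        (∀ k, ∃ v, LJ (J (Γ₀ p).1) (jj (fderiv ℝ Γ₀ p (hat p v))) = PJ (J (Γ₀ p).1) k) ∧
        ∀ u, ∃ y, LJ (J (Γ₀ p).1) (jj (fderiv ℝ Γ₀ p (hat p y)))
            = LJ (J (Γ₀ p).1) (jj (fderiv ℝ Γ₀ p (hat p (Complex.I • u))))
              - II (LJ (J (Γ₀ p).1) (jj (fderiv ℝ Γ₀ p (hat p u)))) ∧
          4 * (N + 1) * ‖y‖ ≤ ‖u‖ := by
  obtain ⟨ρ, ε, B, S, hρ, hε, hB, hS1, h, hS⟩ := exists_field hM hJ X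
  have hC : IsCompact (G ⁻¹' Metric.cthickening ε (M ×ˢ ({0} : Set (UU V)))) :=
    hpr _ (hM.cpt.prod isCompact_singleton).cthickening
  generalize hCe : G ⁻¹' Metric.cthickening ε (M ×ˢ ({0} : Set (UU V))) = C at hC
  have hCX : ∀ p ∈ C, X p ∈ Metric.cthickening ε M := fun p hp =>
    hX p ▸ xbot_mem hM.cpt hε.le (y := G p) (by rw [← hCe] at hp; exact hp)
  have hJc : Continuous fun p : Hz N => J (ρ (X p)) :=
    hJ.sm.continuous.comp (hρ.continuous.comp X.continuous)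
  have hLc : Continuous fun p : Hz N => LJ (J (ρ (X p))) :=
    (xa_contDiff_LJ (U := UU V)).continuous.comp hJc
  have hgc : Continuous fun p : Hz N => ‖LJ (J (ρ (X p)))‖ * (‖jj (V := V)‖ *
      ((‖fderiv ℝ G p‖ + ε * ‖X‖) * (1 + 2 * N * ‖p‖))) :=
    (Continuous.norm (E := Cx (UU V) →L[ℝ] Cx (UU V)) hLc).mul (continuous_const.mul
      (((hG.continuous_fderiv (by simp)).norm.add continuous_const).mul
        (continuous_const.add (continuous_const.mul continuous_norm))))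
  obtain ⟨C1, hC1, hC1'⟩ := (hC.image hgc).isBounded.exists_pos_norm_le
  have hsc : Continuous fun p : Hz N => LJ (J (ρ (X p))) (jj (G p - (ρ (X p), 0))) :=
    hLc.clm_apply ((jj (V := V)).continuous.comp (hG.continuous.sub
      ((hρ.continuous.comp X.continuous).prodMk continuous_const)))
  obtain ⟨σ, A, hσ, hσ1, hA, hAI, H⟩ := xbot_real hC hsc hJc
    (fun p hp => hJ.isJ _ (h _ (hCX p hp)).1)
    (fun p hp => xa_rank hJ hM.sub (h _ (hCX p hp)).1) (div_pos hε hB) C1 (8 * (N + 1) * C1)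
  have hn : ∀ p, ‖S (X p) (σ p)‖ ≤ ε := fun p =>
    (hS1 _ _).trans ((mul_le_mul_of_nonneg_left (hσ1 p) hB.le).trans
      (mul_div_cancel₀ ε hB.ne').le)
  obtain ⟨hSX, hR⟩ := hS σ hσ
  have hin : ∀ p, ∀ u ∈ Icc (0 : ℝ) 1,
      G p + u • S (X p) (σ p) ∈ M ×ˢ ({0} : Set (UU V)) → p ∈ C := fun p u hu hp => by
    rw [← hCe]
    refine Metric.mem_cthickening_of_dist_le _ _ _ _ hp ?_
    rw [dist_self_add_right, norm_smul, Real.norm_of_nonneg hu.1]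
    exact (mul_le_mul hu.2 (hn p) (norm_nonneg _) zero_le_one).trans (one_mul ε).le
  refine ⟨fun p => G p + S (X p) (σ p), C, hG.add hSX, hC,
    fun p u hu hp => hin p u hu (by rwa [add_sub_cancel_left] at hp), fun p hp => ?_⟩
  have hpC : p ∈ C := hin p 1 ⟨zero_le_one, le_rfl⟩ (by rwa [one_smul])
  obtain ⟨h1, h2, h3⟩ := h _ (hCX p hpC)
  have hm : (G p + S (X p) (σ p)).1 = ρ (X p) := by
    have e1 : X p - (G p + S (X p) (σ p)).1 = -(S (X p) (σ p)).1 := by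
      rw [Prod.fst_add, hX]
      abel
    refine h3 _ hp.1 ?_ ?_
    · rw [e1, norm_neg]
      exact (norm_fst_le _).trans (hn p)
    · rw [e1, h2]
      exact neg_mem (xa_kk_SJ_perp hJ h1 _)
  have hI := hJ.isJ _ h1
  have hP : ∀ k, LJ (J (ρ (X p))) (jj (S (X p) k)) = PJ (J (ρ (X p))) k := fun k => by
    rw [h2, xa_jj_kk_SJ hJ h1, xa_LJ_SJ hI]
  have h0 : LJ (J (ρ (X p))) (jj (G p - (ρ (X p), 0))) + PJ (J (ρ (X p))) (σ p) = 0 := by
    have e2 : G p - (ρ (X p), 0) + S (X p) (σ p) = 0 := by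
      rw [sub_add_eq_add_sub, sub_eq_zero]
      exact Prod.ext hm hp.2
    rw [← hP, ← map_add, ← map_add, e2, map_zero, map_zero]
  obtain ⟨R, hR1, hR2⟩ := hR p
  have hd : ∀ w, fderiv ℝ (fun p => G p + S (X p) (σ p)) p w
      = fderiv ℝ G p w + R w + S (X p) (fderiv ℝ σ p w) := by
    intro w
    rw [fderiv_fun_add (hG.differentiable (by simp) p) (hSX.differentiable (by simp) p),
      add_apply, hR2, add_assoc]
  obtain ⟨Bm, hBm⟩ : ∃ Bm : (Fin N → ℂ) →L[ℝ] Cx (UU V), ∀ v, Bm v = LJ (J (ρ (X p)))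
      (jj (fderiv ℝ G p (hat p v) + R (hat p v))) :=
    ⟨LJ (J (ρ (X p))) ∘L jj ∘L (fderiv ℝ G p + R) ∘L xbotHat p, fun v => rfl⟩
  have hT : ∀ v, LJ (J (ρ (X p))) (jj (fderiv ℝ (fun p => G p + S (X p) (σ p)) p (hat p v)))
      = PJ (J (ρ (X p))) (A p v) + Bm v := fun v => by
    rw [hd, map_add, map_add, hP, hA, hBm, add_comm]
  have hB1 : ∀ v, ‖Bm v‖ ≤ C1 * ‖v‖ := fun v => by
    have e3 : ‖R (hat p v)‖ ≤ ε * ‖X‖ * ‖hat p v‖ := by
      refine (hR1 _).trans ?_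
      calc _ ≤ B * (‖X‖ * ‖hat p v‖) * (ε / B) :=
            mul_le_mul_of_nonneg_left (hσ1 p) (by positivity)
        _ = _ := by field_simp
    have e4 := (le_abs_self _).trans (hC1' _ ⟨p, hpC, rfl⟩)
    rw [hBm]
    refine le_trans ?_ (mul_le_mul_of_nonneg_right e4 (norm_nonneg v))
    rw [mul_assoc, mul_assoc, mul_assoc]
    refine (ContinuousLinearMap.le_opNorm _ _).trans (mul_le_mul_of_nonneg_left
      ((ContinuousLinearMap.le_opNorm _ _).trans (mul_le_mul_of_nonneg_left ?_ (norm_nonneg _)))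
      (norm_nonneg _))
    refine (norm_add_le _ _).trans ((add_le_add (ContinuousLinearMap.le_opNorm _ _) e3).trans ?_)
    rw [← add_mul]
    exact mul_le_mul_of_nonneg_left (xbot_hat p v) (by positivity)
  have hB2 : ∀ v, PJ (J (ρ (X p))) (Bm v) = Bm v := fun v => by rw [hBm, xa_PJ_LJ hI]
  have H' := H p hpC h0 Bm hB1 hB2
  simp only [hm, hT]
  refine ⟨fun k => (H' _ (xa_PJ_PJ hI k)).imp fun v hv => hv.1, fun u => ?_⟩
  obtain ⟨y, hy, hy'⟩ := H' (Bm (Complex.I • u) - II (Bm u)) (by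
    rw [map_sub, xa_PJ_II, hB2, hB2])
  refine ⟨y, ?_, ?_⟩
  · rw [hy, hAI, xa_PJ_II, map_add]
    abel
  · have e5 : ‖Bm (Complex.I • u) - II (Bm u)‖ ≤ C1 * ‖u‖ + C1 * ‖u‖ := by
      refine (norm_sub_le _ _).trans (add_le_add ((hB1 _).trans ?_) ?_)
      · rw [norm_smul, Complex.norm_I, one_mul]
      · rw [xa_norm_II]
        exact hB1 u
    refine le_of_mul_le_mul_left ?_ (mul_pos two_pos hC1)
    nlinarith

/-- The lower end. -/
theorem exists_bot {d : ℕ} {M : Set (Rd N)} (hM : Closed d M)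
    {J : Rd N → UU (Rd N) →L[ℝ] UU (Rd N)} (hJ : JData M J) :
    ∃ (Γ₀ : Hz N → Rd N × UU (Rd N)) (C : Set (Hz N)), ContDiff ℝ ∞ Γ₀ ∧ IsCompact C ∧
      (∀ p, ∀ u ∈ Icc (0 : ℝ) 1,
        G0 p + u • (Γ₀ p - G0 p) ∈ M ×ˢ ({0} : Set (UU (Rd N))) → p ∈ C) ∧
      ∀ p, Γ₀ p ∈ M ×ˢ ({0} : Set (UU (Rd N))) →
        (∀ k, ∃ v, LJ (J (Γ₀ p).1) (jj (fderiv ℝ Γ₀ p (hat p v))) = PJ (J (Γ₀ p).1) k) ∧
        ∀ u, ∃ y, LJ (J (Γ₀ p).1) (jj (fderiv ℝ Γ₀ p (hat p y)))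
            = LJ (J (Γ₀ p).1) (jj (fderiv ℝ Γ₀ p (hat p (Complex.I • u))))
              - II (LJ (J (Γ₀ p).1) (jj (fderiv ℝ Γ₀ p (hat p u)))) ∧
          4 * (N + 1) * ‖y‖ ≤ ‖u‖ :=
  xbot_main hM hJ XH contDiff_G0 (fun _ => rfl) fun _ => isCompact_preimage_G0

end Pool.Agent.Lib.MP_ccffa6_gt.EX
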