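import Pool.Agent.Lib.MP_ccffa6_gt.EX.XCoreB

open scoped ContDiff

noncomputable section

namespace Pool.Agent.Lib.MP_ccffa6_gt.EX

variable {N : ℕ}

/-- The parabolic dilation. -/
def dil (l : ℝ) : Hz N →L[ℝ] Hz N :=
  (l • ContinuousLinearMap.fst ℝ (Fin N → ℂ) ℝ).prod (l ^ 2 • ContinuousLinearMap.snd ℝ (Fin N → ℂ) ℝ)

theorem dil_apply (l : ℝ) (x : Hz N) : dil l x = (l • x.1, l ^ 2 * x.2) := rfl

theorem dil_inv {l : ℝ} (hl : l ≠ 0) (x : Hz N) : dil l⁻¹ (dil l x) = x := by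
  simp only [dil_apply, inv_smul_smul₀ hl]
  exact Prod.ext rfl (by field_simp)

theorem dil_hat (l : ℝ) (x : Hz N) (v : Fin N → ℂ) :
    dil l (hat x v) = hat (dil l x) ((l : ℂ) • v) := by
  have h : herm (l • x.1) ((l : ℂ) • v) = ((l ^ 2 : ℝ) : ℂ) * herm x.1 v := by
    simp only [herm, Finset.mul_sum, Pi.smul_apply, Complex.real_smul, smul_eq_mul, map_mul,
      Complex.conj_ofReal]
    exact Finset.sum_congr rfl fun j _ => by push_cast; ring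
  simp only [dil_apply, hat, h, Complex.im_ofReal_mul]
  exact Prod.ext (funext fun j => rfl) (by ring)

theorem close_dil {ρ l : ℝ} (hρ : 0 ≤ ρ) (hl : 1 ≤ l) {x x' : Hz N} (hx : ‖x‖ ≤ ρ)
    (h : Close (dil l x) (dil l x')) : ‖x - x'‖ ≤ (4 + 8 * N * (ρ + 2)) / l := by
  obtain ⟨p, u, u', hu, hu', e, e'⟩ := h
  have hl0 : 0 < l := one_pos.trans_le hl
  have hN : (0 : ℝ) ≤ N := N.cast_nonneg
  simp only [dil_apply, mul, Prod.mk.injEq] at e e'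
  have h1 : ‖u - u'‖ ≤ 2 := (norm_sub_le _ _).trans (by linarith)
  have h2 : ‖(hz (u - u')).1‖ ≤ 4 := (norm_hz_fst_le _).trans (by linarith)
  have h3 : |(hz (u - u')).2| ≤ 2 := (abs_hz_snd_le _).trans h1
  have h4 : ‖p.1‖ ≤ l * ρ + 2 := by
    rw [eq_sub_of_add_eq e.1.symm]
    refine (norm_sub_le _ _).trans (add_le_add ?_ ((norm_hz_fst_le _).trans (by linarith)))
    rw [norm_smul, Real.norm_of_nonneg hl0.le]
    exact mul_le_mul_of_nonneg_left ((norm_fst_le x).trans hx) hl0.le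
  have h5 : |(herm p.1 (hz (u - u')).1).im| ≤ N * (l * ρ + 2) * 4 :=
    (Complex.abs_im_le_norm _).trans ((norm_herm_le _ _).trans (by gcongr))
  have h6 : l * ‖(x - x').1‖ ≤ 4 := by
    rw [← Real.norm_of_nonneg hl0.le, ← norm_smul, Prod.fst_sub, smul_sub, e.1, e'.1,
      add_sub_add_left_eq_sub, ← Prod.fst_sub, ← hz_sub]
    exact h2
  have h7 : l ^ 2 * |(x - x').2| ≤ 2 + 2 * (N * (l * ρ + 2) * 4) := by
    have h8 : l ^ 2 * (x - x').2 = (hz (u - u')).2 - 2 * (herm p.1 (hz (u - u')).1).im := by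
      rw [Prod.snd_sub, mul_sub, e.2, e'.2, hz_sub, Prod.fst_sub, Prod.snd_sub, herm_sub_right,
        Complex.sub_im]
      ring
    rw [← abs_of_nonneg (sq_nonneg l), ← abs_mul, h8]
    refine (abs_sub _ _).trans (add_le_add h3 ?_)
    rw [abs_mul, abs_two]
    linarith
  rw [le_div_iff₀' hl0, Prod.norm_def, mul_max_of_nonneg _ _ hl0.le, Real.norm_eq_abs]
  refine max_le (h6.trans (le_add_of_nonneg_right (by positivity)))
    (le_of_mul_le_mul_left ?_ hl0)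
  nlinarith [mul_le_mul_of_nonneg_left hl hN]

/-- EXISTENCE OF THE CR PERTURBATION. -/
theorem exCore {D : ℕ} (r : ℕ) {K : Set (Hz N)} (hK : IsCompact K) (s0 : Hz N → Fin D → ℂ)
    (P : Hz N → (Fin D → ℂ) →L[ℂ] (Fin D → ℂ)) (hs : ContinuousOn s0 K) (hP : ContinuousOn P K)
    (hPP : ∀ x ∈ K, P x ∘L P x = P x)
    (hr : ∀ x ∈ K, Module.finrank ℂ
      (LinearMap.range (P x : (Fin D → ℂ) →ₗ[ℂ] (Fin D → ℂ))) = r)
    {ε : ℝ} (hε : 0 < ε) : ∃ θ κ : ℝ, 0 < θ ∧ 0 ≤ κ ∧ ∀ L : ℝ,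
    ∃ (σ : Hz N → Fin D → ℂ) (A : Hz N → (Fin N → ℂ) →L[ℂ] (Fin D → ℂ)),
      ContDiff ℝ ∞ σ ∧ (∀ x, ‖σ x‖ ≤ ε) ∧ (∀ x v, fderiv ℝ σ x (hat x v) = A x v) ∧
      ∀ x ∈ K, ‖s0 x + P x (σ x)‖ ≤ θ → ∃ R : (Fin D → ℂ) →L[ℂ] (Fin N → ℂ),
        ‖P x ∘L A x ∘L R - P x‖ ≤ 1 / 4 ∧ L * ‖R‖ ≤ 1 ∧ ‖A x‖ * ‖R‖ ≤ κ := by
  obtain ⟨C0, hC0, hC⟩ := (hK.image_of_continuousOn hP).isBounded.exists_pos_norm_le
  obtain ⟨ρ, hρ, hρ'⟩ := hK.isBounded.exists_pos_norm_le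
  obtain ⟨η, θ, hη, hθ, H⟩ := coreB N D r C0 ε hC0.le hε
  refine ⟨θ, N * ε / η, hθ, by positivity, fun L => ?_⟩
  obtain ⟨δ, hδ, hδ'⟩ := Metric.uniformContinuousOn_iff_le.1
    (hK.uniformContinuousOn_of_continuous (hs.prodMk hP)) θ hθ
  obtain ⟨l, hl, h1, h2⟩ : ∃ l : ℝ, 1 ≤ l ∧ (4 + 8 * N * (ρ + 2)) / δ ≤ l ∧ L / η ≤ l :=
    ⟨max 1 (max _ _), le_max_left _ _, le_max_of_le_right (le_max_left _ _),
      le_max_of_le_right (le_max_right _ _)⟩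
  have hl0 : 0 < l := one_pos.trans_le hl
  have hl1 : (l : ℂ) ≠ 0 := Complex.ofReal_ne_zero.2 hl0.ne'
  obtain ⟨σ, A, h3, h4, h5, hA, h6⟩ := H (dil l '' K) (hK.image (dil l).continuous).isBounded
    (fun x => s0 (dil l⁻¹ x)) (fun x => P (dil l⁻¹ x))
    (by rintro _ ⟨x, hx, rfl⟩; rw [dil_inv hl0.ne']; exact hPP x hx)
    (by rintro _ ⟨x, hx, rfl⟩; rw [dil_inv hl0.ne']; exact hr x hx)
    (by rintro _ ⟨x, hx, rfl⟩; rw [dil_inv hl0.ne']; exact hC _ ⟨x, hx, rfl⟩)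
    (by
      rintro _ ⟨x, hx, rfl⟩ _ ⟨x', hx', rfl⟩ h
      have h7 := hδ' x hx x' hx' (by
        rw [dist_eq_norm]
        refine (close_dil hρ.le hl (hρ' x hx) h).trans ?_
        rwa [div_le_comm₀ hl0 hδ])
      rw [Prod.dist_eq, max_le_iff] at h7
      simpa only [dil_inv hl0.ne', dist_eq_norm] using h7)
  refine ⟨fun x => σ (dil l x), fun x => (l : ℂ) • A (dil l x), h3.comp (dil l).contDiff,
    fun x => h4 _, fun x v => ?_, fun x hx h => ?_⟩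
  · have h7 := ((h3.differentiable (by simp) (dil l x)).hasFDerivAt.comp x
      (dil l).hasFDerivAt).fderiv
    rw [show (fun x => σ (dil l x)) = σ ∘ dil l from rfl, h7, ContinuousLinearMap.comp_apply,
      dil_hat, h5, map_smul, smul_apply]
  · obtain ⟨R, h7, h8⟩ := h6 _ ⟨x, hx, rfl⟩ (by rwa [dil_inv hl0.ne'])
    rw [dil_inv hl0.ne'] at h7
    refine ⟨(l : ℂ)⁻¹ • R, ?_, ?_, ?_⟩
    · rwa [ContinuousLinearMap.comp_smul, ContinuousLinearMap.smul_comp, inv_smul_smul₀ hl1]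
    · rw [norm_smul, norm_inv, Complex.norm_real, Real.norm_of_nonneg hl0.le, ← mul_assoc]
      refine (mul_le_mul_of_nonneg_right ?_ (norm_nonneg _)).trans h8
      rw [← div_eq_mul_inv, div_le_iff₀ hl0, mul_comm, ← div_le_iff₀ hη]
      exact h2
    · rw [norm_smul, norm_smul, norm_inv, Complex.norm_real, Real.norm_of_nonneg hl0.le,
        mul_mul_mul_comm, mul_inv_cancel₀ hl0.ne', one_mul, le_div_iff₀ hη, mul_assoc,
        mul_comm ‖R‖]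
      exact (mul_le_mul (hA _) h8 (by positivity) (by positivity)).trans (mul_one _).le

end Pool.Agent.Lib.MP_ccffa6_gt.EX
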