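import Pool.Agent.Lib.MP_ccffa6_gt.EX.XBad

noncomputable section

namespace Pool.Agent.Lib.MP_ccffa6_gt.EX

theorem xcorea_ncard_bex {G α : Type} [Finite G] (T : Finset α) (P : α → G → Prop) (B : ℕ)
    (h : ∀ t ∈ T, {g | P t g}.ncard ≤ B) : {g | ∃ t ∈ T, P t g}.ncard ≤ T.card * B := by
  classical
  induction T using Finset.induction_on with
  | empty => simp
  | insert x s hx ih =>
    have e : {g | ∃ t ∈ insert x s, P t g} = {g | P x g} ∪ {g | ∃ t ∈ s, P t g} := by
      ext g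
      simp
    rw [e, Finset.card_insert_of_notMem hx]
    have h1 := h x (Finset.mem_insert_self _ _)
    have h2 := ih fun t ht => h t (Finset.mem_insert_of_mem ht)
    have h3 := Set.ncard_union_le {g | P x g} {g | ∃ t ∈ s, P t g}
    calc _ ≤ _ := h3
      _ ≤ B + s.card * B := Nat.add_le_add h1 h2
      _ = (s.card + 1) * B := by ring

theorem xcorea_card_grid (N r n : ℕ) : Fintype.card (Grid N r n) = n ^ ((N + 1) * (r * 2)) := by
  simp [Grid]

/-- the value is shifted by `s`, the derivatives are not -/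
def xcoreaSh {N r : ℕ} (s : Fin r → ℂ) : Option (Fin N) → Fin r → ℂ
  | none => s
  | some _ => 0

/-- The abstract random section.
Sketch. `r = 0` is trivial (`y = 0`, `c = 0`). Put `m = card I`, `L = (N+1) C C ε 3^m`,
`β = 2 + L + r (4 L + 2)`, `b = ⌈2 C^3 (N+1) (4 r + 2) β / ε⌉₊`,
`C1 = r 3^(2r+2N) (2b+1)^(2r+2N)`, `R, n` from `exists_R_n m C1 L`, `η = 1 / n`, `h = ε / (2 n)`,
nets from `cube_net`, `chart_net`. Apply `lll_prod` with `G = Grid N r n`,
`near p q = ‖rel p q‖ ≤ R`, `S p = filter (near p) univ`,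
`A p g = ∃ t ∈ T, ∃ k0, ∃ y ∈ Y k0, ‖s p + jet (S p) c p none t‖ ≤ β / n ∧
 ∀ k, ‖y ⬝ᵥ jet (S p) c p (some k) t‖ ≤ β / n`, `c q = gridVec h (g q)`, `d = (2 R + 1) ^ m`
(`card_near`, `hsym`), `π = C1 / n`. `hdep` is `jet_congr`; `hp` is the union bound
(`Set.ncard_iUnion`-type bound or `Finset.card_biUnion_le`) of `bad_count` (with `jet_update`,
`wt 0 = 1`) and `count_le`. Finish with `good_of_tests`, `jet_bd`, `jet_lip`, `jet_tail`
(`F none u = s p + jet univ ..`, `F (some k) u = jet univ ..`). -/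
theorem coreA {I : Type} [Fintype I] (N r : ℕ) (hm : Fintype.card I ≤ 2 * N + 1) (C ε : ℝ)
    (hC : 1 ≤ C) (hε : 0 < ε)
    (a : (I → ℤ) → Option (Fin N) → Option (Fin N) → (I → ℝ) → ℂ)
    (ha : ∀ γ k j, LB (a γ k j) (C / wt γ ^ (2 * Fintype.card I + (Fintype.card I + 1))))
    (hnd : ∀ u, ‖u‖ ≤ 1 → ∀ z : Option (Fin N) → ℂ, ‖z‖ ≤ C * ‖fun k => ∑ j, a 0 k j u * z j‖)
    (hnd0 : ∀ u, ‖u‖ ≤ 1 → 1 ≤ C * ‖a 0 none none u‖) :
    ∃ η : ℝ, 0 < η ∧ ∀ (ι : Type) [Fintype ι] (rel : ι → ι → I → ℤ),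
      (∀ p, Function.Injective (rel p)) → (∀ p, rel p p = 0) →
      (∀ p q, ‖rel p q‖ = ‖rel q p‖) →
      ∀ (s : ι → Fin r → ℂ) (M : ι → ι → (Fin r → ℂ) →L[ℂ] (Fin r → ℂ)),
        (∀ p q, ‖M p q‖ ≤ C) → (∀ p, M p p = 1) →
        ∃ c : ι → Option (Fin N) → Fin r → ℂ, (∀ q j, ‖c q j‖ ≤ ε) ∧
          ∀ p u, ‖u‖ ≤ 1 → ‖s p + jet a rel M Finset.univ c p none u‖ ≤ η →
            ∀ y : Fin r → ℂ,
              η * ‖y‖ ≤ ‖fun k : Fin N => y ⬝ᵥ jet a rel M Finset.univ c p (some k) u‖ := by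
  classical
  rcases Nat.eq_zero_or_pos r with rfl | hr
  · refine ⟨1, one_pos, fun ι _ rel _ _ _ s M _ _ => ⟨fun _ _ => 0, fun q j => by
      rw [norm_zero]
      exact hε.le, ?_⟩⟩
    intro p u _ _ y
    have : y = 0 := Subsingleton.elim _ _
    rw [this, norm_zero, mul_zero]
    exact norm_nonneg _
  have hC0 : 0 ≤ C := by linarith
  obtain ⟨L, hLe⟩ : ∃ L : ℝ, L = (N + 1) * C * C * ε * 3 ^ Fintype.card I := ⟨_, rfl⟩
  have hL : 0 ≤ L := by rw [hLe]; positivity
  obtain ⟨β, hβe⟩ : ∃ β : ℝ, β = 2 + L + r * (4 * L + 2) := ⟨_, rfl⟩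
  have hβ : 0 ≤ β := by rw [hβe]; positivity
  obtain ⟨b, hb⟩ := exists_nat_ge (2 * (C ^ 3 * (N + 1) * (4 * r + 2) * β) / ε)
  obtain ⟨C1, hC1e⟩ : ∃ C1 : ℝ,
      C1 = r * 3 ^ (2 * r + 2 * N) * (2 * b + 1) ^ (2 * r + 2 * N) := ⟨_, rfl⟩
  have hC1 : 0 ≤ C1 := by rw [hC1e]; positivity
  obtain ⟨R, n, hn, h4, htl⟩ := exists_R_n (Fintype.card I) C1 L hC1 hL
  have hn' : (0 : ℝ) < n := by exact_mod_cast hn
  obtain ⟨h, hhe⟩ : ∃ h : ℝ, h = ε / (2 * n) := ⟨_, rfl⟩
  have hh : 0 < h := by rw [hhe]; positivity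
  have hhε : 2 * h * n = ε := by rw [hhe]; field_simp
  have hbh : C ^ 3 * (N + 1) * (4 * r + 2) * (β / n) ≤ b * h := by
    rw [div_le_iff₀ hε] at hb
    rw [hhe, ← mul_div_assoc, ← mul_div_assoc, div_le_div_iff₀ hn' (by positivity)]
    nlinarith
  obtain ⟨T, hTc, hT1, hT⟩ := cube_net (I := I) n hn
  choose Y hYc hY1 hY using chart_net r n hn
  refine ⟨1 / n, by positivity, fun ι _ rel hinj hrel0 hsym s M hM hM1 => ?_⟩
  have : Nonempty (Grid N r n) := ⟨fun _ => ⟨0, hn⟩⟩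
  obtain ⟨S, hS⟩ : ∃ S : ι → Finset ι, ∀ p q, q ∈ S p ↔ ‖rel p q‖ ≤ R :=
    ⟨fun p => Finset.univ.filter fun q => ‖rel p q‖ ≤ R, by simp⟩
  have hpS : ∀ p, p ∈ S p := fun p => by
    rw [hS, hrel0, norm_zero]
    positivity
  obtain ⟨g, hg⟩ := lll_prod (G := Grid N r n) (fun p q : ι => ‖rel p q‖ ≤ R)
    (fun p g => ∃ t ∈ T, ∃ k0 ∈ (Finset.univ : Finset (Fin r)), ∃ y ∈ Y k0,
      ‖s p + jet a rel M (S p) (fun q => gridVec h (g q)) p none t‖ ≤ β / n ∧
        ∀ k, ‖y ⬝ᵥ jet a rel M (S p) (fun q => gridVec h (g q)) p (some k) t‖ ≤ β / n)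
    ((2 * R + 1) ^ Fintype.card I) (C1 / n)
    (one_le_pow₀ (by have : (0 : ℝ) ≤ R := Nat.cast_nonneg R; linarith)) (by positivity) h4
    (fun p => by
      have h1 := card_near (rel p) (hinj p) R
      have h2 : Nat.card {p' // ‖rel p' p‖ ≤ R} = Nat.card {q // ‖rel p q‖ ≤ R} :=
        Nat.card_congr (Equiv.subtypeEquivRight fun q => by rw [hsym])
      rw [h2]
      exact_mod_cast h1)
    (fun p c c' hcc => by
      rintro ⟨t, ht, k0, hk0, y, hy, h1, h2⟩
      have e : ∀ k, jet a rel M (S p) (fun q => gridVec h (c q)) p k t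
          = jet a rel M (S p) (fun q => gridVec h (c' q)) p k t := fun k =>
        jet_congr _ _ _ (fun q hq => by rw [hcc q ((hS p q).1 hq)]) p k t
      refine ⟨t, ht, k0, hk0, y, hy, ?_, fun k => ?_⟩
      · rw [← e]; exact h1
      · rw [← e]; exact h2 k)
    (fun p c => by
      have e : ∀ g : Grid N r n, (fun q => gridVec h (Function.update c p g q))
          = Function.update (fun q => gridVec h (c q)) p (gridVec h g) := fun g => by
        funext q
        by_cases hq : q = p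
        · subst hq
          simp
        · simp [Function.update_of_ne hq]
      simp only [e]
      have hw : wt (0 : I → ℤ) = 1 := by simp [wt]
      have key := xcorea_ncard_bex T (fun t (g : Grid N r n) =>
        ∃ k0 ∈ (Finset.univ : Finset (Fin r)), ∃ y ∈ Y k0,
          ‖s p + jet a rel M (S p)
            (Function.update (fun q => gridVec h (c q)) p (gridVec h g)) p none t‖ ≤ β / n ∧
          ∀ k, ‖y ⬝ᵥ jet a rel M (S p)
            (Function.update (fun q => gridVec h (c q)) p (gridVec h g)) p (some k) t‖ ≤ β / n)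
        (r * ((2 * n + 1) ^ (2 * r - 2) *
          ((2 * b + 1) ^ (2 * r + 2 * N) * n ^ ((N + 1) * (r * 2) - (2 * r + 2 * N)))))
        (fun t ht => by
          refine (xcorea_ncard_bex _ _ ((2 * n + 1) ^ (2 * r - 2) *
            ((2 * b + 1) ^ (2 * r + 2 * N) * n ^ ((N + 1) * (r * 2) - (2 * r + 2 * N))))
            fun k0 _ => ?_).trans (by simp)
          refine (xcorea_ncard_bex _ _
            ((2 * b + 1) ^ (2 * r + 2 * N) * n ^ ((N + 1) * (r * 2) - (2 * r + 2 * N)))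
            fun y hy => ?_).trans (Nat.mul_le_mul_right _ (hYc k0))
          have hb' := bad_count (n := n) hC hh (β := β / n) (by positivity)
            (fun k j => a 0 k j t)
            (fun k j => by
              have := (ha 0 k j).bd t (hT1 t ht)
              rwa [hw, one_pow, div_one] at this)
            (hnd t (hT1 t ht)) (hnd0 t (hT1 t ht)) k0 y (hY1 k0 y hy).1 (hY1 k0 y hy).2
            (fun g k => xcoreaSh (s p) k + jet a rel M (S p)
              (Function.update (fun q => gridVec h (c q)) p (gridVec h g)) p k t)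
            (fun g g' k => by
              rw [add_sub_add_left_eq_sub]
              exact jet_update _ _ p (hpS p) (hrel0 p) (hM1 p) _ _ k t) b hbh
          simpa only [xcoreaSh, zero_add] using hb')
      have h1 := count_le (b := b) hm hr hn
      rw [xcorea_card_grid, hC1e, Nat.cast_pow]
      refine le_trans ?_ h1
      exact_mod_cast key.trans (Nat.mul_le_mul_right _ hTc))
  have hc : ∀ q j, ‖gridVec h (g q) j‖ ≤ ε := fun q j => by
    rw [← hhε]
    exact norm_gridVec_le hh.le _ _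
  refine ⟨fun q => gridVec h (g q), hc, fun p u hu h0 y => ?_⟩
  have key := good_of_tests hn hL (β := β)
    (fun k u => xcoreaSh (s p) k + jet a rel M Finset.univ (fun q => gridVec h (g q)) p k u)
    (fun k u => xcoreaSh (s p) k + jet a rel M (S p) (fun q => gridVec h (g q)) p k u)
    (fun k u hu => by
      simp only [xcoreaSh, zero_add]
      rw [hLe]
      exact jet_bd hC0 hε.le ha hM p (hinj p) _ _ hc _ u hu)
    (fun k u u' hu hu' => by
      rw [add_sub_add_left_eq_sub, hLe]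
      exact jet_lip hC0 hε.le ha hM p (hinj p) _ _ hc _ u u' hu hu')
    (fun k u hu => by
      rw [add_sub_add_left_eq_sub]
      refine le_trans ?_ htl
      rw [hLe]
      exact jet_tail hC0 hε.le ha hM p (hinj p) _ _ (Finset.subset_univ _) R (Nat.cast_nonneg R)
        (fun q _ hq => (not_le.1 fun h' => hq ((hS p q).2 h')).le) _ hc k u hu)
    T hT1 hT Y (fun k0 t ht => (hY1 k0 t ht).2) hY hβe.ge
    (fun t ht k0 y hy h' => hg p ⟨t, ht, k0, Finset.mem_univ _, y, hy, by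
      simpa only [xcoreaSh, zero_add] using h'⟩)
    u hu h0 y
  simpa only [xcoreaSh, zero_add] using key

end Pool.Agent.Lib.MP_ccffa6_gt.EX
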