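import Pool.Agent.Lib.MP_ccffa6_gt.EX.XDefs

noncomputable section

namespace Pool.Agent.Lib.MP_ccffa6_gt.EX

variable {I ι : Type} [Fintype I]

theorem one_le_wt (γ : I → ℤ) : 1 ≤ wt γ := by
  exact le_add_of_nonneg_right (norm_nonneg _)

theorem xlat_mem [DecidableEq I] {γ : I → ℤ} {R : ℕ} (h : ‖γ‖ ≤ R) :
    γ ∈ Fintype.piFinset fun _ : I => Finset.Icc (-(R : ℤ)) R := by
  refine Fintype.mem_piFinset.2 fun i => Finset.mem_Icc.2 (abs_le.1 ?_)
  have h1 := (norm_le_pi_norm γ i).trans h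
  rw [Int.norm_eq_abs] at h1
  exact_mod_cast h1

theorem xlat_card [DecidableEq I] (R : ℕ) :
    (Fintype.piFinset fun _ : I => Finset.Icc (-(R : ℤ)) R).card =
      (2 * R + 1) ^ Fintype.card I := by
  have h : (Finset.Icc (-(R : ℤ)) R).card = 2 * R + 1 := by
    rw [Int.card_Icc]
    omega
  rw [Fintype.card_piFinset, Finset.prod_const, h, Finset.card_univ]

theorem xlat_line (n : ℕ) :
    ∑ k ∈ Finset.Icc (-(n : ℤ)) n, 1 / (1 + |(k : ℝ)|) ^ 2 ≤ 3 - 2 / ((n : ℝ) + 1) := by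
  induction n with
  | zero => norm_num
  | succ n ih =>
    have e : Finset.Icc (-((n + 1 : ℕ) : ℤ)) (n + 1 : ℕ) =
        insert (-((n : ℤ) + 1)) (insert ((n : ℤ) + 1) (Finset.Icc (-(n : ℤ)) n)) := by
      ext k
      simp only [Finset.mem_Icc, Finset.mem_insert]
      omega
    rw [e, Finset.sum_insert (by simp only [Finset.mem_Icc, Finset.mem_insert]; omega),
      Finset.sum_insert (by simp only [Finset.mem_Icc]; omega)]
    have h0 : (0 : ℝ) < n + 1 := by positivity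
    have h1 : 2 / ((n : ℝ) + 1) - 2 / ((n : ℝ) + 1 + 1) - 2 * (1 / (1 + ((n : ℝ) + 1)) ^ 2) =
        2 / ((n + 1) * (n + 2) ^ 2) := by
      field_simp
      ring
    have h2 : (0 : ℝ) ≤ 2 / ((n + 1) * (n + 2) ^ 2) := by positivity
    push_cast
    rw [abs_neg, abs_of_pos h0]
    linarith

/-- Number of lattice points in a box (inject into `Fintype.piFinset fun _ => Icc (-R) R`). -/
theorem card_near [Fintype ι] (f : ι → I → ℤ) (hf : Function.Injective f) (R : ℕ) :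
    Nat.card {q // ‖f q‖ ≤ R} ≤ (2 * R + 1) ^ Fintype.card I := by
  classical
  rw [Nat.card_eq_fintype_card, Fintype.card_subtype, ← xlat_card]
  exact Finset.card_le_card_of_injOn f (fun q hq => xlat_mem (Finset.mem_filter.1 hq).2) hf.injOn

/-- Sketch: `wt γ ^ (2 m) ≥ ∏ i, (1 + |γ i|) ^ 2`; enlarge the image of `S` to a box
`piFinset fun _ => Icc (-n) n`, use `Finset.prod_univ_sum`, and
`∑ k ∈ Icc (-n) n, 1 / (1 + |k|) ^ 2 ≤ 3` (telescoping, induction on `n`). -/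
theorem sum_wt_le (f : ι → I → ℤ) (hf : Function.Injective f) (S : Finset ι) :
    ∑ q ∈ S, 1 / wt (f q) ^ (2 * Fintype.card I) ≤ 3 ^ Fintype.card I := by
  classical
  obtain ⟨n, hn⟩ := exists_nat_ge (∑ q ∈ S, ‖f q‖)
  have h1 : S.image f ⊆ Fintype.piFinset fun _ : I => Finset.Icc (-(n : ℤ)) n :=
    Finset.image_subset_iff.2 fun q hq => xlat_mem
      ((Finset.single_le_sum (f := fun q => ‖f q‖) (fun _ _ => norm_nonneg _) hq).trans hn)
  have h2 : ∀ γ : I → ℤ, 1 / wt γ ^ (2 * Fintype.card I) ≤ ∏ i, 1 / (1 + |(γ i : ℝ)|) ^ 2 := by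
    intro γ
    rw [pow_mul, ← one_div_pow, ← Finset.card_univ, ← Finset.prod_const]
    refine Finset.prod_le_prod (fun _ _ => by positivity) fun i _ => ?_
    have h3 := norm_le_pi_norm γ i
    rw [Int.norm_eq_abs] at h3
    unfold wt
    gcongr
  calc ∑ q ∈ S, 1 / wt (f q) ^ (2 * Fintype.card I)
      ≤ ∑ q ∈ S, ∏ i, 1 / (1 + |(f q i : ℝ)|) ^ 2 := Finset.sum_le_sum fun q _ => h2 _
    _ = ∑ γ ∈ S.image f, ∏ i, 1 / (1 + |(γ i : ℝ)|) ^ 2 :=
      (Finset.sum_image (f := fun γ : I → ℤ => ∏ i, 1 / (1 + |(γ i : ℝ)|) ^ 2) hf.injOn).symm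
    _ ≤ _ := Finset.sum_le_sum_of_subset_of_nonneg h1 fun _ _ _ => by positivity
    _ = ∏ _i : I, ∑ k ∈ Finset.Icc (-(n : ℤ)) n, 1 / (1 + |(k : ℝ)|) ^ 2 :=
      (Finset.prod_univ_sum _ fun _ (k : ℤ) => 1 / (1 + |(k : ℝ)|) ^ 2).symm
    _ ≤ ∏ _i : I, (3 : ℝ) := Finset.prod_le_prod (fun _ _ => by positivity) fun _ _ =>
      (xlat_line n).trans (sub_le_self _ (by positivity))
    _ = _ := by rw [Finset.prod_const, Finset.card_univ]

theorem xlat_tail (f : ι → I → ℤ) (hf : Function.Injective f) (S : Finset ι) (e : ℕ) (R : ℝ)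
    (hR : 0 ≤ R) (hS : ∀ q ∈ S, R ≤ ‖f q‖) :
    ∑ q ∈ S, 1 / wt (f q) ^ (2 * Fintype.card I + e) ≤ 3 ^ Fintype.card I / (1 + R) ^ e := by
  refine le_trans ?_ (div_le_div_of_nonneg_right (sum_wt_le f hf S) (by positivity))
  rw [Finset.sum_div]
  refine Finset.sum_le_sum fun q hq => ?_
  have h1 := hS q hq
  have h2 := one_le_wt (f q)
  rw [pow_add, ← div_div]
  gcongr
  unfold wt
  gcongr

theorem sum_wt_le' (f : ι → I → ℤ) (hf : Function.Injective f) (S : Finset ι) (e : ℕ) :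
    ∑ q ∈ S, 1 / wt (f q) ^ (2 * Fintype.card I + e) ≤ 3 ^ Fintype.card I := by
  simpa using xlat_tail f hf S e 0 le_rfl fun _ _ => norm_nonneg _

theorem tail_wt_le (f : ι → I → ℤ) (hf : Function.Injective f) (S : Finset ι) (e : ℕ) (R : ℝ)
    (hR : 0 ≤ R) (hS : ∀ q ∈ S, R ≤ ‖f q‖) :
    ∑ q ∈ S, 1 / wt (f q) ^ (2 * Fintype.card I + e) ≤ 3 ^ Fintype.card I / (1 + R) ^ e := by
  exact xlat_tail f hf S e R hR hS

/-- A net of the unit cube (the points with coordinates in `(1/n) ℤ ∩ [-1, 1]`). -/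
theorem cube_net (n : ℕ) (hn : 0 < n) :
    ∃ T : Finset (I → ℝ), T.card ≤ (2 * n + 1) ^ Fintype.card I ∧ (∀ t ∈ T, ‖t‖ ≤ 1) ∧
      ∀ u : I → ℝ, ‖u‖ ≤ 1 → ∃ t ∈ T, ‖u - t‖ ≤ 1 / n := by
  classical
  have h0 : (0 : ℝ) < n := Nat.cast_pos.2 hn
  refine ⟨(Fintype.piFinset fun _ : I => Finset.Icc (-(n : ℤ)) n).image
    fun γ i => (γ i : ℝ) / n, Finset.card_image_le.trans (xlat_card n).le, fun t ht => ?_,
    fun u hu => ⟨_, Finset.mem_image_of_mem _ (a := fun i => ⌊n * u i⌋) ?_, ?_⟩⟩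
  · obtain ⟨γ, hγ, rfl⟩ := Finset.mem_image.1 ht
    refine (pi_norm_le_iff_of_nonneg zero_le_one).2 fun i => ?_
    have h1 := abs_le.2 (Finset.mem_Icc.1 (Fintype.mem_piFinset.1 hγ i))
    rw [Real.norm_eq_abs, abs_div, abs_of_pos h0, div_le_one h0]
    exact_mod_cast h1
  · refine Fintype.mem_piFinset.2 fun i => Finset.mem_Icc.2 ?_
    obtain ⟨h1, h2⟩ := abs_le.1 ((norm_le_pi_norm u i).trans hu)
    refine ⟨Int.le_floor.2 (by push_cast; nlinarith), ?_⟩
    have h3 : (⌊n * u i⌋ : ℝ) ≤ n := (Int.floor_le _).trans (by nlinarith)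
    exact_mod_cast h3
  · refine (pi_norm_le_iff_of_nonneg (by positivity)).2 fun i => ?_
    have h1 := Int.floor_le (n * u i)
    have h2 := Int.lt_floor_add_one (n * u i)
    have h3 : u i - (⌊n * u i⌋ : ℝ) / n = (n * u i - ⌊n * u i⌋) / n := by field_simp
    rw [Pi.sub_apply, h3, Real.norm_eq_abs, abs_div, abs_of_pos h0,
      abs_of_nonneg (sub_nonneg.2 h1)]
    gcongr
    linarith

/-- A net of one affine chart of complex projective space (apply `cube_net` to the index type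
`{i // i ≠ k} × Bool`, of cardinality `2 r - 2`). -/
theorem chart_net (r n : ℕ) (hn : 0 < n) (k : Fin r) :
    ∃ T : Finset (Fin r → ℂ), T.card ≤ (2 * n + 1) ^ (2 * r - 2) ∧
      (∀ t ∈ T, t k = 1 ∧ ‖t‖ ≤ 2) ∧
      ∀ y : Fin r → ℂ, y k = 1 → ‖y‖ ≤ 1 → ∃ t ∈ T, ‖y - t‖ ≤ 2 / n := by
  obtain ⟨T, h1, h2, h3⟩ := cube_net (I := {i // i ≠ k} × Bool) n hn
  have hc : Fintype.card ({i // i ≠ k} × Bool) = 2 * r - 2 := by
    rw [Fintype.card_prod, Fintype.card_bool, Fintype.card_subtype_compl, Fintype.card_fin,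
      Fintype.card_unique]
    omega
  let F : ({i // i ≠ k} × Bool → ℝ) → Fin r → ℂ := fun t i =>
    if h : i = k then 1 else ⟨t (⟨i, h⟩, false), t (⟨i, h⟩, true)⟩
  classical
  refine ⟨T.image F, Finset.card_image_le.trans (hc ▸ h1), fun t ht => ?_, fun y hy hy' => ?_⟩
  · obtain ⟨t, ht', rfl⟩ := Finset.mem_image.1 ht
    refine ⟨dif_pos rfl, (pi_norm_le_iff_of_nonneg zero_le_two).2 fun i => ?_⟩
    by_cases h : i = k
    · simp [F, h]
    · have h4 : ∀ j, |t j| ≤ 1 := fun j => (norm_le_pi_norm t j).trans (h2 t ht')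
      simp only [F, dif_neg h]
      exact (Complex.norm_le_abs_re_add_abs_im _).trans
        ((add_le_add (h4 _) (h4 _)).trans_eq one_add_one_eq_two)
  · obtain ⟨t, ht, h4⟩ := h3 (fun j => if j.2 then (y j.1).im else (y j.1).re)
      ((pi_norm_le_iff_of_nonneg zero_le_one).2 fun j => by
        have h5 := (norm_le_pi_norm y j.1).trans hy'
        split_ifs
        · exact (Complex.abs_im_le_norm _).trans h5
        · exact (Complex.abs_re_le_norm _).trans h5)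
    refine ⟨F t, Finset.mem_image_of_mem _ ht,
      (pi_norm_le_iff_of_nonneg (by positivity)).2 fun i => ?_⟩
    by_cases h : i = k
    · simp only [F, Pi.sub_apply, dif_pos h]
      rw [h, hy, sub_self, norm_zero]
      positivity
    · have h5 := (norm_le_pi_norm _ (⟨i, h⟩, false)).trans h4
      have h6 := (norm_le_pi_norm _ (⟨i, h⟩, true)).trans h4
      simp only [F, Pi.sub_apply, dif_neg h]
      refine (Complex.norm_le_abs_re_add_abs_im _).trans ((add_le_add h5 h6).trans_eq ?_)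
      ring

end Pool.Agent.Lib.MP_ccffa6_gt.EX
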