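import Pool.Agent.Lib.MP_ccffa6_gt.EX.XHeis
import Pool.Agent.Lib.MP_ccffa6_gt.EX.XLat

open scoped ComplexConjugate

noncomputable section

namespace Pool.Agent.Lib.MP_ccffa6_gt.EX

section
variable {I : Type} [Fintype I] {f g : (I → ℝ) → ℂ} {A B : ℝ}

theorem LB.nonneg (hf : LB f A) : 0 ≤ A := by
  exact (norm_nonneg _).trans (hf.bd 0 (by simp))

theorem LB.mono (hf : LB f A) (h : A ≤ B) : LB f B := by
  exact ⟨fun u hu => (hf.bd u hu).trans h, fun u u' hu hu' =>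
    (hf.lip u u' hu hu').trans (mul_le_mul_of_nonneg_right h (norm_nonneg _))⟩

theorem LB.add (hf : LB f A) (hg : LB g B) : LB (fun u => f u + g u) (A + B) := by
  refine ⟨fun u hu => norm_add_le_of_le (hf.bd u hu) (hg.bd u hu), fun u u' hu hu' => ?_⟩
  rw [add_sub_add_comm, add_mul]
  exact norm_add_le_of_le (hf.lip u u' hu hu') (hg.lip u u' hu hu')

theorem LB.mul (hf : LB f A) (hg : LB g B) : LB (fun u => f u * g u) (2 * A * B) := by
  have hA := hf.nonneg
  have hB := hg.nonneg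
  refine ⟨fun u hu => (norm_mul_le_of_le (hf.bd u hu) (hg.bd u hu)).trans (by
    nlinarith [mul_nonneg hA hB]), fun u u' hu hu' => ?_⟩
  have e : f u * g u - f u' * g u' = f u * (g u - g u') + (f u - f u') * g u' := by ring
  rw [e]
  exact (norm_add_le_of_le (norm_mul_le_of_le (hf.bd u hu) (hg.lip u u' hu hu'))
    (norm_mul_le_of_le (hf.lip u u' hu hu') (hg.bd u' hu'))).trans_eq (by ring)

theorem LB.const (z : ℂ) : LB (fun _ : I → ℝ => z) ‖z‖ := by
  exact ⟨fun _ _ => le_rfl, fun _ _ _ _ => by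
    rw [sub_self, norm_zero]; positivity⟩

theorem LB.star (hf : LB f A) : LB (fun u => conj (f u)) A := by
  refine ⟨fun u hu => (Complex.norm_conj _).trans_le (hf.bd u hu), fun u u' hu hu' => ?_⟩
  rw [← map_sub, Complex.norm_conj]
  exact hf.lip u u' hu hu'

theorem LB.pow (hf : LB f A) (k : ℕ) : LB (fun u => f u ^ k) ((2 * A) ^ k) := by
  induction k with
  | zero => simpa using LB.const (I := I) 1
  | succ k ih =>
    simp only [pow_succ]
    exact (ih.mul hf).mono (le_of_eq (by ring))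

end

variable {N : ℕ}

theorem xlb_lat (γ : Ix N → ℤ) : ‖(lat γ).1‖ ≤ 2 * ‖γ‖ :=
  (norm_hz_fst_le _).trans (mul_le_mul_of_nonneg_left ((pi_norm_le_iff_of_nonneg
    (norm_nonneg _)).2 fun i => (Int.norm_cast_real _).trans_le (norm_le_pi_norm γ i)) zero_le_two)

theorem xlb_sub (u u' : Ix N → ℝ) : ‖(hz u).1 - (hz u').1‖ ≤ 2 * ‖u - u'‖ := by
  have := norm_hz_fst_le (u - u')
  rwa [hz_sub] at this

theorem LB_W (γ : Ix N → ℤ) (j : Fin N) :
    LB (fun u => (hz u).1 j - (lat γ).1 j) (2 * wt γ) := by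
  have h1 := one_le_wt γ
  refine ⟨fun u hu => ?_, fun u u' _ _ => ?_⟩
  · have a := (norm_le_pi_norm (hz u).1 j).trans (norm_hz_fst_le u)
    have b := (norm_le_pi_norm (lat γ).1 j).trans (xlb_lat γ)
    refine (norm_sub_le_of_le a b).trans ?_
    unfold wt
    linarith
  · rw [sub_sub_sub_cancel_right]
    refine ((norm_le_pi_norm ((hz u).1 - (hz u').1) j).trans (xlb_sub u u')).trans ?_
    nlinarith [norm_nonneg (u - u')]

/-- Sketch: with `a = (lat γ).1`, `w = (hz u).1`, `X = ‖1 - I d‖`: `X ≥ 1 + ∑ normSq (w j - a j)`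
and `X ≥ |s - b + 2 Im ⟨a, w⟩|`. Each coordinate of `a` is at most `‖w j - a j‖ + 2 ≤ X + 2`
(`t ≤ 1 + t ^ 2`), so `‖a‖ ≤ 3 X`, and `|b| ≤ X + 1 + 4 N ‖a‖`. -/
theorem wt_le_norm : ∃ C : ℝ, 1 ≤ C ∧ ∀ (γ : Ix N → ℤ) (u : Ix N → ℝ), ‖u‖ ≤ 1 →
    wt γ ≤ C * ‖1 - Complex.I * dd (hz u) (lat γ)‖ := by
  have hN : (0 : ℝ) ≤ N := N.cast_nonneg
  refine ⟨4 + 12 * N, by linarith, fun γ u hu => ?_⟩
  set X := ‖1 - Complex.I * dd (hz u) (lat γ)‖
  have h1 : 1 + ∑ j, Complex.normSq ((hz u).1 j - (lat γ).1 j) ≤ X :=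
    (re_one_sub _ _).symm.trans_le (Complex.re_le_norm _)
  have h2 : |(hz u).2 - (lat γ).2 + 2 * (herm (lat γ).1 (hz u).1).im| ≤ X := by
    rw [← abs_neg, ← im_one_sub]
    exact Complex.abs_im_le_norm _
  have h3 : 1 ≤ X :=
    (le_add_of_nonneg_right (Finset.sum_nonneg fun j _ => Complex.normSq_nonneg _)).trans h1
  have hw : ‖(hz u).1‖ ≤ 2 := (norm_hz_fst_le u).trans (by linarith)
  have h4 : ‖(lat γ).1‖ ≤ 3 * X := (pi_norm_le_iff_of_nonneg (by linarith)).2 fun j => by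
    have a := Finset.single_le_sum (f := fun j => Complex.normSq ((hz u).1 j - (lat γ).1 j))
      (fun j _ => Complex.normSq_nonneg _) (Finset.mem_univ j)
    have b := norm_sub_norm_le ((lat γ).1 j) ((hz u).1 j)
    have c := norm_le_pi_norm (hz u).1 j
    rw [norm_sub_rev] at b
    rw [Complex.normSq_eq_norm_sq] at a
    nlinarith [sq_nonneg (‖(hz u).1 j - (lat γ).1 j‖ - 1)]
  have h5 : |(herm (lat γ).1 (hz u).1).im| ≤ N * (3 * X) * 2 :=
    (Complex.abs_im_le_norm _).trans ((norm_herm_le _ _).trans (by gcongr))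
  have h6 := (abs_hz_snd_le u).trans hu
  have h7 : ‖γ‖ ≤ (3 + 12 * N) * X := (pi_norm_le_iff_of_nonneg (by positivity)).2 fun i => by
    have z : 0 ≤ N * X := by positivity
    rw [← Int.norm_cast_real, Real.norm_eq_abs]
    rcases i with _ | j | j
    · change |(lat γ).2| ≤ _
      rw [abs_le] at h2 h5 h6 ⊢
      constructor <;> nlinarith
    · have e : ((lat γ).1 j).re = γ (some (Sum.inl j)) := by simp [lat, hz]
      have := (Complex.abs_re_le_norm _).trans ((norm_le_pi_norm (lat γ).1 j).trans h4)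
      rw [e] at this
      nlinarith
    · have e : ((lat γ).1 j).im = γ (some (Sum.inr j)) := by simp [lat, hz]
      have := (Complex.abs_im_le_norm _).trans ((norm_le_pi_norm (lat γ).1 j).trans h4)
      rw [e] at this
      nlinarith
  unfold wt
  linarith

theorem dd_lip : ∃ C : ℝ, 1 ≤ C ∧ ∀ (γ : Ix N → ℤ) (u u' : Ix N → ℝ), ‖u‖ ≤ 1 → ‖u'‖ ≤ 1 →
    ‖dd (hz u) (lat γ) - dd (hz u') (lat γ)‖ ≤ C * wt γ * ‖u - u'‖ := by
  have hN : (0 : ℝ) ≤ N := N.cast_nonneg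
  refine ⟨1 + 16 * N, by linarith, fun γ u u' hu hu' => ?_⟩
  have h1 := one_le_wt γ
  have d0 := norm_nonneg (u - u')
  have e : dd (hz u) (lat γ) - dd (hz u') (lat γ) =
      (((hz (u - u')).2 + 2 * (herm (lat γ).1 ((hz u).1 - (hz u').1)).im : ℝ) : ℂ) +
      ((∑ j, (Complex.normSq ((hz u).1 j - (lat γ).1 j) -
        Complex.normSq ((hz u').1 j - (lat γ).1 j)) : ℝ) : ℂ) * Complex.I := by
    rw [hz_sub, herm_sub_right, Finset.sum_sub_distrib, dd, dd, Complex.sub_im, Prod.snd_sub]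
    push_cast
    ring
  have a1 : ‖(lat γ).1‖ ≤ 2 * wt γ := (xlb_lat γ).trans (by unfold wt; linarith)
  have a2 : |(herm (lat γ).1 ((hz u).1 - (hz u').1)).im| ≤ N * (2 * wt γ) * (2 * ‖u - u'‖) :=
    (Complex.abs_im_le_norm _).trans ((norm_herm_le _ _).trans (by
      have := xlb_sub u u'
      gcongr))
  have a3 : |∑ j, (Complex.normSq ((hz u).1 j - (lat γ).1 j) -
      Complex.normSq ((hz u').1 j - (lat γ).1 j))| ≤ N * (8 * wt γ * ‖u - u'‖) := by
    refine (Finset.abs_sum_le_sum_abs _ _).trans ((Finset.sum_le_card_nsmul _ _ _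
      fun j _ => ?_).trans_eq (by rw [Finset.card_univ, Fintype.card_fin, nsmul_eq_mul]))
    have b1 := (LB_W γ j).bd u hu
    have b2 := (LB_W γ j).bd u' hu'
    have b3 := abs_norm_sub_norm_le ((hz u).1 j - (lat γ).1 j) ((hz u').1 j - (lat γ).1 j)
    rw [sub_sub_sub_cancel_right] at b3
    have b4 := b3.trans ((norm_le_pi_norm ((hz u).1 - (hz u').1) j).trans (xlb_sub u u'))
    rw [Complex.normSq_eq_norm_sq, Complex.normSq_eq_norm_sq, sq_sub_sq, abs_mul,
      abs_of_nonneg (by positivity)]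
    exact (mul_le_mul (add_le_add b1 b2) b4 (abs_nonneg _) (by positivity)).trans_eq (by ring)
  have a4 := abs_hz_snd_le (u - u')
  rw [e]
  refine (norm_add_le _ _).trans ?_
  rw [norm_mul, Complex.norm_I, mul_one, Complex.norm_real, Complex.norm_real, Real.norm_eq_abs,
    Real.norm_eq_abs]
  have a5 := abs_add_le (hz (u - u')).2 (2 * (herm (lat γ).1 ((hz u).1 - (hz u').1)).im)
  rw [abs_mul, abs_two] at a5
  nlinarith

/-- `x⁻¹ - y⁻¹ = (y - x) x⁻¹ y⁻¹`. -/
theorem LB_ph : ∃ C : ℝ, 1 ≤ C ∧ ∀ γ : Ix N → ℤ,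
    LB (fun u => ph (hz u) (lat γ)) (C / wt γ) := by
  obtain ⟨C, hC, h⟩ := wt_le_norm (N := N)
  obtain ⟨C', hC', h'⟩ := dd_lip (N := N)
  have c1 : C ≤ C' * C * C := by nlinarith [mul_le_mul hC' hC zero_le_one (by linarith)]
  refine ⟨C' * C * C, hC.trans c1, fun γ => ?_⟩
  have h0 : 0 < wt γ := one_pos.trans_le (one_le_wt γ)
  have b : ∀ u, ‖u‖ ≤ 1 → ‖ph (hz u) (lat γ)‖ ≤ C / wt γ := fun u hu => by
    rw [ph, norm_inv, inv_eq_one_div, div_le_div_iff₀ (norm_pos_iff.2 (one_sub_ne _ _)) h0,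
      one_mul]
    exact h γ u hu
  refine ⟨fun u hu => (b u hu).trans (by gcongr), fun u u' hu hu' => ?_⟩
  have e : ph (hz u) (lat γ) - ph (hz u') (lat γ) = Complex.I *
      (dd (hz u) (lat γ) - dd (hz u') (lat γ)) * ph (hz u) (lat γ) * ph (hz u') (lat γ) := by
    have n1 := one_sub_ne (hz u) (lat γ)
    have n2 := one_sub_ne (hz u') (lat γ)
    unfold ph
    field_simp
    ring
  rw [e]
  refine (norm_mul_le_of_le (norm_mul_le_of_le (norm_mul_le_of_le Complex.norm_I.le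
    (h' γ u u' hu hu')) (b u hu)) (b u' hu')).trans_eq ?_
  field_simp

theorem LB_coA (e : ℕ) : ∃ C : ℝ, 1 ≤ C ∧ ∀ (γ : Ix N → ℤ) (k j : Option (Fin N)),
    LB (coA (e + 1) γ k j) (C / wt γ ^ e) := by
  obtain ⟨C, hC, h⟩ := LB_ph (N := N)
  have hQ : 1 ≤ (2 * C) ^ (e + 2) := one_le_pow₀ (by linarith)
  have hK : (0 : ℝ) ≤ (e + 1 : ℕ) := Nat.cast_nonneg _
  refine ⟨(64 * (e + 1 : ℕ) + 4) * (2 * C) ^ (e + 2), by nlinarith, fun γ k j => ?_⟩
  have h1 := one_le_wt γ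
  have h0 : 0 < wt γ := one_pos.trans_le h1
  rw [mul_div_assoc]
  set z := (2 * C) ^ (e + 2) / wt γ ^ e with hz'
  have z0 : 0 ≤ z := by positivity
  have z1 : z / wt γ ≤ z := div_le_self z0 h1
  have p1 : LB (fun u => ph (hz u) (lat γ) ^ (e + 1)) (z / wt γ) := ((h γ).pow _).mono (by
    rw [hz', div_div, ← pow_succ, ← mul_div_assoc, div_pow]
    exact div_le_div_of_nonneg_right (pow_le_pow_right₀ (by linarith) (by omega)) (by positivity))
  have p2 : LB (fun u => ph (hz u) (lat γ) ^ (e + 1 + 1)) (z / wt γ / wt γ) :=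
    ((h γ).pow _).mono (by
      rw [hz', div_div, div_div, ← pow_two, ← pow_add, ← mul_div_assoc, div_pow])
  have p3 : ∀ k, LB (fun u => -2 * ((e + 1 : ℕ) : ℂ) * conj ((hz u).1 k - (lat γ).1 k) *
      ph (hz u) (lat γ) ^ (e + 1 + 1)) (16 * (e + 1 : ℕ) * (z / wt γ)) := fun k =>
    (((LB.const _).mul (LB_W γ k).star).mul p2).mono (le_of_eq (by
      rw [norm_mul, norm_neg, Complex.norm_natCast, Complex.norm_two]
      field_simp
      ring))
  have z2 := mul_nonneg hK z0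
  rcases k with _ | k <;> rcases j with _ | j
  · exact p1.mono (by nlinarith)
  · refine (p1.mul (LB_W γ j)).mono ?_
    have : 2 * (z / wt γ) * (2 * wt γ) = 4 * z := by field_simp; ring
    nlinarith
  · exact (p3 k).mono (by nlinarith [mul_le_mul_of_nonneg_left z1 hK])
  · have p4 : LB (fun u => if k = j then ph (hz u) (lat γ) ^ (e + 1) else 0) z := by
      split_ifs
      · exact p1.mono z1
      · exact (LB.const 0).mono (by rwa [norm_zero])
    refine (((p3 k).mul (LB_W γ j)).add p4).mono ?_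
    have : 2 * (16 * ((e + 1 : ℕ) : ℝ) * (z / wt γ)) * (2 * wt γ) = 64 * (e + 1 : ℕ) * z := by
      field_simp; ring
    nlinarith

end Pool.Agent.Lib.MP_ccffa6_gt.EX
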