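import Pool.Agent.Lib.MP_ccffa6_gt.EX.XNd

open scoped ComplexConjugate ContDiff

noncomputable section

namespace Pool.Agent.Lib.MP_ccffa6_gt.EX

variable {N : ℕ}

theorem xsig_coord (j : Fin N) : ContDiff ℝ ∞ (fun x : Hz N => x.1 j) :=
  (contDiff_apply ℝ ℂ j).comp contDiff_fst

theorem contDiff_dd (q : Hz N) : ContDiff ℝ ∞ (fun x : Hz N => dd x q) := by
  have h1 : ContDiff ℝ ∞ (fun x : Hz N => x.2 - q.2 + 2 * (herm q.1 x.1).im) :=
    (contDiff_snd.sub contDiff_const).add (contDiff_const.mul (Complex.imCLM.contDiff.comp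
      (ContDiff.sum fun j _ => contDiff_const.mul (xsig_coord j))))
  have h2 : ContDiff ℝ ∞ (fun x : Hz N => ∑ j, Complex.normSq (x.1 j - q.1 j)) :=
    ContDiff.sum fun j _ => by
      have h := (xsig_coord j).sub (contDiff_const (c := q.1 j))
      have hr := Complex.reCLM.contDiff.comp h
      have hi := Complex.imCLM.contDiff.comp h
      exact (hr.mul hr).add (hi.mul hi)
  exact (Complex.ofRealCLM.contDiff.comp h1).add
    ((Complex.ofRealCLM.contDiff.comp h2).mul contDiff_const)

theorem contDiff_ph (q : Hz N) : ContDiff ℝ ∞ (fun x : Hz N => ph x q) :=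
  (contDiff_const.sub (contDiff_const.mul (contDiff_dd q))).inv fun x => one_sub_ne x q

theorem xsig_line {F : Type} [NormedAddCommGroup F] [NormedSpace ℝ F] {f : Hz N → F}
    (hf : ContDiff ℝ ∞ f) {x w : Hz N} {c : F}
    (h : HasDerivAt (fun t : ℝ => f (x + t • w)) c 0) : fderiv ℝ f x w = c :=
  (((hf.differentiable (by simp)) x).hasFDerivAt.hasLineDerivAt w).unique h

theorem xsig_dd_eq (x q : Hz N) (v : Fin N → ℂ) (t : ℝ) :
    dd (x + t • hat x v) q = dd x q + t * (2 * Complex.I * ∑ k, conj (x.1 k - q.1 k) * v k)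
      + (t : ℂ) ^ 2 * (Complex.I * ∑ k, conj (v k) * v k) := by
  have h1 : ∀ a w : Fin N → ℂ, (((herm a w).im : ℝ) : ℂ) =
      ∑ k, (conj (a k) * w k - a k * conj (w k)) / (2 * Complex.I) := fun a w => by
    rw [herm, Complex.im_sum, Complex.ofReal_sum]
    exact Finset.sum_congr rfl fun k _ => by rw [Complex.im_eq_sub_conj]; simp
  simp only [dd, hat, Prod.fst_add, Prod.snd_add, Prod.smul_fst, Prod.smul_snd, smul_eq_mul,
    Complex.ofReal_add, Complex.ofReal_sub, Complex.ofReal_mul, Complex.ofReal_neg,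
    Complex.ofReal_ofNat, Complex.ofReal_sum, h1, Complex.normSq_eq_conj_mul_self, Pi.add_apply,
    Pi.smul_apply, Complex.real_smul, Finset.mul_sum, Finset.sum_mul, map_add, map_sub, map_mul,
    Complex.conj_ofReal]
  have hI : Complex.I * Complex.I = -1 := Complex.I_mul_I
  have key : ∀ A B C A' B' C' D' : Fin N → ℂ, (∀ k, A k + B k + C k = A' k + B' k + C' k + D' k) →
      ∀ a b : ℂ, a + ∑ k, A k - b + ∑ k, B k + ∑ k, C k =
        a - b + ∑ k, A' k + ∑ k, B' k + ∑ k, C' k + ∑ k, D' k := fun A B C A' B' C' D' h a b => by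
    have := Finset.sum_congr (s₁ := Finset.univ) rfl fun k _ => h k
    simp only [Finset.sum_add_distrib] at this
    linear_combination this
  refine key _ _ _ _ _ _ _ (fun k => ?_) _ _
  field_simp
  linear_combination (-(t : ℂ) * (conj (x.1 k) * v k - x.1 k * conj (v k)
    - conj (q.1 k) * v k + q.1 k * conj (v k))) * hI

theorem xsig_dd (x q : Hz N) (v : Fin N → ℂ) :
    HasDerivAt (fun t : ℝ => dd (x + t • hat x v) q)
      (2 * Complex.I * ∑ k, conj (x.1 k - q.1 k) * v k) 0 := by
  simp only [xsig_dd_eq]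
  have h0 : HasDerivAt (fun t : ℝ => (t : ℂ)) 1 0 := Complex.ofRealCLM.hasDerivAt
  have h := ((h0.mul_const (2 * Complex.I * ∑ k, conj (x.1 k - q.1 k) * v k)).const_add
    (dd x q)).add ((h0.fun_pow 2).mul_const (Complex.I * ∑ k, conj (v k) * v k))
  exact h.congr_deriv (by simp)

/-- The derivative of `dd` along the contact plane. -/
theorem fderiv_dd_hat (x q : Hz N) (v : Fin N → ℂ) :
    fderiv ℝ (fun x : Hz N => dd x q) x (hat x v)
      = 2 * Complex.I * ∑ k, conj (x.1 k - q.1 k) * v k :=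
  xsig_line (contDiff_dd q) (xsig_dd x q v)

theorem contDiff_co (K : ℕ) (q : Hz N) (j : Option (Fin N)) :
    ContDiff ℝ ∞ (fun x : Hz N => co K x q none j) := by
  cases j with
  | none => exact (contDiff_ph q).pow K
  | some j => exact ((contDiff_ph q).pow K).mul ((xsig_coord j).sub contDiff_const)

theorem xsig_ph (K : ℕ) (x q : Hz N) (v : Fin N → ℂ) :
    HasDerivAt (fun t : ℝ => ph (x + t • hat x v) q ^ K)
      (∑ k, v k * (-2 * K * conj (x.1 k - q.1 k) * ph x q ^ (K + 1))) 0 := by
  have h := (((xsig_dd x q v).const_mul Complex.I).const_sub 1).fun_inv (one_sub_ne _ q)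
  refine (h.fun_pow K).congr_deriv ?_
  have hI : Complex.I * Complex.I = -1 := Complex.I_mul_I
  have hs : ∑ k, v k * (-2 * K * conj (x.1 k - q.1 k) * ph x q ^ (K + 1)) =
      -2 * K * ph x q ^ (K + 1) * ∑ k, conj (x.1 k - q.1 k) * v k := by
    rw [Finset.mul_sum]; exact Finset.sum_congr rfl fun k _ => by ring
  rw [hs, zero_smul, add_zero, div_eq_mul_inv, ← inv_pow]
  change (K : ℂ) * ph x q ^ (K - 1) * (_ * ph x q ^ 2) = _
  cases K with
  | zero => simp
  | succ K =>
    rw [Nat.add_sub_cancel]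
    linear_combination (2 * ((K + 1 : ℕ) : ℂ) * ph x q ^ (K + 2)
      * ∑ k, conj (x.1 k - q.1 k) * v k) * hI

theorem fderiv_co_hat (K : ℕ) (x q : Hz N) (j : Option (Fin N)) (v : Fin N → ℂ) :
    fderiv ℝ (fun x : Hz N => co K x q none j) x (hat x v)
      = ∑ k, v k * co K x q (some k) j := by
  refine xsig_line (contDiff_co K q j) ?_
  cases j with
  | none => exact xsig_ph K x q v
  | some j =>
    have h0 : HasDerivAt (fun t : ℝ => (x + t • hat x v).1 j - q.1 j) (v j) 0 :=
      ((((hasDerivAt_id (0 : ℝ)).smul_const (v j)).const_add (x.1 j)).sub_const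
        (q.1 j)).congr_deriv (one_smul _ _)
    refine ((xsig_ph K x q v).fun_mul h0).congr_deriv ?_
    simp only [co, zero_smul, add_zero, mul_add, Finset.sum_add_distrib, mul_ite, mul_zero,
      Finset.sum_ite_eq', Finset.mem_univ, if_true, Finset.sum_mul]
    rw [mul_comm (v j)]
    congr 1
    exact Finset.sum_congr rfl fun k _ => by ring

theorem contDiff_sig {D : ℕ} (K : ℕ) (S : Finset (Ix N → ℤ))
    (b : (Ix N → ℤ) → Option (Fin N) → Fin D → ℂ) : ContDiff ℝ ∞ (sig K S b none) :=
  ContDiff.sum fun q _ => ContDiff.sum fun j _ => (contDiff_co K (lat q) j).smul contDiff_const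

theorem fderiv_sig_hat {D : ℕ} (K : ℕ) (S : Finset (Ix N → ℤ))
    (b : (Ix N → ℤ) → Option (Fin N) → Fin D → ℂ) (x : Hz N) (v : Fin N → ℂ) :
    fderiv ℝ (sig K S b none) x (hat x v) = cols (fun k => sig K S b (some k) x) v := by
  refine xsig_line (contDiff_sig K S b) ?_
  have h : ∀ q j, HasDerivAt (fun t : ℝ => co K (x + t • hat x v) (lat q) none j • b q j)
      ((∑ k, v k * co K x (lat q) (some k) j) • b q j) 0 := fun q j => by
    rw [← fderiv_co_hat]
    exact ((((contDiff_co K (lat q) j).differentiable (by simp)) x).hasFDerivAt.hasLineDerivAt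
      (hat x v)).smul_const _
  refine (HasDerivAt.fun_sum fun q _ => HasDerivAt.fun_sum fun j _ => h q j).congr_deriv ?_
  rw [cols_apply]
  simp only [sig, Finset.smul_sum, Finset.sum_smul, mul_smul]
  rw [Finset.sum_comm (s := Finset.univ) (t := S)]
  exact Finset.sum_congr rfl fun q _ => Finset.sum_comm

end Pool.Agent.Lib.MP_ccffa6_gt.EX
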