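import Pool.Agent.Lib.MP_ccffa6_gt.EX.XCoreA
import Pool.Agent.Lib.MP_ccffa6_gt.EX.XLB
import Pool.Agent.Lib.MP_ccffa6_gt.EX.XSig

open scoped ContDiff

noncomputable section

namespace Pool.Agent.Lib.MP_ccffa6_gt.EX

variable {N : ℕ}

/-- Bound for the section and its derivatives at any point. -/
theorem norm_sig_le {D : ℕ} {K e : ℕ} {C B : ℝ} (hC : 0 ≤ C) (hB : 0 ≤ B)
    (ha : ∀ (γ : Ix N → ℤ) k j, LB (coA K γ k j) (C / wt γ ^ (2 * Fintype.card (Ix N) + e)))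
    (S : Finset (Ix N → ℤ)) (b : (Ix N → ℤ) → Option (Fin N) → Fin D → ℂ)
    (hb : ∀ q j, ‖b q j‖ ≤ B) (k : Option (Fin N)) (x : Hz N) :
    ‖sig K S b k x‖ ≤ (N + 1) * C * B * 3 ^ Fintype.card (Ix N) := by
  obtain ⟨p, u, hu, rfl⟩ := exists_tile x
  have h1 : ∀ q ∈ S, ‖∑ j, co K (mul (lat p) (hz u)) (lat q) k j • b q j‖ ≤
      (N + 1) * C * B * (1 / wt (relZ p q) ^ (2 * Fintype.card (Ix N) + e)) := fun q _ => by
    refine (norm_sum_le_of_le _ (n := fun _ =>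
      C / wt (relZ p q) ^ (2 * Fintype.card (Ix N) + e) * B) fun j _ => ?_).trans (le_of_eq ?_)
    · rw [norm_smul, co_tile]
      exact mul_le_mul ((ha _ k j).bd u hu) (hb q j) (norm_nonneg _) (ha _ k j).nonneg
    · rw [Finset.sum_const, Finset.card_univ, Fintype.card_option, Fintype.card_fin, nsmul_eq_mul]
      push_cast
      ring
  refine (norm_sum_le_of_le _ h1).trans ?_
  rw [← Finset.mul_sum]
  exact mul_le_mul_of_nonneg_left (sum_wt_le' _ (relZ_injective p) S e) (by positivity)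

/-- The frame at `p` turns the section into the abstract jet. -/
theorem frame_sig {D r : ℕ} (K : ℕ) (S : Finset (Ix N → ℤ))
    (fr : S → (Fin r → ℂ) →L[ℂ] (Fin D → ℂ)) (π : S → (Fin D → ℂ) →L[ℂ] (Fin r → ℂ))
    (c : S → Option (Fin N) → Fin r → ℂ) (b : (Ix N → ℤ) → Option (Fin N) → Fin D → ℂ)
    (hb : ∀ (q : S) j, b q j = fr q (c q j)) (p : S) (k : Option (Fin N)) (u : Ix N → ℝ) :
    π p (sig K S b k (mul (lat p) (hz u)))
      = jet (coA K) (fun p q : S => relZ (p : Ix N → ℤ) q) (fun p q => π p ∘L fr q) Finset.univ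
          c p k u := by
  rw [sig, jet, ← Finset.sum_coe_sort S, map_sum]
  refine Finset.sum_congr rfl fun q _ => ?_
  rw [map_sum]
  refine Finset.sum_congr rfl fun j _ => ?_
  rw [map_smul, co_tile, hb, ContinuousLinearMap.comp_apply]

/-- Transfer of a right inverse from the frame at a nearby point. -/
theorem transfer {D r : ℕ} (P P0 : (Fin D → ℂ) →L[ℂ] (Fin D → ℂ))
    (fr : (Fin r → ℂ) →L[ℂ] (Fin D → ℂ)) (π : (Fin D → ℂ) →L[ℂ] (Fin r → ℂ))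
    (h0 : fr ∘L π = P0) (A : (Fin N → ℂ) →L[ℂ] (Fin D → ℂ)) (R0 : (Fin r → ℂ) →L[ℂ] (Fin N → ℂ))
    (hR : (π ∘L A) ∘L R0 = 1) :
    ‖P ∘L A ∘L (R0 ∘L π) - P‖ ≤ ‖P - P0‖ * (‖A‖ * ‖R0‖ * ‖π‖ + 1) := by
  have h1 : P0 ∘L A ∘L (R0 ∘L π) = P0 := by
    ext1 v
    have h2 := DFunLike.congr_fun hR (π v)
    simp only [ContinuousLinearMap.comp_apply, one_apply_eq_self] at h2
    simp only [← h0, ContinuousLinearMap.comp_apply, h2]
  have h3 : P ∘L A ∘L (R0 ∘L π) - P = (P - P0) ∘L A ∘L (R0 ∘L π) - (P - P0) := by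
    rw [ContinuousLinearMap.sub_comp, h1]
    abel
  have h4 : ‖A ∘L (R0 ∘L π)‖ ≤ ‖A‖ * ‖R0‖ * ‖π‖ := by
    rw [mul_assoc]
    exact (A.opNorm_comp_le _).trans
      (mul_le_mul_of_nonneg_left (R0.opNorm_comp_le _) (norm_nonneg _))
  rw [h3, mul_add, mul_one]
  exact (norm_sub_le _ _).trans (add_le_add_left (((P - P0).opNorm_comp_le _).trans
    (mul_le_mul_of_nonneg_left h4 (norm_nonneg _))) _)

/-- The random section at unit scale. -/
theorem coreB (N D r : ℕ) (C0 ε : ℝ) (hC0 : 0 ≤ C0) (hε : 0 < ε) :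
    ∃ η θ : ℝ, 0 < η ∧ 0 < θ ∧ ∀ (K : Set (Hz N)), Bornology.IsBounded K →
      ∀ (s0 : Hz N → Fin D → ℂ) (P : Hz N → (Fin D → ℂ) →L[ℂ] (Fin D → ℂ)),
        (∀ x ∈ K, P x ∘L P x = P x) →
        (∀ x ∈ K, Module.finrank ℂ
          (LinearMap.range (P x : (Fin D → ℂ) →ₗ[ℂ] (Fin D → ℂ))) = r) →
        (∀ x ∈ K, ‖P x‖ ≤ C0) →
        (∀ x ∈ K, ∀ x' ∈ K, Close x x' → ‖s0 x - s0 x'‖ ≤ θ ∧ ‖P x - P x'‖ ≤ θ) →
        ∃ (σ : Hz N → Fin D → ℂ) (A : Hz N → (Fin N → ℂ) →L[ℂ] (Fin D → ℂ)),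
          ContDiff ℝ ∞ σ ∧ (∀ x, ‖σ x‖ ≤ ε) ∧ (∀ x v, fderiv ℝ σ x (hat x v) = A x v) ∧
          (∀ x, ‖A x‖ ≤ N * ε) ∧
          ∀ x ∈ K, ‖s0 x + P x (σ x)‖ ≤ θ → ∃ R : (Fin D → ℂ) →L[ℂ] (Fin N → ℂ),
            ‖P x ∘L A x ∘L R - P x‖ ≤ 1 / 4 ∧ η * ‖R‖ ≤ 1 := by
  classical
  obtain ⟨C1, hC1, ha⟩ := LB_coA (N := N) (2 * Fintype.card (Ix N) + (Fintype.card (Ix N) + 1))
  generalize 2 * Fintype.card (Ix N) + (Fintype.card (Ix N) + 1) + 1 = K0 at ha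
  obtain ⟨C2, hC2, hnd⟩ := coA_nondeg (N := N) K0
  have hDC : (0 : ℝ) ≤ D * C0 := by positivity
  have hC3 : (0 : ℝ) ≤ D * C0 * r := by positivity
  obtain ⟨C, hC⟩ : ∃ C : ℝ, C = C1 + C2 + D * C0 * r := ⟨_, rfl⟩
  have hC1' : C1 ≤ C := by linarith
  have hC2' : C2 ≤ C := by linarith
  have hC' : 1 ≤ C := hC1.trans hC1'
  have ha' : ∀ (γ : Ix N → ℤ) k j, LB (coA K0 γ k j)
      (C / wt γ ^ (2 * Fintype.card (Ix N) + (Fintype.card (Ix N) + 1))) := fun γ k j =>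
    (ha γ k j).mono (div_le_div_of_nonneg_right hC1'
      (pow_nonneg (zero_le_one.trans (one_le_wt γ)) _))
  obtain ⟨Q, hQ⟩ : ∃ Q : ℝ, Q = (N + 1) * C * r * 3 ^ Fintype.card (Ix N) := ⟨_, rfl⟩
  have hQ0 : 0 ≤ Q := by rw [hQ]; positivity
  have hε' : 0 < ε / (Q + 1) := by positivity
  have hQε : (N + 1) * C * (r * (ε / (Q + 1))) * 3 ^ Fintype.card (Ix N) ≤ ε := by
    have : Q * (ε / (Q + 1)) ≤ ε := by
      rw [← mul_div_assoc, div_le_iff₀ (by positivity)]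
      nlinarith
    refine le_trans (le_of_eq ?_) this
    rw [hQ]
    ring
  obtain ⟨η0, hη0, hA⟩ := coreA N r card_Ix.le C _ hC' hε' (coA K0) ha'
    (fun u hu z => ((hnd u hu).1 z).trans (mul_le_mul_of_nonneg_right hC2' (norm_nonneg _)))
    (fun u hu => (hnd u hu).2.trans (mul_le_mul_of_nonneg_right hC2' (norm_nonneg _)))
  obtain ⟨T, hT⟩ : ∃ T : ℝ, T = N * ε * (r * r / η0) * (D * C0) + 1 := ⟨_, rfl⟩
  have hT0 : 0 < T := by rw [hT]; positivity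
  refine ⟨η0 / (r * r * (D * C0) + 1), min (η0 / (D * C0 * (2 + ε) + 1)) (1 / 4 / T),
    by positivity, by positivity, fun K hK s0 P hPP hr hP hθ => ?_⟩
  generalize hθ0 : min (η0 / (D * C0 * (2 + ε) + 1)) (1 / 4 / T) = θ at hθ ⊢
  have hθp : 0 < θ := by rw [← hθ0]; positivity
  have hθ1 : D * C0 * (θ + (θ + θ * ε)) ≤ η0 := by
    have := (le_div_iff₀ (by positivity)).1 (hθ0 ▸ min_le_left _ _ : θ ≤ η0 / (D * C0 * (2 + ε) + 1))
    nlinarith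
  have hθ2 : θ * T ≤ 1 / 4 := (le_div_iff₀ hT0).1 (hθ0 ▸ min_le_right _ _)
  obtain ⟨S, hS⟩ : ∃ S : Finset (Ix N → ℤ), ∀ γ, γ ∈ S ↔
      ∃ u, ‖u‖ ≤ 1 ∧ mul (lat γ) (hz u) ∈ K := ⟨_, fun γ => (finite_tiles hK).mem_toFinset⟩
  choose w hw1 hw2 using fun p : S => (hS p).1 p.2
  choose fr π h1 h2 h3 h4 using fun p : S => exists_frame _ (hPP _ (hw2 p)) (hr _ (hw2 p))
  have h5 : ∀ p, ‖π p‖ ≤ D * C0 := fun p =>
    (h4 p).trans (mul_le_mul_of_nonneg_left (hP _ (hw2 p)) (Nat.cast_nonneg D))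
  obtain ⟨c, hc, hg⟩ := hA S (fun p q => relZ (p : Ix N → ℤ) q)
    (fun p => (relZ_injective _).comp Subtype.val_injective) (fun p => relZ_self _)
    (fun p q => norm_relZ_swap _ _) (fun p => π p (s0 (mul (lat p) (hz (w p)))))
    (fun p q => π p ∘L fr q) (fun p q => ((π p).opNorm_comp_le _).trans
      ((mul_le_mul (h5 p) (h3 q) (norm_nonneg _) hDC).trans (by linarith))) h1
  obtain ⟨b, hb⟩ : ∃ b : (Ix N → ℤ) → Option (Fin N) → Fin D → ℂ,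
      ∀ q j, b q j = if h : q ∈ S then fr ⟨q, h⟩ (c ⟨q, h⟩ j) else 0 := ⟨_, fun _ _ => rfl⟩
  have hb1 : ∀ (q : S) j, b q j = fr q (c q j) := fun q j => by rw [hb, dif_pos q.2]
  have hb2 : ∀ q j, ‖b q j‖ ≤ r * (ε / (Q + 1)) := fun q j => by
    rw [hb]
    split_ifs with h
    · exact ((fr _).le_opNorm _).trans
        (mul_le_mul (h3 _) (hc _ _) (norm_nonneg _) (Nat.cast_nonneg r))
    · rw [norm_zero]
      positivity
  have hσ : ∀ k x, ‖sig K0 S b k x‖ ≤ ε := fun k x =>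
    (norm_sig_le (zero_le_one.trans hC') (by positivity) ha' S b hb2 k x).trans hQε
  refine ⟨sig K0 S b none, fun x => cols fun k => sig K0 S b (some k) x, contDiff_sig _ _ _,
    hσ none, fderiv_sig_hat _ _ _, fun x => norm_cols_le _ hε.le fun k => hσ (some k) x,
    fun x hx h0 => ?_⟩
  obtain ⟨γ, u, hu, rfl⟩ := exists_tile x
  obtain ⟨p, rfl⟩ : ∃ p : S, (p : Ix N → ℤ) = γ := ⟨⟨γ, (hS γ).2 ⟨u, hu, hx⟩⟩, rfl⟩
  obtain ⟨h6, h7⟩ := hθ _ hx _ (hw2 p) ⟨_, u, w p, hu, hw1 p, rfl, rfl⟩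
  have h8 := hg p u hu
  simp only [← frame_sig K0 S fr π c b hb1] at h8
  have hAn := norm_cols_le _ hε.le fun k => hσ (some k) (mul (lat p) (hz u))
  have hσ0 := hσ none (mul (lat p) (hz u))
  have h2p := h2 p
  generalize mul (lat (p : Ix N → ℤ)) (hz u) = x at *
  generalize mul (lat (p : Ix N → ℤ)) (hz (w p)) = x' at *
  have h9 : π p (s0 x') + π p (sig K0 S b none x) =
      π p ((s0 x + P x (sig K0 S b none x))
        - ((s0 x - s0 x') + (P x - P x') (sig K0 S b none x))) := by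
    have e1 : π p (P x' (sig K0 S b none x)) = π p (sig K0 S b none x) := by
      rw [← h2p]
      exact DFunLike.congr_fun (h1 p) _
    rw [sub_apply, sub_add_sub_comm, sub_sub_cancel, map_add, e1]
  obtain ⟨R0, hR, hR0⟩ := exists_right_inv _ hη0 (h8 (by
    rw [h9]
    refine (((π p).le_opNorm _).trans (mul_le_mul (h5 p) ((norm_sub_le _ _).trans
      (add_le_add h0 ((norm_add_le _ _).trans
      (add_le_add h6 (((P x - P x').le_opNorm _).trans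
        (mul_le_mul h7 hσ0 (norm_nonneg _) hθp.le)))))) (norm_nonneg _) hDC)).trans hθ1))
  have hR1 : ‖R0‖ ≤ r * r / η0 := by rwa [le_div_iff₀ hη0, mul_comm]
  refine ⟨R0 ∘L π p, (transfer _ _ (fr p) (π p) h2p _ R0 ?_).trans (le_trans ?_ hθ2), ?_⟩
  · rw [← hR]
    congr 1
    ext1 v
    simp only [ContinuousLinearMap.comp_apply, cols_apply, map_sum, map_smul]
  · refine mul_le_mul h7 ?_ (by positivity) hθp.le
    rw [hT]
    gcongr
    exact h5 p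
  · have e2 : η0 * ‖R0 ∘L π p‖ ≤ r * r * (D * C0) :=
      (mul_le_mul_of_nonneg_left (R0.opNorm_comp_le _) hη0.le).trans
        ((mul_assoc _ _ _).ge.trans (mul_le_mul hR0 (h5 p) (norm_nonneg _) (by positivity)))
    rw [div_mul_eq_mul_div, div_le_one (by positivity)]
    linarith

end Pool.Agent.Lib.MP_ccffa6_gt.EX
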