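import Mathlib

/-! Block EX: definitions for the random CR section on the Heisenberg group. -/

open scoped ComplexConjugate

noncomputable section

namespace Pool.Agent.Lib.MP_ccffa6_gt.EX

/-- Weight of a lattice point. -/
def wt {I : Type} [Fintype I] (γ : I → ℤ) : ℝ := 1 + ‖γ‖

/-- `f` is bounded by `M` and `M`-Lipschitz on the unit cube. -/
structure LB {I : Type} [Fintype I] (f : (I → ℝ) → ℂ) (M : ℝ) : Prop where
  bd : ∀ u, ‖u‖ ≤ 1 → ‖f u‖ ≤ M
  lip : ∀ u u', ‖u‖ ≤ 1 → ‖u'‖ ≤ 1 → ‖f u - f u'‖ ≤ M * ‖u - u'‖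

/-- The jet at the tile `p` of the sum over the indices in `S`
(`k = none`: value, `k = some k'`: derivative in the direction `k'`). -/
def jet {I ι : Type} {N r : ℕ}
    (a : (I → ℤ) → Option (Fin N) → Option (Fin N) → (I → ℝ) → ℂ) (rel : ι → ι → I → ℤ)
    (M : ι → ι → (Fin r → ℂ) →L[ℂ] (Fin r → ℂ)) (S : Finset ι)
    (c : ι → Option (Fin N) → Fin r → ℂ) (p : ι) (k : Option (Fin N)) (u : I → ℝ) : Fin r → ℂ :=
  ∑ q ∈ S, ∑ j, a (rel p q) k j u • M p q (c q j)

/-- Grid points of the coefficient space. -/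
abbrev Grid (N r n : ℕ) : Type := Option (Fin N) × Fin r × Bool → Fin n

/-- The coefficient vector of a grid point, mesh `h`. -/
def gridVec {N r n : ℕ} (h : ℝ) (g : Grid N r n) (j : Option (Fin N)) (i : Fin r) : ℂ :=
  (h : ℂ) * (((g (j, i, false) : ℕ) : ℂ) + ((g (j, i, true) : ℕ) : ℂ) * Complex.I)

/-- The Heisenberg group as a vector space. -/
abbrev Hz (N : ℕ) : Type := (Fin N → ℂ) × ℝ

/-- Real coordinates of the Heisenberg group. -/
abbrev Ix (N : ℕ) : Type := Option (Fin N ⊕ Fin N)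

variable {N : ℕ}

/-- Hermitian product. -/
def herm (a w : Fin N → ℂ) : ℂ := ∑ j, conj (a j) * w j

/-- Point with given real coordinates. -/
def hz (u : Ix N → ℝ) : Hz N :=
  (fun j => (u (some (Sum.inl j)) : ℂ) + (u (some (Sum.inr j)) : ℂ) * Complex.I, u none)

/-- Lattice point. -/
def lat (γ : Ix N → ℤ) : Hz N := hz fun i => (γ i : ℝ)

/-- Group law. -/
def mul (p x : Hz N) : Hz N := (p.1 + x.1, p.2 + x.2 - 2 * (herm p.1 x.1).im)

/-- Coordinates of `p⁻¹ q` for lattice points. -/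
def relZ (p q : Ix N → ℤ) : Ix N → ℤ
  | none => q none - p none + 2 * ∑ j, (p (some (Sum.inl j)) * q (some (Sum.inr j))
      - p (some (Sum.inr j)) * q (some (Sum.inl j)))
  | some i => q (some i) - p (some i)

/-- The left invariant lift of `v` to the contact plane of `dt + 2 (x dy - y dx)`. -/
def hat (x : Hz N) (v : Fin N → ℂ) : Hz N := (v, -2 * (herm x.1 v).im)

/-- The Szego kernel coordinate `ζ - conj β - 2 i w · conj a`. -/
def dd (x q : Hz N) : ℂ :=
  ((x.2 - q.2 + 2 * (herm q.1 x.1).im : ℝ) : ℂ)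
    + ((∑ j, Complex.normSq (x.1 j - q.1 j) : ℝ) : ℂ) * Complex.I

/-- The basic peak function. -/
def ph (x q : Hz N) : ℂ := (1 - Complex.I * dd x q)⁻¹

/-- Values (`k = none`) and derivatives along the contact plane (`k = some k'`) of the peak
functions `ph ^ K` (`j = none`) and `ph ^ K * (w j' - a j')` (`j = some j'`). -/
def co (K : ℕ) (x q : Hz N) : Option (Fin N) → Option (Fin N) → ℂ
  | none, none => ph x q ^ K
  | none, some j => ph x q ^ K * (x.1 j - q.1 j)
  | some k, none => -2 * K * conj (x.1 k - q.1 k) * ph x q ^ (K + 1)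
  | some k, some j => -2 * K * conj (x.1 k - q.1 k) * ph x q ^ (K + 1) * (x.1 j - q.1 j)
      + if k = j then ph x q ^ K else 0

/-- The coefficient functions on the unit cube. -/
def coA (K : ℕ) (γ : Ix N → ℤ) (k j : Option (Fin N)) (u : Ix N → ℝ) : ℂ :=
  co K (hz u) (lat γ) k j

/-- The random section (`k = none`) and its derivatives (`k = some k'`). -/
def sig {D : ℕ} (K : ℕ) (S : Finset (Ix N → ℤ)) (b : (Ix N → ℤ) → Option (Fin N) → Fin D → ℂ)
    (k : Option (Fin N)) (x : Hz N) : Fin D → ℂ :=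
  ∑ q ∈ S, ∑ j, co K x (lat q) k j • b q j

/-- The complex linear map with columns `d k`. -/
def cols {D : ℕ} (d : Fin N → Fin D → ℂ) : (Fin N → ℂ) →L[ℂ] (Fin D → ℂ) :=
  ∑ k, (ContinuousLinearMap.proj k : (Fin N → ℂ) →L[ℂ] ℂ).smulRight (d k)

/-- Two points of one tile. -/
def Close (x x' : Hz N) : Prop :=
  ∃ p u u', ‖u‖ ≤ 1 ∧ ‖u'‖ ≤ 1 ∧ x = mul p (hz u) ∧ x' = mul p (hz u')

end Pool.Agent.Lib.MP_ccffa6_gt.EX
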