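import Pool.Agent.Lib.MP_ccffa6_gt.K.Diffeo

open Set Filter Topology Module
open scoped ContDiff

noncomputable section

namespace Pool.Agent.Lib.MP_ccffa6_gt.EX

variable {F : Type} [NormedAddCommGroup F] [NormedSpace ℝ F] [FiniteDimensional ℝ F]
  {V : Type} [NormedAddCommGroup V] [NormedSpace ℝ V] [FiniteDimensional ℝ V]
  {V' : Type} [NormedAddCommGroup V'] [NormedSpace ℝ V'] [FiniteDimensional ℝ V']

/-- `Γ` is transverse to `A` at `z`. -/
def Tv (Γ : F → V) (A : Set V) (z : F) : Prop :=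
  ∀ w : V, ∃ v : F, w - fderiv ℝ Γ z v ∈ Tan A (Γ z)

theorem xpre_lev {e : ℕ} {G : F → V} (hG : ContDiff ℝ ∞ G) (hd : finrank ℝ F = e + finrank ℝ V)
    {y : F} (h0 : G y = 0) (hs : Function.Surjective (fderiv ℝ G y)) :
    (∃ (φ : Rd e → F) (ψ : F → Rd e), Chart (G ⁻¹' {0}) y φ ψ) ∧
      ∀ v, v ∈ Tan (G ⁻¹' {0}) y ↔ fderiv ℝ G y v = 0 := by
  have ht : Tan (univ : Set F) y = ⊤ := Tan.of_mem_nhds univ_mem
  have h := Chart.level (isSub_of_isOpen isOpen_univ) hG hd (mem_univ y) h0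
    fun w => (hs w).imp fun v hv => ⟨by rw [ht]; exact Submodule.mem_top, hv⟩
  rw [univ_inter, ht] at h
  exact ⟨h.1, fun v => (h.2 v).trans (and_iff_right Submodule.mem_top)⟩

omit [FiniteDimensional ℝ F] in
theorem xpre_surj {G : F → V} (hG : ContDiff ℝ ∞ G) {x : F}
    (hs : Function.Surjective (fderiv ℝ G x)) :
    ∀ᶠ y in 𝓝 x, Function.Surjective (fderiv ℝ G y) := by
  obtain ⟨R, hR⟩ := (fderiv ℝ G x).exists_rightInverse_of_surjective (LinearMap.range_eq_top.2 hs)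
  have : CompleteSpace V := FiniteDimensional.complete ℝ V
  have hc : Continuous fun y => (fderiv ℝ G y).comp R :=
    (hG.continuous_fderiv (by simp)).clm_comp continuous_const
  have h1 : ∀ᶠ y in 𝓝 x, IsUnit ((fderiv ℝ G y).comp R) :=
    hc.continuousAt.eventually (Units.isOpen.mem_nhds (by
      show IsUnit ((fderiv ℝ G x).comp R)
      rw [hR]
      exact isUnit_one))
  refine h1.mono fun y hy w => ?_
  obtain ⟨v, hv⟩ := (ContinuousLinearMap.isUnit_iff_bijective.1 hy).2 w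
  exact ⟨R v, hv⟩

/-- Local equations which are good at all nearby points. Sketch: `d ≤ finrank V` by
`IsSub.finrank`; `IsSub.exists_eq` with `Rd (finrank V - d)`; surjectivity of `fderiv G y` is an
open condition (compose with a right inverse at `x`, units are open); the tangent space comes from
`Chart.level` applied to `univ` (`isSub_of_isOpen`, `Tan.of_mem_nhds`) and `Tan.congr`
(`eventually_eventually_nhds`). -/
theorem exists_local_eq {d : ℕ} {A : Set V} (hA : IsSub d A) {x : V} (hx : x ∈ A) :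
    ∃ (q : ℕ) (G : V → Rd q), finrank ℝ V = d + q ∧ ContDiff ℝ ∞ G ∧
      ∀ᶠ y in 𝓝 x, (y ∈ A ↔ G y = 0) ∧ Function.Surjective (fderiv ℝ G y) ∧
        (y ∈ A → ∀ v, v ∈ Tan A y ↔ fderiv ℝ G y v = 0) := by
  have hd : finrank ℝ V = d + (finrank ℝ V - d) := by
    have h1 := (Tan A x).finrank_le
    rw [hA.finrank hx] at h1
    omega
  have hd' : finrank ℝ V = d + finrank ℝ (Rd (finrank ℝ V - d)) := by
    rw [finrank_euclideanSpace_fin]
    exact hd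
  obtain ⟨G, hG, hs, he⟩ := hA.exists_eq hd' hx
  refine ⟨_, G, hd, hG, ?_⟩
  filter_upwards [he.eventuallyEq_nhds, xpre_surj hG hs] with y h1 h2
  have h3 : y ∈ A ↔ G y = 0 := h1.mem_iff.self_of_nhds
  refine ⟨h3, h2, fun hy v => ?_⟩
  rw [Tan.congr h1]
  exact (xpre_lev hG hd' (h3.1 hy) h2).2 v

/-- Transverse preimage. Near `z` it is the zero set of `G ∘ Γ`; use `Chart.level` on `univ`,
`Chart.congr`, `Tan.congr`. -/
theorem pre_sub {d e : ℕ} {A : Set V} (hA : IsSub d A) {Γ : F → V} (hΓ : ContDiff ℝ ∞ Γ)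
    (hd : finrank ℝ F + d = e + finrank ℝ V) (ht : ∀ z, Γ z ∈ A → Tv Γ A z) :
    IsSub e (Γ ⁻¹' A) ∧
      ∀ z, Γ z ∈ A → ∀ v, v ∈ Tan (Γ ⁻¹' A) z ↔ fderiv ℝ Γ z v ∈ Tan A (Γ z) := by
  have key : ∀ z, Γ z ∈ A → (∃ (φ : Rd e → F) (ψ : F → Rd e), Chart (Γ ⁻¹' A) z φ ψ) ∧
      ∀ v, v ∈ Tan (Γ ⁻¹' A) z ↔ fderiv ℝ Γ z v ∈ Tan A (Γ z) := by
    intro z hz
    obtain ⟨q, G, hq, hG, he⟩ := exists_local_eq hA hz
    obtain ⟨h1, h2, h3⟩ := he.self_of_nhds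
    have hc : fderiv ℝ (G ∘ Γ) z = (fderiv ℝ G (Γ z)).comp (fderiv ℝ Γ z) :=
      fderiv_comp z (hG.differentiable (by simp) _) (hΓ.differentiable (by simp) _)
    have h4 : (G ∘ Γ) ⁻¹' {0} =ᶠ[𝓝 z] Γ ⁻¹' A :=
      eventuallyEq_set.2 ((hΓ.continuous.continuousAt.eventually he).mono fun y hy => hy.1.symm)
    obtain ⟨⟨φ, ψ, h5⟩, h6⟩ := xpre_lev (e := e) (hG.comp hΓ)
      (by rw [finrank_euclideanSpace_fin]; omega) (y := z) (h1.1 hz) (fun w => by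
        obtain ⟨u, rfl⟩ := h2 w
        obtain ⟨v, hv⟩ := ht z hz u
        rw [h3 hz, map_sub, sub_eq_zero] at hv
        exact ⟨v, by rw [hc, hv]; rfl⟩)
    refine ⟨⟨φ, ψ, h5.congr (h1.1 hz) h4⟩, fun v => ?_⟩
    rw [← Tan.congr h4, h6, hc, h3 hz]
    rfl
  exact ⟨fun z hz => (key z hz).1, fun z hz => (key z hz).2⟩

/-- `Diff M (M ×ˢ {0}) (fun x => (x, 0)) Prod.fst`, then `Diff.closed`, `Diff.tan_bijOn`. -/
theorem closed_prod_zero {d : ℕ} {M : Set V} (h : Closed d M) :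
    Closed d (M ×ˢ ({0} : Set V')) ∧ ∀ y ∈ M ×ˢ ({0} : Set V'), ∀ u : V × V',
      u ∈ Tan (M ×ˢ ({0} : Set V')) y ↔ u.1 ∈ Tan M y.1 ∧ u.2 = 0 := by
  have hD : Diff M (M ×ˢ ({0} : Set V')) (ContinuousLinearMap.inl ℝ V V') Prod.fst :=
    ⟨(ContinuousLinearMap.inl ℝ V V').contDiff, contDiff_fst, fun x hx => ⟨hx, rfl⟩,
      fun y hy => hy.1, fun _ _ => rfl, fun y hy => Prod.ext rfl (Eq.symm hy.2)⟩
  refine ⟨hD.closed h, fun y hy u => ?_⟩
  have h1 := (hD.tan_bijOn hy.1).image_eq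
  rw [hD.right y hy, ContinuousLinearMap.fderiv] at h1
  rw [← SetLike.mem_coe, ← h1]
  constructor
  · rintro ⟨v, hv, rfl⟩
    exact ⟨hv, rfl⟩
  · rintro ⟨h2, h3⟩
    exact ⟨u.1, h2, Prod.ext rfl h3.symm⟩

end Pool.Agent.Lib.MP_ccffa6_gt.EX
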