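import Pool.Agent.Lib.MP_ccffa6_gt.EX.XHeis
import Pool.Agent.Lib.MP_ccffa6_gt.EX.XAlg
import Pool.Agent.Lib.MP_ccffa6_gt.EX.XPre

open Set Module
open scoped ContDiff RealInnerProductSpace

noncomputable section

namespace Pool.Agent.Lib.MP_ccffa6_gt.EX

variable {N : ℕ}

/-- A real functional applied to all coordinates, times two. -/
def dbl (l : ℂ →L[ℝ] ℝ) : Hz N →L[ℝ] Rd N :=
  ((EuclideanSpace.equiv (Fin N) ℝ).symm : (Fin N → ℝ) →L[ℝ] Rd N) ∘L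
    ContinuousLinearMap.pi fun j => (2 : ℝ) • (l ∘L
      (ContinuousLinearMap.proj j : (Fin N → ℂ) →L[ℝ] ℂ) ∘L ContinuousLinearMap.fst ℝ (Fin N → ℂ) ℝ)

/-- `2 re w`. -/
def XH : Hz N →L[ℝ] Rd N := dbl Complex.reCLM

/-- `2 im w`. -/
def YH : Hz N →L[ℝ] Rd N := dbl Complex.imCLM

theorem XH_apply (p : Hz N) (j : Fin N) : XH p j = 2 * (p.1 j).re := rfl

theorem YH_apply (p : Hz N) (j : Fin N) : YH p j = 2 * (p.1 j).im := rfl

/-- The contact form `dt + (X dY - Y dX) / 2`. -/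
def alH (p : Hz N) : Hz N →L[ℝ] ℝ :=
  ContinuousLinearMap.snd ℝ (Fin N → ℂ) ℝ
    + (1 / 2 : ℝ) • (innerSL ℝ (XH p) ∘L YH - innerSL ℝ (YH p) ∘L XH)

theorem alH_apply (p v : Hz N) :
    alH p v = v.2 + 1 / 2 * (⟪XH p, YH v⟫ - ⟪YH p, XH v⟫) := rfl

/-- The unperturbed map. -/
def G0 (p : Hz N) : Rd N × UU (Rd N) := (XH p, umk (YH p, p.2 + 1 / 2 * ⟪XH p, YH p⟫))

/-- The same objects on the product with the line. -/
def XF : Hz N × ℝ →L[ℝ] Rd N := XH ∘L ContinuousLinearMap.fst ℝ (Hz N) ℝ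

/-- See `XF`. -/
def YF : Hz N × ℝ →L[ℝ] Rd N := YH ∘L ContinuousLinearMap.fst ℝ (Hz N) ℝ

/-- See `XF`. -/
def alF : Form1 (Hz N × ℝ) := fun z => alH z.1 ∘L ContinuousLinearMap.fst ℝ (Hz N) ℝ

/-- The embedding of the upper level. -/
def psiF (x : Rd N) : Hz N × ℝ := ((fun j => ((x j / 2 : ℝ) : ℂ), 0), 2)

theorem xgeo_inner (x y : Rd N) : ⟪x, y⟫ = ∑ j, x j * y j := by
  simp [PiLp.inner_apply, mul_comm]

theorem xgeo_alH (p v : Hz N) : alH p v = v.2 + 2 * (herm p.1 v.1).im := by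
  rw [alH_apply, xgeo_inner, xgeo_inner, ← Finset.sum_sub_distrib, herm, Complex.im_sum,
    Finset.mul_sum, Finset.mul_sum]
  congr 1
  refine Finset.sum_congr rfl fun j _ => ?_
  simp only [XH_apply, YH_apply, Complex.mul_im, Complex.conj_re, Complex.conj_im]
  ring

/-- The complex vector with given doubled real and imaginary parts. -/
def xgeoW (a b : Rd N) (j : Fin N) : ℂ := ((a j / 2 : ℝ) : ℂ) + ((b j / 2 : ℝ) : ℂ) * Complex.I

theorem xgeo_XW (a b : Rd N) (t : ℝ) : XH (xgeoW a b, t) = a := by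
  ext j
  simp [XH_apply, xgeoW]
  ring

theorem xgeo_YW (a b : Rd N) (t : ℝ) : YH (xgeoW a b, t) = b := by
  ext j
  simp [YH_apply, xgeoW]
  ring

theorem xgeo_W (p : Hz N) : xgeoW (XH p) (YH p) = p.1 := by
  funext j
  apply Complex.ext <;> simp [xgeoW, XH_apply, YH_apply]

theorem xgeo_alF : ∃ (c : Hz N × ℝ →L[ℝ] ℝ) (B : Bil (Hz N × ℝ)), (alF = fun z => c + B z) ∧
    ∀ u v, B u v = 1 / 2 * (⟪XF u, YF v⟫ - ⟪YF u, XF v⟫) :=
  ⟨ContinuousLinearMap.snd ℝ (Fin N → ℂ) ℝ ∘L ContinuousLinearMap.fst ℝ (Hz N) ℝ,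
    (1 / 2 : ℝ) • ((innerSL ℝ : Rd N →L[ℝ] Rd N →L[ℝ] ℝ).bilinearComp XF YF
      - (innerSL ℝ : Rd N →L[ℝ] Rd N →L[ℝ] ℝ).bilinearComp YF XF),
    funext fun _ => ContinuousLinearMap.ext fun _ => rfl, fun _ _ => rfl⟩

theorem xgeo_fd {E F : Type} [NormedAddCommGroup E] [NormedSpace ℝ E] [NormedAddCommGroup F]
    [NormedSpace ℝ F] {f : E → F} {A : E →L[ℝ] F} {x : E} (h : HasFDerivAt f A x) :
    fderiv ℝ f x = A := h.fderiv

theorem xgeo_top {p : Hz N} (h : (G0 p).2 = 0) : YH p = 0 ∧ p.2 = 0 := by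
  have h1 : (YH p, p.2 + 1 / 2 * ⟪XH p, YH p⟫) = 0 := umk.injective (h.trans (map_zero _).symm)
  have h2 : YH p = 0 := congrArg Prod.fst h1
  have h3 : p.2 + 1 / 2 * ⟪XH p, YH p⟫ = 0 := congrArg Prod.snd h1
  rw [h2, inner_zero_right, mul_zero, add_zero] at h3
  exact ⟨h2, h3⟩

theorem finrank_Hz : finrank ℝ (Hz N) = 2 * N + 1 := by
  simp [finrank_pi_fintype, mul_comm]

theorem alH_hat (p : Hz N) (v : Fin N → ℂ) : alH p (hat p v) = 0 := by
  rw [xgeo_alH, hat]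
  ring

theorem eq_hat {p v : Hz N} (h : alH p v = 0) : v = hat p v.1 := by
  rw [xgeo_alH] at h
  exact Prod.ext rfl (show v.2 = -2 * (herm p.1 v.1).im by linarith)

theorem contDiff_alF : ContDiff ℝ ∞ (alF (N := N)) := by
  obtain ⟨c, B, h, -⟩ := xgeo_alF (N := N)
  rw [h]
  exact contDiff_const.add B.contDiff

theorem dF_alF (z u v : Hz N × ℝ) : dF alF z u v = ⟪XF u, YF v⟫ - ⟪YF u, XF v⟫ := by
  obtain ⟨c, B, h, hB⟩ := xgeo_alF (N := N)
  rw [dF_apply, h, (B.hasFDerivAt.const_add c).fderiv, hB, hB, real_inner_comm (XF v),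
    real_inner_comm (YF v)]
  ring

theorem Th_bij (z : Hz N × ℝ) :
    Function.Bijective (Th XF YF (ContinuousLinearMap.snd ℝ (Hz N) ℝ) (alF z)) := by
  constructor
  · refine (injective_iff_map_eq_zero _).2 fun v hv => ?_
    have h1 : (XH v.1, v.2) = 0 := umk.injective ((congrArg re1 hv).trans (by simp))
    have h2 : (YH v.1, alH z.1 v.1) = 0 := umk.injective ((congrArg im1 hv).trans (by simp))
    have h3 : v.1.1 = 0 := by
      rw [← xgeo_W, show XH v.1 = 0 from congrArg Prod.fst h1,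
        show YH v.1 = 0 from congrArg Prod.fst h2]
      funext j
      simp [xgeoW]
    have h4 := eq_hat (show alH z.1 v.1 = 0 from congrArg Prod.snd h2)
    rw [h3] at h4
    exact Prod.ext (h4.trans (by simp [hat, herm])) (congrArg Prod.snd h1 :)
  · intro k
    obtain ⟨⟨a, s⟩, ha⟩ := umk.surjective (re1 k)
    obtain ⟨⟨b, t⟩, hb⟩ := umk.surjective (im1 k)
    refine ⟨((xgeoW a b, t - 2 * (herm z.1.1 (xgeoW a b)).im), s), cx_ext ?_ ?_⟩
    · rw [← ha]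
      exact congrArg umk (Prod.ext (xgeo_XW a b _) rfl)
    · rw [← hb]
      exact congrArg umk (Prod.ext (xgeo_YW a b _) ((xgeo_alH _ _).trans (sub_add_cancel _ _)))

/-- `‖Th (hat p u, 0)‖ ^ 2 = 4 ∑ j, ‖u j‖ ^ 2`. -/
theorem norm_Th_hat (z : Hz N × ℝ) (u : Fin N → ℂ) :
    2 * ‖u‖ ≤ ‖Th XF YF (ContinuousLinearMap.snd ℝ (Hz N) ℝ) (alF z) (hat z.1 u, 0)‖ ∧
      ‖Th XF YF (ContinuousLinearMap.snd ℝ (Hz N) ℝ) (alF z) (hat z.1 u, 0)‖
        ≤ 2 * (N + 1) * ‖u‖ := by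
  have h : ‖Th XF YF (ContinuousLinearMap.snd ℝ (Hz N) ℝ) (alF z) (hat z.1 u, 0)‖ ^ 2
      = 4 * ∑ j, ‖u j‖ ^ 2 := by
    have h0 : alF z (hat z.1 u, 0) = 0 := alH_hat z.1 u
    rw [← real_inner_self_eq_norm_sq, cx_inner, re1_Th, im1_Th, umk_inner, umk_inner, h0,
      xgeo_inner, xgeo_inner, Finset.mul_sum]
    simp only [ContinuousLinearMap.coe_snd', mul_zero, add_zero, ← Finset.sum_add_distrib]
    refine Finset.sum_congr rfl fun j _ => ?_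
    rw [Complex.sq_norm, Complex.normSq_apply]
    show 2 * (u j).re * (2 * (u j).re) + 2 * (u j).im * (2 * (u j).im) = _
    ring
  have h0 := norm_nonneg (Th XF YF (ContinuousLinearMap.snd ℝ (Hz N) ℝ) (alF z) (hat z.1 u, 0))
  generalize ‖Th XF YF (ContinuousLinearMap.snd ℝ (Hz N) ℝ) (alF z) (hat z.1 u, 0)‖ = T at h h0
  constructor
  · have h1 : ‖u‖ ≤ T / 2 := (pi_norm_le_iff_of_nonneg (by positivity)).2 fun j => by
      have := Finset.single_le_sum (f := fun j => ‖u j‖ ^ 2) (fun _ _ => sq_nonneg _)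
        (Finset.mem_univ j)
      exact abs_le_of_sq_le_sq' (by linarith) (by positivity) |>.2
    linarith
  · have h1 : ∑ j, ‖u j‖ ^ 2 ≤ N * ‖u‖ ^ 2 :=
      (Finset.sum_le_card_nsmul _ _ (‖u‖ ^ 2) fun j _ =>
        pow_le_pow_left₀ (norm_nonneg _) (norm_le_pi_norm u j) 2).trans_eq (by simp)
    refine abs_le_of_sq_le_sq' ?_ (by positivity) |>.2
    have h2 : (0 : ℝ) ≤ N := Nat.cast_nonneg N
    nlinarith [sq_nonneg ‖u‖, mul_nonneg (mul_nonneg h2 h2) (sq_nonneg ‖u‖),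
      mul_nonneg h2 (sq_nonneg ‖u‖)]

theorem Th_hat_I (z : Hz N × ℝ) (u : Fin N → ℂ) :
    Th XF YF (ContinuousLinearMap.snd ℝ (Hz N) ℝ) (alF z) (hat z.1 (Complex.I • u), 0)
      = II (Th XF YF (ContinuousLinearMap.snd ℝ (Hz N) ℝ) (alF z) (hat z.1 u, 0)) := by
  have h0 : ∀ u, alF z (hat z.1 u, 0) = 0 := alH_hat z.1
  refine cx_ext ?_ ?_
  · rw [re1_II, re1_Th, im1_Th, h0, ← map_neg]
    refine congrArg umk (Prod.ext ?_ neg_zero.symm)
    ext j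
    show 2 * (Complex.I * u j).re = -(2 * (u j).im)
    simp
  · rw [im1_II, re1_Th, im1_Th, h0]
    refine congrArg umk (Prod.ext ?_ rfl)
    ext j
    show 2 * (Complex.I * u j).im = 2 * (u j).re
    simp

theorem contDiff_G0 : ContDiff ℝ ∞ (G0 (N := N)) := by
  exact XH.contDiff.prodMk (umk.contDiff.comp (YH.contDiff.prodMk
    (contDiff_snd.add (contDiff_const.mul (XH.contDiff.inner ℝ YH.contDiff)))))

theorem fderiv_G0 (p v : Hz N) : fderiv ℝ G0 p v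
    = (XH v, umk (YH v, v.2 + 1 / 2 * (⟪XH p, YH v⟫ + ⟪XH v, YH p⟫))) := by
  have h0 : HasFDerivAt (fun x : Hz N => x.2 + 1 / 2 * ⟪XH x, YH x⟫)
      (ContinuousLinearMap.snd ℝ (Fin N → ℂ) ℝ +
        (1 / 2 : ℝ) • (fderivInnerCLM ℝ (XH p, YH p)).comp (XH.prod YH)) p :=
    hasFDerivAt_snd.add ((XH.hasFDerivAt.inner ℝ YH.hasFDerivAt).const_mul (1 / 2))
  have e : (ContinuousLinearMap.snd ℝ (Fin N → ℂ) ℝ +
      (1 / 2 : ℝ) • (fderivInnerCLM ℝ (XH p, YH p)).comp (XH.prod YH)) v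
      = v.2 + 1 / 2 * (⟪XH p, YH v⟫ + ⟪XH v, YH p⟫) := rfl
  rw [← e]
  generalize ContinuousLinearMap.snd ℝ (Fin N → ℂ) ℝ +
    (1 / 2 : ℝ) • (fderivInnerCLM ℝ (XH p, YH p)).comp (XH.prod YH) = A at h0
  have h1 : HasFDerivAt (fun x : Hz N => umk (YH x, x.2 + 1 / 2 * ⟪XH x, YH x⟫))
      (((umk : (Rd N × ℝ) ≃L[ℝ] UU (Rd N)) : Rd N × ℝ →L[ℝ] UU (Rd N)).comp (YH.prod A)) p :=
    (umk (V := Rd N)).hasFDerivAt.comp p (YH.hasFDerivAt.prodMk h0)
  have h : HasFDerivAt G0 (XH.prod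
      (((umk : (Rd N × ℝ) ≃L[ℝ] UU (Rd N)) : Rd N × ℝ →L[ℝ] UU (Rd N)).comp (YH.prod A))) p :=
    XH.hasFDerivAt.prodMk h1
  rw [xgeo_fd h]
  rfl

theorem fderiv_G0_surj (p : Hz N) : Function.Surjective (fderiv ℝ G0 p) := by
  rintro ⟨a, k⟩
  obtain ⟨⟨b, t⟩, rfl⟩ := umk.surjective k
  refine ⟨(xgeoW a b, t - 1 / 2 * (⟪XH p, b⟫ + ⟪a, YH p⟫)), ?_⟩
  rw [fderiv_G0, xgeo_XW, xgeo_YW, sub_add_cancel]

/-- `G0` has an explicit continuous inverse. -/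
theorem isCompact_preimage_G0 {C : Set (Rd N × UU (Rd N))} (hC : IsCompact C) :
    IsCompact (G0 ⁻¹' C) := by
  have hc : Continuous fun y : Rd N × UU (Rd N) => ((xgeoW y.1 (umk.symm y.2).1,
      (umk.symm y.2).2 - 1 / 2 * ⟪y.1, (umk.symm y.2).1⟫) : Hz N) := by
    unfold xgeoW
    fun_prop
  refine (hC.image hc).of_isClosed_subset (hC.isClosed.preimage contDiff_G0.continuous)
    fun p hp => ⟨G0 p, hp, ?_⟩
  simp only [G0, ContinuousLinearEquiv.symm_apply_apply, xgeo_W, add_sub_cancel_right]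

theorem G0_psiF (x : Rd N) : G0 (psiF x).1 = (x, 0) := by
  have h1 : XH (psiF x).1 = x := by
    ext j
    simp [XH_apply, psiF]
    ring
  have h2 : YH (psiF x).1 = 0 := by
    ext j
    simp [YH_apply, psiF]
  rw [G0, h1, h2, inner_zero_right, mul_zero, add_zero]
  exact Prod.ext rfl (map_zero _)

theorem psiF_XF {z : Hz N × ℝ} (h : (G0 z.1).2 = 0) (h2 : z.2 = 2) : psiF (XF z) = z := by
  obtain ⟨h1, h3⟩ := xgeo_top h
  refine Prod.ext (Prod.ext ?_ h3.symm) h2.symm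
  rw [← xgeo_W z.1, h1]
  funext j
  simp [psiF, xgeoW, XF]

theorem XF_psiF (x : Rd N) : XF (psiF x) = x := by
  exact congrArg Prod.fst (G0_psiF x)

theorem contDiff_psiF : ContDiff ℝ ∞ (psiF (N := N)) := by
  refine (ContDiff.prodMk (contDiff_pi.2 fun j => ?_) contDiff_const).prodMk contDiff_const
  exact Complex.ofRealCLM.contDiff.comp
    ((EuclideanSpace.proj j : Rd N →L[ℝ] ℝ).contDiff.div_const 2)

/-- On the upper level the differential is the trivialisation, up to the real coordinate. -/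
theorem fderiv_G0_top {z : Hz N × ℝ} (h : (G0 z.1).2 = 0) (v : Hz N × ℝ) :
    fderiv ℝ G0 z.1 v.1 = kk (Th XF YF (ContinuousLinearMap.snd ℝ (Hz N) ℝ) (alF z) v) := by
  have h0 : alF z v = v.1.2 + 1 / 2 * (⟪XH z.1, YH v.1⟫ - ⟪YH z.1, XH v.1⟫) := rfl
  rw [fderiv_G0, kk_apply, re1_Th, im1_Th, ContinuousLinearEquiv.symm_apply_apply, h0,
    (xgeo_top h).1, inner_zero_left, inner_zero_right, add_zero, sub_zero]
  rfl

end Pool.Agent.Lib.MP_ccffa6_gt.EX
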