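import Pool.Agent.Lib.MP_ccffa6_gt.EX.XDefs

open scoped ComplexConjugate

noncomputable section

namespace Pool.Agent.Lib.MP_ccffa6_gt.EX

variable {N : ℕ}

theorem card_Ix : Fintype.card (Ix N) = 2 * N + 1 := by
  simp [two_mul]

theorem herm_add_left (a b w : Fin N → ℂ) : herm (a + b) w = herm a w + herm b w := by
  simp [herm, add_mul, Finset.sum_add_distrib]

theorem herm_add_right (a v w : Fin N → ℂ) : herm a (v + w) = herm a v + herm a w := by
  simp [herm, mul_add, Finset.sum_add_distrib]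

theorem herm_sub_right (a v w : Fin N → ℂ) : herm a (v - w) = herm a v - herm a w := by
  simp [herm, mul_sub, Finset.sum_sub_distrib]

theorem herm_im_swap (a w : Fin N → ℂ) : (herm a w).im = -(herm w a).im := by
  simp only [herm, Complex.im_sum, ← Finset.sum_neg_distrib]
  refine Finset.sum_congr rfl fun j _ => ?_
  simp only [Complex.mul_im, Complex.conj_re, Complex.conj_im]
  ring

theorem herm_im_self (a : Fin N → ℂ) : (herm a a).im = 0 := by
  have := herm_im_swap a a
  linarith

theorem norm_herm_le (a w : Fin N → ℂ) : ‖herm a w‖ ≤ N * ‖a‖ * ‖w‖ := by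
  refine (norm_sum_le _ _).trans ((Finset.sum_le_card_nsmul _ _ (‖a‖ * ‖w‖) fun j _ => ?_).trans_eq
    (by simp [mul_assoc]))
  rw [norm_mul, Complex.norm_conj]
  exact mul_le_mul (norm_le_pi_norm a j) (norm_le_pi_norm w j) (norm_nonneg _) (norm_nonneg _)

theorem norm_hz_fst_le (u : Ix N → ℝ) : ‖(hz u).1‖ ≤ 2 * ‖u‖ := by
  refine (pi_norm_le_iff_of_nonneg (by positivity)).2 fun j => (norm_add_le _ _).trans ?_
  rw [norm_mul, Complex.norm_I, mul_one, Complex.norm_real, Complex.norm_real, two_mul]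
  exact add_le_add (norm_le_pi_norm u _) (norm_le_pi_norm u _)

theorem abs_hz_snd_le (u : Ix N → ℝ) : |(hz u).2| ≤ ‖u‖ := norm_le_pi_norm u none

theorem hz_sub (u u' : Ix N → ℝ) : hz (u - u') = hz u - hz u' := by
  refine Prod.ext (funext fun j => ?_) rfl
  simp only [hz, Pi.sub_apply, Prod.fst_sub, Complex.ofReal_sub]
  ring

theorem lat_zero : lat (0 : Ix N → ℤ) = 0 := by
  refine Prod.ext (funext fun j => ?_) ?_ <;> simp [lat, hz]

theorem dd_mul (p x q : Hz N) : dd (mul p x) (mul p q) = dd x q := by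
  have h := herm_im_swap q.1 p.1
  simp only [dd, mul, herm_add_left, herm_add_right, Complex.add_im, herm_im_self, Pi.add_apply,
    add_sub_add_left_eq_sub]
  congr 2
  linarith

theorem co_mul (K : ℕ) (p x q : Hz N) (k j : Option (Fin N)) :
    co K (mul p x) (mul p q) k j = co K x q k j := by
  have h : ph (mul p x) (mul p q) = ph x q := by rw [ph, dd_mul, ph]
  have e : ∀ i, (mul p x).1 i - (mul p q).1 i = x.1 i - q.1 i := fun i =>
    add_sub_add_left_eq_sub _ _ _
  cases k <;> cases j <;> simp only [co, h, e]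

theorem xheis_im (u v : Ix N → ℝ) : (herm (hz u).1 (hz v).1).im =
    ∑ j, (u (some (Sum.inl j)) * v (some (Sum.inr j)) -
      u (some (Sum.inr j)) * v (some (Sum.inl j))) := by
  simp [herm, hz, Complex.im_sum, sub_eq_add_neg]

theorem mul_lat_relZ (p q : Ix N → ℤ) : mul (lat p) (lat (relZ p q)) = lat q := by
  have h : (lat (relZ p q)).1 = (lat q).1 - (lat p).1 := funext fun j => by
    simp only [lat, hz, relZ, Pi.sub_apply]
    push_cast
    ring
  refine Prod.ext (by rw [mul, h, add_sub_cancel]) ?_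
  simp only [mul, h, herm_sub_right, Complex.sub_im, herm_im_self]
  simp only [lat, xheis_im]
  simp only [hz, relZ]
  push_cast
  ring

theorem co_tile (K : ℕ) (p q : Ix N → ℤ) (u : Ix N → ℝ) (k j : Option (Fin N)) :
    co K (mul (lat p) (hz u)) (lat q) k j = coA K (relZ p q) k j u := by
  rw [← mul_lat_relZ p q, co_mul, coA]

theorem relZ_self (p : Ix N → ℤ) : relZ p p = 0 := by
  funext i
  cases i <;> simp [relZ, mul_comm]

theorem relZ_swap (p q : Ix N → ℤ) : relZ q p = -relZ p q := by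
  funext i
  cases i with
  | none =>
    simp only [relZ, Pi.neg_apply, neg_add, neg_sub, ← mul_neg, ← Finset.sum_neg_distrib, mul_comm]
  | some i => simp [relZ]

theorem norm_relZ_swap (p q : Ix N → ℤ) : ‖relZ p q‖ = ‖relZ q p‖ := by
  rw [relZ_swap p q, norm_neg]

theorem relZ_injective (p : Ix N → ℤ) : Function.Injective (relZ p) := by
  intro q q' h
  have h1 : ∀ i, q (some i) = q' (some i) := fun i => sub_left_inj.1 (congrFun h (some i))
  have h2 := congrFun h none
  simp only [relZ, h1, add_left_inj, sub_left_inj] at h2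
  funext i
  cases i
  exacts [h2, h1 _]

theorem exists_tile (x : Hz N) : ∃ γ u, ‖u‖ ≤ 1 ∧ x = mul (lat γ) (hz u) := by
  let v : Fin N ⊕ Fin N → ℝ := Sum.elim (fun j => (x.1 j).re) fun j => (x.1 j).im
  let a : Fin N → ℂ := fun j =>
    ((round (x.1 j).re : ℝ) : ℂ) + ((round (x.1 j).im : ℝ) : ℂ) * Complex.I
  let w : Ix N → ℝ := fun i => i.elim (x.2 + 2 * (herm a x.1).im) v
  have h : (hz fun i => w i - round (w i)).1 = x.1 - a := funext fun j => by
    apply Complex.ext <;> simp [hz, w, v, a]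
  refine ⟨fun i => round (w i), fun i => w i - round (w i),
    (pi_norm_le_iff_of_nonneg zero_le_one).2 fun i => (abs_sub_round _).trans (by norm_num), ?_⟩
  have e : (lat fun i => round (w i)).1 = a := rfl
  refine Prod.ext (by rw [mul, h, e, add_sub_cancel]) ?_
  simp only [mul, h, e, herm_sub_right, Complex.sub_im, herm_im_self]
  simp [lat, hz, w]

theorem finite_tiles {K : Set (Hz N)} (hK : Bornology.IsBounded K) :
    {γ : Ix N → ℤ | ∃ u, ‖u‖ ≤ 1 ∧ mul (lat γ) (hz u) ∈ K}.Finite := by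
  obtain ⟨R, hR⟩ := hK.exists_norm_le
  obtain ⟨M, hM⟩ := exists_int_gt (R + 2 + 2 * (N * (R + 2) * 2))
  refine (Set.Finite.pi' fun _ => Set.finite_Icc (-M) M).subset ?_
  rintro γ ⟨u, hu, h⟩ i
  have h0 := hR _ h
  have h1 : ‖(lat γ).1 + (hz u).1‖ ≤ R := (norm_fst_le _).trans h0
  have h2 : |(γ none : ℝ) + u none - 2 * (herm (lat γ).1 (hz u).1).im| ≤ R :=
    (norm_snd_le _).trans h0
  have h3 : ‖(hz u).1‖ ≤ 2 := (norm_hz_fst_le u).trans (by linarith)
  have h4 : ‖(lat γ).1‖ ≤ R + 2 := by
    have := norm_sub_le ((lat γ).1 + (hz u).1) (hz u).1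
    rw [add_sub_cancel_right] at this
    linarith
  have h5 : 0 ≤ R + 2 := (norm_nonneg _).trans h4
  have h6 : |(herm (lat γ).1 (hz u).1).im| ≤ N * (R + 2) * 2 :=
    (Complex.abs_im_le_norm _).trans ((norm_herm_le _ _).trans (by gcongr))
  have h7 : |u none| ≤ 1 := (norm_le_pi_norm u none).trans hu
  have h8 : (0 : ℝ) ≤ N * (R + 2) * 2 := by positivity
  have h9 : |(γ i : ℝ)| ≤ M := by
    rcases i with _ | j | j
    · rw [abs_le] at *
      constructor <;> linarith [h2.1, h2.2, h6.1, h6.2, h7.1, h7.2]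
    · have := (Complex.abs_re_le_norm _).trans ((norm_le_pi_norm (lat γ).1 j).trans h4)
      simp only [lat, hz] at this
      simp at this
      linarith
    · have := (Complex.abs_im_le_norm _).trans ((norm_le_pi_norm (lat γ).1 j).trans h4)
      simp only [lat, hz] at this
      simp at this
      linarith
  exact abs_le.1 (by exact_mod_cast h9)

theorem xheis_re (x q : Hz N) :
    (1 - Complex.I * dd x q).re = 1 + ∑ j, Complex.normSq (x.1 j - q.1 j) := by
  simp only [dd, Complex.sub_re, Complex.one_re, Complex.I_mul_re, Complex.add_im,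
    Complex.ofReal_im, Complex.mul_I_im, Complex.ofReal_re]
  ring

theorem xheis_le (x q : Hz N) : 1 ≤ ‖1 - Complex.I * dd x q‖ := by
  refine le_trans ?_ (Complex.re_le_norm _)
  rw [xheis_re]
  exact le_add_of_nonneg_right (Finset.sum_nonneg fun _ _ => Complex.normSq_nonneg _)

theorem one_sub_ne (x q : Hz N) : 1 - Complex.I * dd x q ≠ 0 :=
  norm_pos_iff.1 (zero_lt_one.trans_le (xheis_le x q))

theorem re_one_sub (x q : Hz N) :
    (1 - Complex.I * dd x q).re = 1 + ∑ j, Complex.normSq (x.1 j - q.1 j) := xheis_re x q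

theorem im_one_sub (x q : Hz N) :
    (1 - Complex.I * dd x q).im = -(x.2 - q.2 + 2 * (herm q.1 x.1).im) := by
  simp only [dd, Complex.sub_im, Complex.one_im, Complex.I_mul_im, Complex.add_re,
    Complex.ofReal_im, Complex.mul_I_re, Complex.ofReal_re]
  ring

theorem norm_ph_le (x q : Hz N) : ‖ph x q‖ ≤ 1 := by
  rw [ph, norm_inv]
  exact inv_le_one_of_one_le₀ (xheis_le x q)

end Pool.Agent.Lib.MP_ccffa6_gt.EX
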