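import Pool.Agent.Lib.MP_ccffa6_gt.EX.XLat

noncomputable section

namespace Pool.Agent.Lib.MP_ccffa6_gt.EX

variable {I ι : Type} [Fintype I] {N r : ℕ}
  {a : (I → ℤ) → Option (Fin N) → Option (Fin N) → (I → ℝ) → ℂ} {rel : ι → ι → I → ℤ}
  {M : ι → ι → (Fin r → ℂ) →L[ℂ] (Fin r → ℂ)} {C ε : ℝ} {e : ℕ}

theorem xjet_sum (hC : 0 ≤ C) (hε : 0 ≤ ε) (hM : ∀ p q, ‖M p q‖ ≤ C) (p : ι) (S : Finset ι)
    {c : ι → Option (Fin N) → Fin r → ℂ} (hc : ∀ q j, ‖c q j‖ ≤ ε) {b : ι → Option (Fin N) → ℂ}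
    {t : ι → ℝ} (hb : ∀ q j, ‖b q j‖ ≤ C * t q) {B : ℝ} (hB : ∑ q ∈ S, t q ≤ B) :
    ‖∑ q ∈ S, ∑ j, b q j • M p q (c q j)‖ ≤ (N + 1) * C * C * ε * B := by
  have h1 : ∀ q, ‖∑ j, b q j • M p q (c q j)‖ ≤ (N + 1) * C * C * ε * t q := fun q => by
    have h2 : ∀ j ∈ Finset.univ, ‖b q j • M p q (c q j)‖ ≤ C * t q * (C * ε) := fun j _ => by
      rw [norm_smul]
      exact mul_le_mul (hb q j) ((M p q).le_of_opNorm_le_of_le (hM p q) (hc q j)) (norm_nonneg _)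
        ((norm_nonneg _).trans (hb q j))
    refine (norm_sum_le_of_le _ h2).trans_eq ?_
    rw [Finset.sum_const, Finset.card_univ, Fintype.card_option, Fintype.card_fin, nsmul_eq_mul]
    push_cast
    ring
  refine (norm_sum_le_of_le _ fun q _ => h1 q).trans ?_
  rw [← Finset.mul_sum]
  exact mul_le_mul_of_nonneg_left hB (by positivity)

/-- Termwise bound and `sum_wt_le'`; `Option (Fin N)` has `N + 1` elements. -/
theorem jet_bd (hC : 0 ≤ C) (hε : 0 ≤ ε)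
    (ha : ∀ γ k j, LB (a γ k j) (C / wt γ ^ (2 * Fintype.card I + e)))
    (hM : ∀ p q, ‖M p q‖ ≤ C) (p : ι) (hrel : Function.Injective (rel p)) (S : Finset ι)
    (c : ι → Option (Fin N) → Fin r → ℂ) (hc : ∀ q j, ‖c q j‖ ≤ ε) (k : Option (Fin N))
    (u : I → ℝ) (hu : ‖u‖ ≤ 1) :
    ‖jet a rel M S c p k u‖ ≤ (N + 1) * C * C * ε * 3 ^ Fintype.card I := by
  rw [jet]
  exact xjet_sum hC hε hM p S hc (t := fun q => 1 / wt (rel p q) ^ (2 * Fintype.card I + e))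
    (fun q j => ((ha _ k j).bd u hu).trans_eq (by ring)) (sum_wt_le' _ hrel S e)

theorem jet_lip (hC : 0 ≤ C) (hε : 0 ≤ ε)
    (ha : ∀ γ k j, LB (a γ k j) (C / wt γ ^ (2 * Fintype.card I + e)))
    (hM : ∀ p q, ‖M p q‖ ≤ C) (p : ι) (hrel : Function.Injective (rel p)) (S : Finset ι)
    (c : ι → Option (Fin N) → Fin r → ℂ) (hc : ∀ q j, ‖c q j‖ ≤ ε) (k : Option (Fin N))
    (u u' : I → ℝ) (hu : ‖u‖ ≤ 1) (hu' : ‖u'‖ ≤ 1) :
    ‖jet a rel M S c p k u - jet a rel M S c p k u'‖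
      ≤ (N + 1) * C * C * ε * 3 ^ Fintype.card I * ‖u - u'‖ := by
  simp only [jet, ← Finset.sum_sub_distrib, ← sub_smul]
  rw [mul_assoc _ _ ‖u - u'‖]
  refine xjet_sum hC hε hM p S hc
    (t := fun q => 1 / wt (rel p q) ^ (2 * Fintype.card I + e) * ‖u - u'‖)
    (fun q j => ((ha _ k j).lip u u' hu hu').trans_eq (by ring)) ?_
  rw [← Finset.sum_mul]
  exact mul_le_mul_of_nonneg_right (sum_wt_le' _ hrel S e) (norm_nonneg _)

/-- The difference is the sum over `S \ S'`; use `tail_wt_le`. -/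
theorem jet_tail (hC : 0 ≤ C) (hε : 0 ≤ ε)
    (ha : ∀ γ k j, LB (a γ k j) (C / wt γ ^ (2 * Fintype.card I + e)))
    (hM : ∀ p q, ‖M p q‖ ≤ C) (p : ι) (hrel : Function.Injective (rel p)) (S S' : Finset ι)
    (hS : S' ⊆ S) (R : ℝ) (hR : 0 ≤ R) (hfar : ∀ q ∈ S, q ∉ S' → R ≤ ‖rel p q‖)
    (c : ι → Option (Fin N) → Fin r → ℂ) (hc : ∀ q j, ‖c q j‖ ≤ ε) (k : Option (Fin N))
    (u : I → ℝ) (hu : ‖u‖ ≤ 1) :
    ‖jet a rel M S c p k u - jet a rel M S' c p k u‖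
      ≤ (N + 1) * C * C * ε * 3 ^ Fintype.card I / (1 + R) ^ e := by
  classical
  rw [jet, jet, ← Finset.sum_sdiff_eq_sub hS, mul_div_assoc]
  exact xjet_sum hC hε hM p _ hc (t := fun q => 1 / wt (rel p q) ^ (2 * Fintype.card I + e))
    (fun q j => ((ha _ k j).bd u hu).trans_eq (by ring))
    (tail_wt_le _ hrel _ e R hR fun q hq =>
      hfar q (Finset.mem_sdiff.1 hq).1 (Finset.mem_sdiff.1 hq).2)

theorem jet_congr (S : Finset ι) (c c' : ι → Option (Fin N) → Fin r → ℂ)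
    (h : ∀ q ∈ S, c q = c' q) (p : ι) (k : Option (Fin N)) (u : I → ℝ) :
    jet a rel M S c p k u = jet a rel M S c' p k u := by
  exact Finset.sum_congr rfl fun q hq => by rw [h q hq]

theorem jet_update [DecidableEq ι] (S : Finset ι) (c : ι → Option (Fin N) → Fin r → ℂ) (p : ι)
    (hp : p ∈ S) (h0 : rel p p = 0) (h1 : M p p = 1) (v v' : Option (Fin N) → Fin r → ℂ)
    (k : Option (Fin N)) (u : I → ℝ) :
    jet a rel M S (Function.update c p v) p k u - jet a rel M S (Function.update c p v') p k u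
      = ∑ j, a 0 k j u • (v j - v' j) := by
  rw [jet, jet, ← Finset.sum_sub_distrib, Finset.sum_eq_single_of_mem p hp fun q _ hq => by
    rw [Function.update_of_ne hq, Function.update_of_ne hq, sub_self]]
  simp only [h0, h1, Function.update_self, one_apply_eq_self, smul_sub,
    Finset.sum_sub_distrib]

theorem norm_dot_le (y v : Fin r → ℂ) : ‖y ⬝ᵥ v‖ ≤ r * ‖y‖ * ‖v‖ := by
  have h : ∀ i ∈ Finset.univ, ‖y i * v i‖ ≤ ‖y‖ * ‖v‖ := fun i _ =>
    norm_mul_le_of_le (norm_le_pi_norm y i) (norm_le_pi_norm v i)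
  refine (norm_sum_le_of_le _ h).trans_eq ?_
  rw [Finset.sum_const, Finset.card_univ, Fintype.card_fin, nsmul_eq_mul, mul_assoc]

theorem norm_gridVec_le {n : ℕ} {h : ℝ} (hh : 0 ≤ h) (g : Grid N r n) (j : Option (Fin N)) :
    ‖gridVec h g j‖ ≤ 2 * h * n := by
  refine (pi_norm_le_iff_of_nonneg (by positivity)).2 fun i => ?_
  have h1 : ∀ x, ‖((g x : ℕ) : ℂ)‖ ≤ n := fun x => by
    rw [Complex.norm_natCast]
    exact_mod_cast (g x).2.le
  have h2 := norm_add_le_of_le (h1 (j, i, false))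
    (norm_mul_le_of_le (h1 (j, i, true)) Complex.norm_I.le)
  rw [gridVec, norm_mul, Complex.norm_real, Real.norm_of_nonneg hh]
  exact (mul_le_mul_of_nonneg_left h2 hh).trans_eq (by ring)

end Pool.Agent.Lib.MP_ccffa6_gt.EX
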