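import Pool.Agent.Lib.MP_ccffa6_gt.EX.XHeis

open scoped ComplexConjugate ContDiff

noncomputable section

namespace Pool.Agent.Lib.MP_ccffa6_gt.EX

variable {N : ℕ}

/-- `‖1 - I d‖ ≤ 1 + 1 + 4 N` on the unit cube at `γ = 0`. -/
theorem ph_lower (u : Ix N → ℝ) (hu : ‖u‖ ≤ 1) : 1 ≤ (4 * N + 2) * ‖ph (hz u) (lat 0)‖ := by
  have h2 := norm_hz_fst_le u
  have h3 : ∑ j, Complex.normSq ((hz u).1 j) ≤ ∑ _j : Fin N, (4 : ℝ) :=
    Finset.sum_le_sum fun j _ => by
      rw [Complex.normSq_eq_norm_sq]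
      nlinarith [norm_le_pi_norm (hz u).1 j, norm_nonneg ((hz u).1 j)]
  have h4 : 0 ≤ ∑ j, Complex.normSq ((hz u).1 j) :=
    Finset.sum_nonneg fun j _ => Complex.normSq_nonneg _
  have h5 := Complex.norm_le_abs_re_add_abs_im (1 - Complex.I * dd (hz u) (lat 0))
  rw [re_one_sub, im_one_sub] at h5
  simp only [lat_zero, Prod.fst_zero, Prod.snd_zero, Pi.zero_apply, sub_zero, herm, map_zero,
    zero_mul, Finset.sum_const_zero, Complex.zero_im, mul_zero, add_zero, abs_neg] at h5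
  rw [abs_of_nonneg (by linarith)] at h5
  simp only [Finset.sum_const, Finset.card_univ, Fintype.card_fin, nsmul_eq_mul] at h3
  rw [ph, norm_inv, ← div_eq_mul_inv, one_le_div (norm_pos_iff.2 (one_sub_ne _ _)), lat_zero]
  linarith [abs_hz_snd_le u]

/-- the jet matrix at `γ = 0` is invertible with a uniform bound -/
theorem coA_nondeg (K : ℕ) : ∃ C : ℝ, 1 ≤ C ∧ ∀ u : Ix N → ℝ, ‖u‖ ≤ 1 →
    (∀ z : Option (Fin N) → ℂ, ‖z‖ ≤ C * ‖fun k => ∑ j, coA K 0 k j u * z j‖) ∧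
      1 ≤ C * ‖coA K 0 none none u‖ := by
  have hL : (1 : ℝ) ≤ (4 * N + 2) ^ K := one_le_pow₀ (by linarith [N.cast_nonneg (α := ℝ)])
  have hK : (1 : ℝ) ≤ 1 + 4 * K := by linarith [K.cast_nonneg (α := ℝ)]
  have hN : (1 : ℝ) ≤ 1 + 2 * N := by linarith [N.cast_nonneg (α := ℝ)]
  have hA := one_le_mul_of_one_le_of_one_le hL hK
  refine ⟨(4 * N + 2) ^ K * (1 + 4 * K) * (1 + 2 * N), one_le_mul_of_one_le_of_one_le hA hN,
    fun u hu => ?_⟩
  have h1 : 1 ≤ (4 * N + 2) ^ K * ‖ph (hz u) (lat 0) ^ K‖ := by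
    rw [norm_pow, ← mul_pow]
    exact one_le_pow₀ (ph_lower u hu)
  have hφ := norm_ph_le (hz u) (lat (0 : Ix N → ℤ))
  have hW : ∀ j, ‖(hz u).1 j - (lat (0 : Ix N → ℤ)).1 j‖ ≤ 2 := fun j => by
    rw [lat_zero, Prod.fst_zero, Pi.zero_apply, sub_zero]
    linarith [norm_le_pi_norm (hz u).1 j, norm_hz_fst_le u]
  refine ⟨fun z => ?_, h1.trans (mul_le_mul_of_nonneg_right ?_ (norm_nonneg _))⟩
  · have e := norm_le_pi_norm fun k => ∑ j, coA K 0 k j u * z j
    have hE := norm_nonneg fun k => ∑ j, coA K 0 k j u * z j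
    generalize ‖fun k => ∑ j, coA K 0 k j u * z j‖ = E at e hE
    have e0 := e none
    have e1 := fun k => e (some k)
    simp only [coA, co, Fintype.sum_option, add_mul, Finset.sum_add_distrib, ite_mul, zero_mul,
      Finset.sum_ite_eq, Finset.mem_univ, if_true] at e0 e1
    generalize ph (hz u) (lat 0) = φ at h1 hφ e0 e1
    obtain ⟨W, hw⟩ : ∃ W : Fin N → ℂ, ∀ j, (hz u).1 j - (lat (0 : Ix N → ℤ)).1 j = W j :=
      ⟨_, fun _ => rfl⟩
    simp only [hw] at hW e0 e1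
    have key : ∀ (x : ℂ) (B : ℝ), ‖φ ^ K * x‖ ≤ B → ‖x‖ ≤ (4 * N + 2) ^ K * B := fun x B hx => by
      rw [norm_mul] at hx
      calc ‖x‖ ≤ (4 * N + 2) ^ K * ‖φ ^ K‖ * ‖x‖ := le_mul_of_one_le_left (norm_nonneg _) h1
        _ ≤ _ := by
          rw [mul_assoc]
          exact mul_le_mul_of_nonneg_left hx (by linarith)
    have a1 : ∀ k, ‖z (some k)‖ ≤ (4 * N + 2) ^ K * (1 + 4 * K) * E := fun k => by
      rw [mul_assoc]
      refine key _ _ ?_
      have : φ ^ K * z (some k) = (-2 * K * conj (W k) * φ ^ (K + 1) * z none +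
          (∑ j, -2 * K * conj (W k) * φ ^ (K + 1) * W j * z (some j) + φ ^ K * z (some k))) +
          2 * K * conj (W k) * φ * (φ ^ K * z none + ∑ j, φ ^ K * W j * z (some j)) := by
        rw [mul_add, Finset.mul_sum]
        have : ∀ j, -2 * K * conj (W k) * φ ^ (K + 1) * W j * z (some j) =
            -(2 * K * conj (W k) * φ * (φ ^ K * W j * z (some j))) := fun j => by ring
        simp only [this, Finset.sum_neg_distrib]
        ring
      rw [this]
      refine (norm_add_le _ _).trans ?_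
      have h2 : ‖2 * K * conj (W k) * φ‖ ≤ 2 * K * 2 * 1 := by
        simp only [norm_mul, Complex.norm_conj, Complex.norm_natCast, Complex.norm_ofNat]
        gcongr
        exact hW k
      have h3 := mul_le_mul h2 e0 (norm_nonneg _) (by positivity)
      rw [← norm_mul] at h3
      linarith [e1 k]
    have a2 : ‖z none + ∑ j, W j * z (some j)‖ ≤ (4 * N + 2) ^ K * E := key _ _ (by
      rw [mul_add, Finset.mul_sum]
      simpa only [mul_assoc] using e0)
    have a3 : ‖∑ j, W j * z (some j)‖ ≤ N * (2 * ((4 * N + 2) ^ K * (1 + 4 * K) * E)) := by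
      refine (norm_sum_le _ _).trans ((Finset.sum_le_sum fun j _ => ?_).trans_eq
        (by rw [Finset.sum_const, Finset.card_univ, Fintype.card_fin, nsmul_eq_mul]))
      rw [norm_mul]
      exact mul_le_mul (hW j) (a1 j) (norm_nonneg _) zero_le_two
    have a4 : (4 * N + 2) ^ K * E ≤ (4 * N + 2) ^ K * (1 + 4 * K) * E :=
      mul_le_mul_of_nonneg_right (le_mul_of_one_le_right (by linarith) hK) hE
    have a5 : 0 ≤ (4 * N + 2) ^ K * (1 + 4 * K) * E := by positivity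
    refine (pi_norm_le_iff_of_nonneg (by positivity)).2 fun k => ?_
    rcases k with _ | k
    · have := norm_sub_le (z none + ∑ j, W j * z (some j)) (∑ j, W j * z (some j))
      rw [add_sub_cancel_right] at this
      linarith
    · nlinarith [a1 k, mul_nonneg (N.cast_nonneg (α := ℝ)) a5]
  · rw [mul_assoc]
    exact le_mul_of_one_le_right (by linarith) (one_le_mul_of_one_le_of_one_le hK hN)

theorem cols_apply {D : ℕ} (d : Fin N → Fin D → ℂ) (v : Fin N → ℂ) :
    cols d v = ∑ k, v k • d k := by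
  simp [cols]

theorem norm_cols_le {D : ℕ} (d : Fin N → Fin D → ℂ) {B : ℝ} (hB : 0 ≤ B) (h : ∀ k, ‖d k‖ ≤ B) :
    ‖cols d‖ ≤ N * B := by
  refine ContinuousLinearMap.opNorm_le_bound _ (by positivity) fun v => ?_
  rw [cols_apply]
  refine (norm_sum_le _ _).trans ((Finset.sum_le_sum (g := fun _ => B * ‖v‖) fun k _ => ?_).trans_eq
    (by rw [Finset.sum_const, Finset.card_univ, Fintype.card_fin, nsmul_eq_mul, mul_assoc]))
  rw [norm_smul, mul_comm]
  exact mul_le_mul (h k) (norm_le_pi_norm v k) (norm_nonneg _) hB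

theorem xnd_dot {r : ℕ} (y z : Fin r → ℂ) : ‖y ⬝ᵥ z‖ ≤ r * ‖y‖ * ‖z‖ := by
  refine (norm_sum_le _ _).trans ((Finset.sum_le_sum (g := fun _ => ‖y‖ * ‖z‖)
    fun k _ => ?_).trans_eq
    (by rw [Finset.sum_const, Finset.card_univ, Fintype.card_fin, nsmul_eq_mul, mul_assoc]))
  rw [norm_mul]
  exact mul_le_mul (norm_le_pi_norm y k) (norm_le_pi_norm z k) (norm_nonneg _) (norm_nonneg _)

/-- a quantitative right inverse -/
theorem exists_right_inv {r : ℕ} (d : Fin N → Fin r → ℂ) {η : ℝ} (hη : 0 < η)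
    (h : ∀ y : Fin r → ℂ, η * ‖y‖ ≤ ‖fun k : Fin N => y ⬝ᵥ d k‖) :
    ∃ R : (Fin r → ℂ) →L[ℂ] (Fin N → ℂ), cols d ∘L R = 1 ∧ η * ‖R‖ ≤ r * r := by
  let A : (Fin r → ℂ) →ₗ[ℂ] (Fin N → ℂ) := Matrix.mulVecLin (Matrix.of fun k => star (d k))
  have hA : ∀ x k, star x ⬝ᵥ d k = conj (A x k) := fun x k => by
    simp [A, Matrix.mulVec, dotProduct, mul_comm]
  have h1 : ∀ x, η * ‖x‖ ≤ ‖A x‖ := fun x => by
    have := h (star x)
    rwa [norm_star, show (fun k => star x ⬝ᵥ d k) = star (A x) from funext (hA x), norm_star] at this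
  have h2 : ∀ x, η * ‖A x‖ ≤ r * ‖cols d (A x)‖ := fun x => by
    have e : star x ⬝ᵥ cols d (A x) = ((∑ k, ‖A x k‖ ^ 2 : ℝ) : ℂ) := by
      rw [cols_apply, dotProduct_sum]
      simp only [dotProduct_smul, hA, smul_eq_mul, Complex.mul_conj', Complex.ofReal_sum,
        Complex.ofReal_pow]
    have h0 : 0 ≤ ∑ k, ‖A x k‖ ^ 2 := by positivity
    have a1 := xnd_dot (star x) (cols d (A x))
    rw [e, Complex.norm_real, Real.norm_of_nonneg h0, norm_star] at a1
    have a2 : ‖A x‖ ^ 2 ≤ ∑ k, ‖A x k‖ ^ 2 :=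
      (Real.le_sqrt (norm_nonneg _) h0).1 ((pi_norm_le_iff_of_nonneg (Real.sqrt_nonneg _)).2
        fun k => (Real.le_sqrt (norm_nonneg _) h0).2 (Finset.single_le_sum
          (f := fun k => ‖A x k‖ ^ 2) (fun _ _ => by positivity) (Finset.mem_univ k)))
    rcases (norm_nonneg (A x)).eq_or_lt with a3 | a3
    · rw [← a3, mul_zero]
      positivity
    · refine le_of_mul_le_mul_right ?_ a3
      have a4 := mul_le_mul_of_nonneg_left (a2.trans a1) hη.le
      have a5 := mul_le_mul_of_nonneg_left (h1 x)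
        (by positivity : (0 : ℝ) ≤ r * ‖cols d (A x)‖)
      nlinarith
  have hS : Function.Injective ((cols d).toLinearMap ∘ₗ A) :=
    (injective_iff_map_eq_zero _).2 fun x hx => by
      have a1 := h2 x
      rw [show cols d (A x) = 0 from hx, norm_zero, mul_zero] at a1
      have a2 := nonpos_of_mul_nonpos_right a1 hη
      exact norm_le_zero_iff.1 (nonpos_of_mul_nonpos_right ((h1 x).trans a2) hη)
  have hR : ∀ z, cols d (A ((LinearEquiv.ofInjectiveEndo _ hS).symm z)) = z :=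
    (LinearEquiv.ofInjectiveEndo _ hS).apply_symm_apply
  refine ⟨LinearMap.toContinuousLinearMap (A ∘ₗ (LinearEquiv.ofInjectiveEndo _ hS).symm),
    ContinuousLinearMap.ext hR,
    le_trans (b := (r : ℝ)) ?_ (by exact_mod_cast Nat.le_mul_self r)⟩
  rw [mul_comm, ← le_div_iff₀ hη]
  refine ContinuousLinearMap.opNorm_le_bound _ (by positivity) fun z => ?_
  have := h2 ((LinearEquiv.ofInjectiveEndo _ hS).symm z)
  rw [hR] at this
  rw [div_mul_eq_mul_div, le_div_iff₀ hη, mul_comm]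
  exact this

/-- frames of a projector -/
theorem exists_frame {D r : ℕ} (P : (Fin D → ℂ) →L[ℂ] (Fin D → ℂ)) (hP : P ∘L P = P)
    (hr : Module.finrank ℂ (LinearMap.range (P : (Fin D → ℂ) →ₗ[ℂ] (Fin D → ℂ))) = r) :
    ∃ (ι : (Fin r → ℂ) →L[ℂ] (Fin D → ℂ)) (π : (Fin D → ℂ) →L[ℂ] (Fin r → ℂ)),
      π ∘L ι = 1 ∧ ι ∘L π = P ∧ ‖ι‖ ≤ r ∧ ‖π‖ ≤ D * ‖P‖ := by
  let e := (WithLp.linearEquiv 2 ℂ (Fin D → ℂ)).symm
  let V := (LinearMap.range (P : (Fin D → ℂ) →ₗ[ℂ] (Fin D → ℂ))).map e.toLinearMap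
  let b := (stdOrthonormalBasis ℂ V).reindex
    (finCongr ((LinearEquiv.finrank_map_eq e _).trans hr))
  let d : Fin r → Fin D → ℂ := fun i => (b i).1.ofLp
  have hd : ∀ i, ‖d i‖ ≤ 1 := fun i => (pi_norm_le_iff_of_nonneg zero_le_one).2 fun l =>
    (PiLp.norm_apply_le (b i).1 l).trans_eq (b.orthonormal.1 i)
  let A : (Fin D → ℂ) →L[ℂ] (Fin r → ℂ) :=
    LinearMap.toContinuousLinearMap (Matrix.mulVecLin (Matrix.of fun i => star (d i)))
  have hA : ∀ (w : V) i, A w.1.ofLp i = inner ℂ (b i) w := fun w i => by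
    rw [Submodule.coe_inner, EuclideanSpace.inner_eq_star_dotProduct, dotProduct_comm]
    rfl
  have hc : ∀ v, cols d v = (∑ i, v i • b i : V).1.ofLp := fun v => by
    simp [cols_apply, d]
  have hV : ∀ w : V, P w.1.ofLp = w.1.ofLp := by
    rintro ⟨_, _, ⟨x, rfl⟩, rfl⟩
    exact DFunLike.congr_fun hP x
  refine ⟨cols d, A ∘L P, ContinuousLinearMap.ext fun v => funext fun i => ?_,
    ContinuousLinearMap.ext fun v => ?_, (norm_cols_le d zero_le_one hd).trans_eq (mul_one _),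
    (A.opNorm_comp_le P).trans (mul_le_mul_of_nonneg_right ?_ (norm_nonneg _))⟩
  · change A (P (cols d v)) i = v i
    rw [hc, hV, hA, b.orthonormal.inner_right_fintype]
  · have := b.sum_repr' ⟨e (P v), _, ⟨v, rfl⟩, rfl⟩
    simp only [← hA] at this
    exact (hc _).trans (congrArg (fun w : V => w.1.ofLp) this)
  · refine A.opNorm_le_bound (by positivity) fun x =>
      (pi_norm_le_iff_of_nonneg (by positivity)).2 fun i => (xnd_dot (star (d i)) x).trans ?_
    rw [norm_star]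
    exact mul_le_mul_of_nonneg_right (mul_le_of_le_one_right D.cast_nonneg (hd i)) (norm_nonneg _)

end Pool.Agent.Lib.MP_ccffa6_gt.EX
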