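import Pool.Agent.Lib.MP_ccffa6_gt.EX.XPre

open Set Filter Topology Module
open scoped ContDiff

noncomputable section

namespace Pool.Agent.Lib.MP_ccffa6_gt.EX

variable {F : Type} [NormedAddCommGroup F] [NormedSpace ℝ F] [FiniteDimensional ℝ F]
  {V : Type} [NormedAddCommGroup V] [NormedSpace ℝ V] [FiniteDimensional ℝ V]

/-- The image of an open set under a smooth map has small Hausdorff dimension. -/
theorem dimH_image_open {U : Set F} (hU : IsOpen U) {g : F → V} (hg : ContDiffOn ℝ 1 g U) :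
    dimH (g '' U) ≤ finrank ℝ F := by
  refine (dimH_image_le_of_locally_lipschitzOn fun x hx => ?_).trans
    ((dimH_mono (subset_univ _)).trans_eq (Real.dimH_univ_eq_finrank F))
  obtain ⟨C, t, ht, h⟩ := (hg.contDiffAt (hU.mem_nhds hx)).exists_lipschitzOnWith
  exact ⟨C, t, nhdsWithin_le_nhds ht, h⟩

theorem xtrans_ker (l : V →L[ℝ] ℝ) {b : V} (hl : l b = 1) :
    finrank ℝ (LinearMap.ker (l : V →ₗ[ℝ] ℝ)) + 1 = finrank ℝ V := by
  have h := LinearMap.finrank_range_add_finrank_ker (l : V →ₗ[ℝ] ℝ)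
  have e : LinearMap.range (l : V →ₗ[ℝ] ℝ) = ⊤ :=
    LinearMap.range_eq_top.2 fun t => ⟨t • b, by simp [hl]⟩
  rw [e, finrank_top, Module.finrank_self] at h
  omega

theorem xtrans_clm : finrank ℝ (F →L[ℝ] V) = finrank ℝ F * finrank ℝ V := by
  rw [← (LinearMap.toContinuousLinearMap : (F →ₗ[ℝ] V) ≃ₗ[ℝ] _).finrank_eq,
    Module.finrank_linearMap]

theorem xtrans_inner {q : ℕ} (μ : Fin q → ℝ) (w : Rd q) :
    innerSL ℝ (WithLp.toLp 2 μ : Rd q) w = ∑ i, μ i * w i := by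
  simp [PiLp.inner_apply, mul_comm]

/-- The bad parameters seen in one chart lie in the image of a smaller space. -/
theorem dimH_bad_chart {d q : ℕ} (hq : finrank ℝ V = d + q) {φ : Rd d → V} (hφ : ContDiff ℝ ∞ φ)
    {G : V → Rd q} (hG : ContDiff ℝ ∞ G) {Γ : F → V} (hΓ : ContDiff ℝ ∞ Γ) {β : F → ℝ}
    (hβ : ContDiff ℝ ∞ β) (k : Fin q) (b : V) (l : V →L[ℝ] ℝ) (hl : l b = 1) :
    dimH {x : V × (F →L[ℝ] V) | ∃ (z : F) (u : Rd d) (μ : Fin q → ℝ), β z ≠ 0 ∧ μ k = 1 ∧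
        φ u = Γ z + β z • (x.1 + x.2 z) ∧ ∑ i, μ i * fderiv ℝ G (φ u) b i ≠ 0 ∧
        ∀ v, ∑ i, μ i * fderiv ℝ G (φ u)
          (fderiv ℝ Γ z v + fderiv ℝ β z v • (x.1 + x.2 z) + β z • x.2 v) i = 0}
      ≤ ((finrank ℝ (V × (F →L[ℝ] V)) - 1 : ℕ) : ENNReal) := by
  let κ : Rd q →L[ℝ] ℝ := EuclideanSpace.proj k
  let ek : Rd q := EuclideanSpace.single k 1
  have hκ : κ ek = 1 := by simp [κ, ek]
  let N := LinearMap.ker (κ : Rd q →ₗ[ℝ] ℝ)
  let H := LinearMap.ker (l : V →ₗ[ℝ] ℝ)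
  let y : F × Rd d × N × (F →L[ℝ] H) → V →L[ℝ] ℝ := fun p =>
    (innerSL ℝ (ek + N.subtypeL p.2.2.1)).comp (fderiv ℝ G (φ p.2.1))
  let w : F × Rd d × N × (F →L[ℝ] H) → V := fun p => (β p.1)⁻¹ • (φ p.2.1 - Γ p.1)
  let c : F × Rd d × N × (F →L[ℝ] H) → F →L[ℝ] ℝ := fun p =>
    -((β p.1)⁻¹ • (y p).comp (fderiv ℝ Γ p.1 + (fderiv ℝ β p.1).smulRight (w p)))
  let M : F × Rd d × N × (F →L[ℝ] H) → F →L[ℝ] V := fun p => H.subtypeL.comp p.2.2.2
  let L : F × Rd d × N × (F →L[ℝ] H) → F →L[ℝ] V := fun p =>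
    M p + ((y p b)⁻¹ • (c p - (y p).comp (M p))).smulRight b
  let U : Set (F × Rd d × N × (F →L[ℝ] H)) := {p | β p.1 ≠ 0} ∩ {p | y p b ≠ 0}
  have one : (1 : WithTop ℕ∞) ≤ ∞ := by simp
  have s1 : ContDiff ℝ 1 fun p : F × Rd d × N × (F →L[ℝ] H) => φ p.2.1 :=
    (hφ.of_le one).comp contDiff_snd.fst
  have sβ : ContDiff ℝ 1 fun p : F × Rd d × N × (F →L[ℝ] H) => β p.1 :=
    (hβ.of_le one).comp contDiff_fst
  have sy : ContDiff ℝ 1 y :=
    ((innerSL ℝ).contDiff.comp (contDiff_const.add (N.subtypeL.contDiff.comp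
      contDiff_snd.snd.fst))).clm_comp ((hG.fderiv_right (m := 1) (by norm_cast)).comp s1)
  have syb : ContDiff ℝ 1 fun p => y p b := sy.clm_apply contDiff_const
  have hU : IsOpen U := (isOpen_ne_fun sβ.continuous continuous_const).inter
    (isOpen_ne_fun syb.continuous continuous_const)
  have si : ContDiffOn ℝ 1 (fun p : F × Rd d × N × (F →L[ℝ] H) => (β p.1)⁻¹) U :=
    sβ.contDiffOn.inv fun _ hp => hp.1
  have sw : ContDiffOn ℝ 1 w U :=
    si.smul (s1.sub ((hΓ.of_le one).comp contDiff_fst)).contDiffOn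
  have sc : ContDiffOn ℝ 1 c U :=
    (si.smul (sy.contDiffOn.clm_comp
      (((hΓ.fderiv_right (m := 1) (by norm_cast)).comp contDiff_fst).contDiffOn.add
        (((hβ.fderiv_right (m := 1) (by norm_cast)).comp contDiff_fst).contDiffOn.smulRight
          sw)))).neg
  have sM : ContDiff ℝ 1 M := contDiff_const.clm_comp contDiff_snd.snd.snd
  have sL : ContDiffOn ℝ 1 L U :=
    sM.contDiffOn.add (((syb.contDiffOn.inv fun _ hp => hp.2).smul
      (sc.sub (sy.clm_comp sM).contDiffOn)).smulRight contDiffOn_const)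
  have sg : ContDiffOn ℝ 1 (fun p => (w p - L p p.1, L p)) U :=
    (sw.sub (sL.clm_apply contDiffOn_fst)).prodMk sL
  refine le_trans (dimH_mono ?_) ((dimH_image_open hU sg).trans_eq ?_)
  · rintro ⟨e, A⟩ ⟨z, u, μ, hz, hμ, hu, hb, hv⟩
    have hν : WithLp.toLp 2 μ - ek ∈ N := by
      show κ _ = 0
      rw [map_sub, hκ]
      exact sub_eq_zero.2 hμ
    have hM : ∀ v, (A - (l.comp A).smulRight b) v ∈ H := fun v => by
      show l _ = 0
      simp [hl]
    let p : F × Rd d × N × (F →L[ℝ] H) :=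
      (z, u, ⟨_, hν⟩, (A - (l.comp A).smulRight b).codRestrict H hM)
    have ey : ∀ a, y p a = ∑ i, μ i * fderiv ℝ G (φ u) a i := fun a => by
      rw [← xtrans_inner]
      show innerSL ℝ (ek + (WithLp.toLp 2 μ - ek)) _ = _
      rw [add_sub_cancel]
      rfl
    have ew : w p = e + A z := by
      show (β z)⁻¹ • (φ u - Γ z) = _
      rw [hu, add_sub_cancel_left, inv_smul_smul₀ hz]
    have hb' : y p b ≠ 0 := by rwa [ey]
    have eL : L p = A := by
      ext v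
      have h1 := (ey _).trans (hv v)
      have h2 : M p v = A v - l (A v) • b := rfl
      have h3 : c p v = -((β z)⁻¹ * y p (fderiv ℝ Γ z v + fderiv ℝ β z v • w p)) := rfl
      have h4 : L p v = M p v + ((y p b)⁻¹ * (c p v - y p (M p v))) • b := rfl
      rw [map_add, map_smul, smul_eq_mul] at h1
      have h5 : c p v = y p (A v) := by
        rw [h3, ew, eq_neg_of_add_eq_zero_left h1]
        field_simp
      rw [h4, h5, h2, map_sub, map_smul, smul_eq_mul, sub_sub_cancel, mul_comm (l _),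
        inv_mul_cancel_left₀ hb', sub_add_cancel]
    refine ⟨p, ⟨hz, hb'⟩, ?_⟩
    show (w p - L p z, L p) = _
    rw [eL, ew, add_sub_cancel_right]
  · have e1 := xtrans_ker κ hκ
    have e2 := xtrans_ker l hl
    rw [finrank_euclideanSpace_fin] at e1
    rw [Module.finrank_prod, Module.finrank_prod, Module.finrank_prod, Module.finrank_prod,
      xtrans_clm, xtrans_clm, finrank_euclideanSpace_fin, ← e2]
    have e3 : finrank ℝ H = d + finrank ℝ N := by
      simp only [H, N]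
      omega
    congr 1
    rw [mul_add, mul_one]
    simp only [H, N] at e3 ⊢
    omega

/-- Transversality by an affine perturbation. -/
theorem exists_transverse {d : ℕ} {A : Set V} (hA : IsSub d A) {Γ : F → V} (hΓ : ContDiff ℝ ∞ Γ)
    {β : F → ℝ} (hβ : ContDiff ℝ ∞ β) :
    ∃ (e : V) (L : F →L[ℝ] V), ∀ z, β z ≠ 0 → Γ z + β z • (e + L z) ∈ A →
      Tv (fun z => Γ z + β z • (e + L z)) A z := by
  rcases subsingleton_or_nontrivial V with hV | hV
  · exact ⟨0, 0, fun z _ _ w => ⟨0, by rw [Subsingleton.elim (_ - _) 0]; exact zero_mem _⟩⟩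
  choose φ ψ hc using hA
  choose q G hq hG hev using fun x hx => exists_local_eq (d := d) (A := A)
    (fun x hx => ⟨φ x hx, ψ x hx, hc x hx⟩) (x := x) hx
  obtain ⟨t, htA, htc, hcov⟩ := TopologicalSpace.countable_cover_nhdsWithin (s := A)
    (f := fun x => {y | ∀ hx : x ∈ A, φ x hx (ψ x hx y) = y ∧
      Function.Surjective (fderiv ℝ (G x hx) y) ∧
        (y ∈ A → ∀ v, v ∈ Tan A y ↔ fderiv ℝ (G x hx) y v = 0)}) fun x hx => by
      filter_upwards [(hc x hx).left, nhdsWithin_le_nhds (hev x hx)] with y h1 h2 _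
      exact ⟨h1, h2.2⟩
  have := htc.to_subtype
  let B := Module.finBasis ℝ V
  have hpos : 0 < finrank ℝ (V × (F →L[ℝ] V)) := Module.finrank_pos
  obtain ⟨⟨e, L⟩, hx⟩ := (dense_compl_of_dimH_lt_finrank
    (s := ⋃ (s : t) (k : Fin (q s (htA s.2))) (j : Fin (finrank ℝ V)),
      {x : V × (F →L[ℝ] V) | ∃ (z : F) (u : Rd d) (μ : Fin (q s (htA s.2)) → ℝ), β z ≠ 0 ∧
        μ k = 1 ∧ φ s (htA s.2) u = Γ z + β z • (x.1 + x.2 z) ∧
        ∑ i, μ i * fderiv ℝ (G s (htA s.2)) (φ s (htA s.2) u) (B j) i ≠ 0 ∧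
        ∀ v, ∑ i, μ i * fderiv ℝ (G s (htA s.2)) (φ s (htA s.2) u)
          (fderiv ℝ Γ z v + fderiv ℝ β z v • (x.1 + x.2 z) + β z • x.2 v) i = 0}) (by
      refine lt_of_le_of_lt ?_ (Nat.cast_lt.2 (Nat.sub_lt hpos one_pos))
      simp only [dimH_iUnion]
      exact iSup_le fun s => iSup_le fun k => iSup_le fun j =>
        dimH_bad_chart (hq s _) (hc s _).smφ (hG s _) hΓ hβ k (B j)
          (LinearMap.toContinuousLinearMap (B.coord j)) (by simp))).nonempty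
  refine ⟨e, L, fun z hz ha => ?_⟩
  obtain ⟨s, hs, hm⟩ := mem_iUnion₂.1 (hcov ha)
  obtain ⟨h1, h2, h3⟩ := hm (htA hs)
  have hD : HasFDerivAt (fun z => Γ z + β z • (e + L z))
      (fderiv ℝ Γ z + (β z • L + (fderiv ℝ β z).smulRight (e + L z))) z :=
    (hΓ.differentiable (by simp) z).hasFDerivAt.add
      ((hβ.differentiable (by simp) z).hasFDerivAt.smul (L.hasFDerivAt.const_add e))
  set a := Γ z + β z • (e + L z) with ha'
  set D := fderiv ℝ Γ z + (β z • L + (fderiv ℝ β z).smulRight (e + L z)) with hD'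
  set g := fderiv ℝ (G s (htA hs)) a with hg
  by_cases hr : LinearMap.range (g.comp D).toLinearMap = ⊤
  · intro w
    obtain ⟨v, hv⟩ := LinearMap.range_eq_top.1 hr (g w)
    refine ⟨v, (h3 ha _).2 ?_⟩
    rw [hD.fderiv, map_sub, ← hv]
    exact sub_self _
  exfalso
  rw [← Submodule.orthogonal_eq_bot_iff] at hr
  obtain ⟨μ, hμ, hμ0⟩ := Submodule.exists_mem_ne_zero_of_ne_bot hr
  obtain ⟨k, hk⟩ : ∃ k, μ k ≠ 0 := by
    by_contra hn
    exact hμ0 (PiLp.ext fun i => not_not.1 (not_exists.1 hn i))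
  have ei : ∀ w, ∑ i, (μ k)⁻¹ * μ i * w i = (μ k)⁻¹ * innerSL ℝ μ w := fun w : Rd _ => by
    rw [show innerSL ℝ μ w = _ from xtrans_inner μ w, Finset.mul_sum]
    simp only [mul_assoc]
  obtain ⟨j, hj⟩ : ∃ j, innerSL ℝ μ (g (B j)) ≠ 0 := by
    by_contra hn
    have h0 : (((innerSL ℝ μ).comp g : V →L[ℝ] ℝ) : V →ₗ[ℝ] ℝ) = 0 :=
      B.ext fun j => not_not.1 (not_exists.1 hn j)
    obtain ⟨v, hv⟩ := h2 μ
    have h4 : innerSL ℝ μ (g v) = 0 := LinearMap.congr_fun h0 v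
    rw [hv, innerSL_apply_apply, inner_self_eq_zero] at h4
    exact hμ0 h4
  refine hx (mem_iUnion.2 ⟨⟨s, hs⟩, mem_iUnion.2 ⟨k, mem_iUnion.2 ⟨j, z, ψ s (htA hs) a,
    fun i => (μ k)⁻¹ * μ i, hz, inv_mul_cancel₀ hk, h1, ?_, fun v => ?_⟩⟩⟩)
  · dsimp only
    rw [h1, ei]
    exact mul_ne_zero (inv_ne_zero hk) hj
  · dsimp only
    rw [h1, ei]
    have h5 : inner ℝ μ (g (D v)) = 0 :=
      Submodule.inner_left_of_mem_orthogonal (LinearMap.mem_range_self (g.comp D).toLinearMap v) hμ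
    have h6 : D v = fderiv ℝ Γ z v + fderiv ℝ β z v • (e + L z) + β z • L v := by
      rw [hD', add_assoc, add_comm (_ • (e + L z))]
      rfl
    rw [← h6, innerSL_apply_apply, h5, mul_zero]

end Pool.Agent.Lib.MP_ccffa6_gt.EX
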